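import Pool.Agent.V5helper78.BR.Wron

/-!
# The derivatives of the inverse exponential maps at `x` and `z` are adjoint: conclusion
-/

set_option autoImplicit false
set_option maxSynthPendingDepth 3

namespace Pool.Agent.V5helper78.BR

open Set Metric Filter Topology
open scoped ContDiff InnerProductSpace
open Pool.Agent.Q176.BR

variable {n : ℕ} {g : Fld n}

theorem tv_geod (hg : IsSimple g) {x : E n} {γ u : ℝ → E n}
    (hγ : IsGeod g γ u) (h0 : γ 0 = x) {t : ℝ} (ht : t ∈ Icc (0 : ℝ) 1) :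
    tv g x (γ t) = t • u t := by
  unfold tv
  rw [hγ.vel_eq hg ht, ← h0, hγ.lg_eq hg ht, map_smul]

theorem hasDerivAt_alpha (hg : IsSimple g) {x : E n} (hx : x ∈ M n) {γ u : ℝ → E n}
    (hγ : IsGeod g γ u) (h0 : γ 0 = x) (hu : u 0 ≠ 0) {t : ℝ} (ht : t ∈ Ioo (0 : ℝ) 1)
    (w : E n) : ∃ A : E n →L[ℝ] ℝ,
      HasDerivAt (fun t => fderiv ℝ (mom g x) (γ t) (ilg g x (γ t) w)) A t ∧
      ∀ b, A b = t / 2 * fderiv ℝ (fderiv ℝ g) (γ t) (ilg g x (γ t) w) b (u t) (u t) +
        fderiv ℝ g (γ t) b (fderiv ℝ (tv g x) (γ t) (ilg g x (γ t) w)) (u t) := by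
  have hin : γ t ∈ ball (0 : E n) 1 := mem_ball_zero_iff.2 (hγ.inner_mem hg hu ht)
  have hti : t ∈ Icc (0 : ℝ) 1 := ⟨ht.1.le, ht.2.le⟩
  have ha := hasDerivAt_ilg hg hx hγ h0 hu ht w
  have hvel : HasDerivAt γ (u t) t := (hγ.vel t hti).hasDerivAt (Icc_mem_nhds ht.1 ht.2)
  have hP2 := hasFDerivAt_fderiv (mom_at hg hx hin)
  have h1 : HasDerivAt (fun t => fderiv ℝ (mom g x) (γ t))
      (fderiv ℝ (fderiv ℝ (mom g x)) (γ t) (u t)) t :=
    HasFDerivAt.comp_hasDerivAt (f := γ) t hP2 hvel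
  have h2 := h1.clm_apply ha
  refine ⟨_, h2, fun b => ?_⟩
  set a := ilg g x (γ t) w with ha'
  have h3 := eik2 hg hx hin a b
  have h4 : tv g x (γ t) = t • u t := tv_geod hg hγ h0 hti
  rw [symm2 (mom_at hg hx hin), h4] at h3
  simp only [map_smul, smul_apply, smul_eq_mul] at h3
  simp only [add_apply, map_smul, map_sub, sub_apply, smul_apply, smul_eq_mul]
  have ht0 : t ≠ 0 := ht.1.ne'
  field_simp
  linear_combination 2 * h3

theorem rev_deriv {F : Type*} [NormedAddCommGroup F] [NormedSpace ℝ F] {f : ℝ → F} {f' : F}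
    {t : ℝ} (h : HasDerivAt f f' (1 - t)) : HasDerivAt (fun s => f (1 - s)) (-f') t := by
  have h1 : HasDerivAt (fun s : ℝ => 1 - s) (-1) t := by
    simpa using (hasDerivAt_id t).const_sub 1
  have h2 := h.scomp t h1
  simpa [Function.comp_def] using h2

/-- The Wronskian of the two Jacobi fields. -/
noncomputable def wr (g : Fld n) (x z w w' : E n) (γ : ℝ → E n) (t : ℝ) : ℝ :=
  (1 - t) * fderivWithin ℝ (mom g x) (M n) (γ t) (ilg g x (γ t) w) (ilg g z (γ t) w') +
    t * fderivWithin ℝ (mom g z) (M n) (γ t) (ilg g z (γ t) w') (ilg g x (γ t) w)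

theorem wr_deriv (hg : IsSimple g) {x z : E n} (hx : x ∈ M n) (hz : z ∈ M n) {γ u : ℝ → E n}
    (hγ : IsGeod g γ u) (h0 : γ 0 = x) (h1 : γ 1 = z) (hu : u 0 ≠ 0) {t : ℝ}
    (ht : t ∈ Ioo (0 : ℝ) 1) (w w' : E n) : HasDerivAt (wr g x z w w' γ) 0 t := by
  have hin : ∀ t ∈ Ioo (0 : ℝ) 1, γ t ∈ ball (0 : E n) 1 := fun t ht =>
    mem_ball_zero_iff.2 (hγ.inner_mem hg hu ht)
  have hti : t ∈ Icc (0 : ℝ) 1 := ⟨ht.1.le, ht.2.le⟩
  have ht' : 1 - t ∈ Ioo (0 : ℝ) 1 := ⟨by linarith [ht.2], by linarith [ht.1]⟩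
  have hy := hin t ht
  -- the reversed geodesic
  have hr := hγ.reverse
  have hr0 : (fun t => γ (1 - t)) 0 = z := by simp [h1]
  have hru : (fun t => -u (1 - t)) 0 ≠ 0 := by
    have := hγ.ne_zero hg.toIsMetric hu (t := 1) ⟨zero_le_one, le_rfl⟩
    simpa using this
  have ha := hasDerivAt_ilg hg hx hγ h0 hu ht w
  have hb := rev_deriv (hasDerivAt_ilg hg hz hr hr0 hru ht' w')
  obtain ⟨A, hA, hA'⟩ := hasDerivAt_alpha hg hx hγ h0 hu ht w
  obtain ⟨B, hB, hB'⟩ := hasDerivAt_alpha hg hz hr hr0 hru ht' w'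
  have hB2 := rev_deriv hB
  simp only [sub_sub_cancel] at hb hB2 hB'
  have e1 : wr g x z w w' γ =ᶠ[𝓝 t] fun t =>
      (1 - t) * fderiv ℝ (mom g x) (γ t) (ilg g x (γ t) w) (ilg g z (γ t) w') +
      t * fderiv ℝ (mom g z) (γ t) (ilg g z (γ t) w') (ilg g x (γ t) w) := by
    filter_upwards [Ioo_mem_nhds ht.1 ht.2] with s hs
    unfold wr
    rw [fderivWithin_of_mem_nhds (M_nhds (hin s hs)), fderivWithin_of_mem_nhds (M_nhds (hin s hs))]
  have h2 : HasDerivAt (fun s : ℝ => 1 - s) (-1) t := by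
    simpa using (hasDerivAt_id t).const_sub 1
  have h3 := (h2.mul (hA.clm_apply hb)).add ((hasDerivAt_id t).mul (hB2.clm_apply ha))
  refine (h3.congr_of_eventuallyEq e1).congr_deriv ?_
  set a := ilg g x (γ t) w with ha'
  set b := ilg g z (γ t) w' with hb'
  have hm := hg.toIsMetric
  have hX : tv g x (γ t) = t • u t := tv_geod hg hγ h0 hti
  have hZ : tv g z (γ t) = -((1 - t) • u t) := by
    have h5 := tv_geod hg hr hr0 (t := 1 - t) ⟨ht'.1.le, ht'.2.le⟩
    simpa using h5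
  have hα : ∀ c, fderiv ℝ (mom g x) (γ t) a c =
      t * fderiv ℝ g (γ t) a (u t) c + g (γ t) (fderiv ℝ (tv g x) (γ t) a) c := by
    intro c
    rw [mom_fderiv hg hx hy, hX]
    simp
  have hβ : ∀ c, fderiv ℝ (mom g z) (γ t) b c =
      -(1 - t) * fderiv ℝ g (γ t) b (u t) c + g (γ t) (fderiv ℝ (tv g z) (γ t) b) c := by
    intro c
    rw [mom_fderiv hg hz hy, hZ]
    simp only [map_neg, map_smul, neg_apply, smul_apply, smul_eq_mul]
    ring
  have ht0 : t ≠ 0 := ht.1.ne'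
  have ht1 : 1 - t ≠ 0 := ht'.1.ne'
  simp only [neg_apply, map_neg, map_smul, map_sub, smul_eq_mul, id_eq, hA', hB', neg_neg,
    one_mul, neg_mul]
  rw [hα b, hα (fderiv ℝ (tv g z) (γ t) b), hβ a, hβ (fderiv ℝ (tv g x) (γ t) a)]
  rw [symm2 (hg.smooth.contDiffAt (x := γ t)) b a, hm.symm (γ t) (fderiv ℝ (tv g z) (γ t) b)
    (fderiv ℝ (tv g x) (γ t) a), hm.fderiv_symm (γ t) a (u t) (fderiv ℝ (tv g z) (γ t) b),
    hm.fderiv_symm (γ t) b (u t) (fderiv ℝ (tv g x) (γ t) a),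
    hm.fderiv_symm (γ t) a (u t) b, hm.fderiv_symm (γ t) b (u t) a]
  field_simp
  ring

theorem continuousOn_dmom (hg : IsSimple g) {x : E n} (hx : x ∈ M n) :
    ContinuousOn (fderivWithin ℝ (mom g x) (M n)) (M n) :=
  (contDiffOn_mom hg hx).continuousOn_fderivWithin uniqueDiff (by simp)

theorem continuousOn_wr (hg : IsSimple g) {x z : E n} (hx : x ∈ M n) (hz : z ∈ M n)
    {γ u : ℝ → E n} (hγ : IsGeod g γ u) (w w' : E n) :
    ContinuousOn (wr g x z w w' γ) (Icc 0 1) := by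
  have hm : MapsTo γ (Icc 0 1) (M n) := fun t ht => hγ.mem t ht
  have c1 := (continuousOn_dmom hg hx).comp hγ.cont hm
  have c2 := (continuousOn_dmom hg hz).comp hγ.cont hm
  have c3 : ContinuousOn (fun t => ilg g x (γ t) w) (Icc 0 1) :=
    ((hg.continuousOn_ilg hx).comp hγ.cont hm).clm_apply continuousOn_const
  have c4 : ContinuousOn (fun t => ilg g z (γ t) w') (Icc 0 1) :=
    ((hg.continuousOn_ilg hz).comp hγ.cont hm).clm_apply continuousOn_const
  have c5 : ContinuousOn (fun t : ℝ => 1 - t) (Icc 0 1) := by fun_prop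
  exact (c5.mul ((c1.clm_apply c3).clm_apply c4)).add
    (continuousOn_id.mul ((c2.clm_apply c4).clm_apply c3))

/-- The Hessian of the energy function at the base point is the metric. -/
theorem dmom_self (hg : IsSimple g) {x : E n} (hx : x ∈ M n) (c b : E n) :
    fderivWithin ℝ (mom g x) (M n) x c b = g x c b := by
  have h1 : HasFDerivWithinAt (fun y => g x (lg g x y)) ((g x).comp (dlg g x x)) (M n) x :=
    (g x).hasFDerivAt.comp_hasFDerivWithinAt x (hg.hasFDeriv hx hx)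
  have h2 : DifferentiableWithinAt ℝ (dlg g x) (M n) x :=
    (contDiffOn_dlg hg hx).differentiableOn (by simp) x hx
  have h3 := h1.clm_apply (h2.hasFDerivWithinAt.clm_apply (hasFDerivWithinAt_const b x (M n)))
  have h4 : HasFDerivWithinAt (fun y => mom g x y b) ((fderivWithin ℝ (mom g x) (M n) x).flip b)
      (M n) x := by
    have h5 : HasFDerivWithinAt (mom g x) (fderivWithin ℝ (mom g x) (M n) x) (M n) x :=
      ((contDiffOn_mom hg hx).differentiableOn (by simp) x hx).hasFDerivWithinAt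
    have h6 := h5.clm_apply (hasFDerivWithinAt_const b x (M n))
    refine h6.congr_fderiv ?_
    ext ξ
    simp
  have h5 : EqOn (fun y => mom g x y b) (fun y => g x (lg g x y) (dlg g x y b)) (M n) :=
    fun y hy => hg.gauss hx hy b
  have h6 := (uniqueDiff x hx).eq h4 (h3.congr h5 (h5 hx))
  have h7 := congrArg (fun L : E n →L[ℝ] ℝ => L c) h6
  simp only [ContinuousLinearMap.flip_apply, add_apply, ContinuousLinearMap.comp_apply,
    hg.lg_self hx, map_zero, zero_apply, dlg_self hg hx, ContinuousLinearMap.id_apply,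
    zero_add] at h7
  exact h7

/-- The adjointness of the derivatives of the exponential maps. -/
theorem adjoint_ilg (hg : IsSimple g) {x z : E n} (hx : x ∈ M n) (hz : z ∈ M n) (hxz : x ≠ z)
    (w w' : E n) : g x w (ilg g z x w') = g z w' (ilg g x z w) := by
  obtain ⟨γ, u, hγ, h0, h1, hu0, -⟩ := hg.exists_geod hx hz
  have hu : u 0 ≠ 0 := by
    rw [hu0]
    exact hg.lg_ne_zero hx hz hxz
  obtain ⟨c, -, hc⟩ := exists_hasDerivAt_eq_slope (wr g x z w w' γ) (fun _ => 0) zero_lt_one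
    (continuousOn_wr hg hx hz hγ w w') (fun t ht => wr_deriv hg hx hz hγ h0 h1 hu ht w w')
  unfold wr at hc
  simp only [h0, h1, sub_zero, div_one, sub_self, zero_mul, zero_add, one_mul, add_zero,
    ilg_self hg hx, ilg_self hg hz, ContinuousLinearMap.id_apply] at hc
  rw [dmom_self hg hx, dmom_self hg hz] at hc
  linarith

/-- The adjointness of the derivatives of the inverse exponential maps. -/
theorem adjoint_dlg (hg : IsSimple g) {x z : E n} (hx : x ∈ M n) (hz : z ∈ M n) (hxz : x ≠ z)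
    (a b : E n) : g x (dlg g x z b) a = g z (dlg g z x a) b := by
  have h1 := adjoint_ilg hg hx hz hxz (dlg g x z b) (dlg g z x a)
  rwa [hg.ilg_dlg hz hx, hg.ilg_dlg hx hz] at h1

end Pool.Agent.V5helper78.BR
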