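import Pool.Agent.Q176.BR.Bridge

/-!
# Exit points, and the derivative of the inverse exponential map at the base point
-/

set_option autoImplicit false

namespace Pool.Agent.V5helper78.BR

open Set Metric Filter Topology
open scoped ContDiff InnerProductSpace
open Pool.Agent.Q176.BR

variable {n : ℕ} {g : Fld n}

theorem isCompact_M : IsCompact (M n) := isCompact_closedBall 0 1

/-- Two linear maps which agree on an open set agree. -/
theorem clm_eq_of_open {F : Type*} [NormedAddCommGroup F] [NormedSpace ℝ F]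
    {A B : E n →L[ℝ] F} {S : Set (E n)} {v0 : E n} (hS : S ∈ 𝓝 v0)
    (h : ∀ v ∈ S, A v = B v) : A = B := by
  ext1 z
  obtain ⟨δ, hδ, h2⟩ := exists_seg hS z
  have h3 := h _ (h2 δ (by rw [abs_of_pos hδ]))
  have h4 := h _ (h2 0 (by simp [hδ.le]))
  simp only [zero_smul, add_zero] at h4
  rw [map_add, map_add, h4, map_smul, map_smul] at h3
  exact smul_right_injective _ hδ.ne' (add_left_cancel h3)

theorem ball_nonempty' : (ball (0 : E n) 1).Nonempty := ⟨0, mem_ball_self one_pos⟩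

theorem dlg_self (hg : IsSimple g) {x : E n} (hx : x ∈ M n) :
    dlg g x x = ContinuousLinearMap.id ℝ (E n) := by
  have h1 := hg.isOpen_lg hx
  have h2 : lg g x 0 ∈ lg g x '' ball 0 1 := mem_image_of_mem _ (mem_ball_self one_pos)
  refine clm_eq_of_open (h1.mem_nhds h2) ?_
  rintro _ ⟨y, hy, rfl⟩
  obtain ⟨γ, u, hγ, h0, h3, hu0, -⟩ := hg.exists_geod hx (ball_subset_closedBall hy)
  have h4 := hγ.dlg_vel hg (t := 0) ⟨le_rfl, zero_le_one⟩
  rw [h0, hu0] at h4
  exact h4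

theorem ilg_self (hg : IsSimple g) {x : E n} (hx : x ∈ M n) :
    ilg g x x = ContinuousLinearMap.id ℝ (E n) := by
  ext1 z
  have h1 := hg.ilg_dlg hx hx z
  rw [dlg_self hg hx] at h1
  exact h1

theorem lg_inj (hg : IsSimple g) {x y y' : E n} (hx : x ∈ M n) (hy : y ∈ M n) (hy' : y' ∈ M n)
    (h : lg g x y = lg g x y') : y = y' := by
  rw [← hg.ex_lg hx hy, ← hg.ex_lg hx hy', h]

/-- The points of the geodesic to `q`. -/
theorem ex_smul (hg : IsSimple g) {x q : E n} (hx : x ∈ M n) (hq : q ∈ M n) {t : ℝ}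
    (ht : t ∈ Icc (0 : ℝ) 1) : ex g x (t • lg g x q) ∈ M n ∧
      lg g x (ex g x (t • lg g x q)) = t • lg g x q := by
  obtain ⟨γ, u, hγ, h0, h3, hu0, -⟩ := hg.exists_geod hx hq
  have h1 := hγ.eq_ex hg ht
  have h2 := hγ.lg_eq hg ht
  rw [h0, hu0] at h1 h2
  rw [← h1]
  exact ⟨hγ.mem t ht, h2⟩

theorem ex_smul_ball (hg : IsSimple g) {x q : E n} (hx : x ∈ M n) (hq : q ∈ M n) (hxq : x ≠ q)
    {t : ℝ} (ht : t ∈ Ioo (0 : ℝ) 1) : ex g x (t • lg g x q) ∈ ball (0 : E n) 1 := by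
  obtain ⟨γ, u, hγ, h0, h3, hu0, -⟩ := hg.exists_geod hx hq
  have h1 := hγ.eq_ex hg ⟨ht.1.le, ht.2.le⟩
  rw [h0, hu0] at h1
  rw [← h1, mem_ball_zero_iff]
  exact hγ.inner_mem hg (by rw [hu0]; exact hg.lg_ne_zero hx hq hxq) ht

/-- Every geodesic can be prolonged to the boundary. -/
theorem exists_exit (hg : IsSimple g) {z y : E n} (hz : z ∈ M n) (hy : y ∈ ball (0 : E n) 1)
    (hzy : z ≠ y) : ∃ q ∈ bdM n, ∃ t ∈ Ioo (0 : ℝ) 1, lg g z y = t • lg g z q := by
  have hyM : y ∈ M n := ball_subset_closedBall hy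
  set v := lg g z y with hv
  have hv0 : v ≠ 0 := hg.lg_ne_zero hz hyM hzy
  set K : Set (E n) := lg g z '' M n with hK
  have hKc : IsCompact K := isCompact_M.image_of_continuousOn (hg.contDiffOn_lg hz).continuousOn
  set S : Set ℝ := {s | 1 ≤ s ∧ s • v ∈ K} with hS
  have h1S : (1 : ℝ) ∈ S := ⟨le_rfl, by rw [one_smul]; exact mem_image_of_mem _ hyM⟩
  have hSclosed : IsClosed S := by
    have : S = Ici 1 ∩ (fun s : ℝ => s • v) ⁻¹' K := rfl
    rw [this]
    exact isClosed_Ici.inter (hKc.isClosed.preimage (by fun_prop))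
  have hSbdd : BddAbove S := by
    obtain ⟨C, hC⟩ := hKc.isBounded.exists_norm_le
    refine ⟨C / ‖v‖, fun s hs => ?_⟩
    have h1 := hC _ hs.2
    rw [norm_smul, Real.norm_eq_abs, abs_of_nonneg (zero_le_one.trans hs.1)] at h1
    rw [le_div_iff₀ (norm_pos_iff.2 hv0)]
    exact h1
  have hmem := hSclosed.csSup_mem ⟨1, h1S⟩ hSbdd
  set s := sSup S with hs
  obtain ⟨hs1, q, hq, hqs⟩ := hmem
  have hqbd : q ∈ bdM n := by
    rw [mem_sphere_zero_iff_norm]
    refine le_antisymm (mem_closedBall_zero_iff.1 hq) (not_lt.1 fun hlt => ?_)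
    have h1 : s • v ∈ lg g z '' ball 0 1 := ⟨q, mem_ball_zero_iff.2 hlt, hqs⟩
    have h2 := (hg.isOpen_lg hz).mem_nhds h1
    obtain ⟨δ, hδ, h3⟩ := exists_seg h2 v
    obtain ⟨q', hq', hq''⟩ := h3 δ (by rw [abs_of_pos hδ])
    have h4 : s + δ ∈ S := ⟨by linarith, q', ball_subset_closedBall hq', by
      rw [hq'', add_smul]⟩
    have h5 := le_csSup hSbdd h4
    linarith
  have hs0 : (0 : ℝ) < s := by linarith
  refine ⟨q, hqbd, s⁻¹, ⟨by positivity, ?_⟩, ?_⟩
  · rcases hs1.lt_or_eq with h | h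
    · exact inv_lt_one_of_one_lt₀ h
    · exfalso
      rw [← h, one_smul] at hqs
      have h2 := lg_inj hg hz hq hyM hqs
      rw [h2, mem_sphere_zero_iff_norm] at hqbd
      rw [mem_ball_zero_iff] at hy
      linarith
  · rw [hqs, smul_smul, inv_mul_cancel₀ hs0.ne', one_smul]

theorem bd_not_ball {q : E n} (hq : q ∈ bdM n) (h : q ∈ ball (0 : E n) 1) : False := by
  rw [mem_sphere_zero_iff_norm] at hq
  rw [mem_ball_zero_iff] at h
  linarith

/-- The exit point is unique. -/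
theorem exit_unique (hg : IsSimple g) {z q q' : E n} (hz : z ∈ M n) (hq : q ∈ bdM n)
    (hq' : q' ∈ bdM n) (hzq : z ≠ q) (hzq' : z ≠ q') {l : ℝ} (hl : 0 < l)
    (h : lg g z q = l • lg g z q') : l = 1 ∧ q = q' := by
  have hqM := bd_sub hq
  have hqM' := bd_sub hq'
  have key : l = 1 := by
    rcases lt_trichotomy l 1 with h1 | h1 | h1
    · exfalso
      have h2 := ex_smul_ball hg hz hqM' hzq' ⟨hl, h1⟩
      rw [← h, hg.ex_lg hz hqM] at h2
      exact bd_not_ball hq h2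
    · exact h1
    · exfalso
      have h2 := ex_smul_ball hg hz hqM hzq ⟨inv_pos.2 hl, inv_lt_one_of_one_lt₀ h1⟩
      rw [h, smul_smul, inv_mul_cancel₀ hl.ne', one_smul, hg.ex_lg hz hqM'] at h2
      exact bd_not_ball hq' h2
  refine ⟨key, ?_⟩
  rw [key, one_smul] at h
  exact lg_inj hg hz hqM hqM' h

/-- Transversality at the exit point. -/
theorem inner_tv_pos (hg : IsSimple g) {z q : E n} (hz : z ∈ M n) (hq : q ∈ bdM n) (hzq : z ≠ q) :
    0 < ⟪q, tv g z q⟫_ℝ := by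
  have hqM := bd_sub hq
  obtain ⟨γ, u, hγ, e0, e1, eu0, eu1⟩ := hg.exists_geod hz hqM
  have h4 := hγ.transversal hg (by rw [eu0]; exact hg.lg_ne_zero hz hqM hzq)
    (by rw [e1]; exact mem_sphere_zero_iff_norm.1 hq)
  rwa [e1, eu1] at h4

theorem inner_lg_neg (hg : IsSimple g) {x z : E n} (hx : x ∈ bdM n) (hz : z ∈ M n) (hxz : x ≠ z) :
    ⟪x, lg g x z⟫_ℝ < 0 := by
  rw [hg.lg_symm hz (bd_sub hx), inner_neg_right, neg_lt_zero]
  exact inner_tv_pos hg hz hx hxz.symm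

end Pool.Agent.V5helper78.BR
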