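import Pool.Agent.V5helper78.BR.Disc

/-!
# Polar coordinates at a boundary point
-/

set_option autoImplicit false
set_option maxSynthPendingDepth 3

namespace Pool.Agent.V5helper78.BR

open Set Metric Filter Topology MeasureTheory
open scoped ContDiff InnerProductSpace BigOperators ENNReal
open Pool.Agent.Q176.BR

variable {n : ℕ} {g g' : Fld n}

theorem det_fderiv_pol_unit (hg : IsSimple g) {x p : E n} (hx : x ∈ M n)
    (hp : ‖p‖ = 1) : (fderiv ℝ (pol g x) p).det = (dlg g x p).det * ⟪p, tv g x p⟫_ℝ := by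
  have hpb : p ∈ bdM n := mem_sphere_zero_iff_norm.2 hp
  have hd := (contDiffAt_pol hg hx (bd_ne hp)).differentiableAt (by simp)
  refine det_pol hp (f := lg g x p) (hg.dlg_ilg hx (bd_sub hpb) _) ?_
  intro ξ
  exact (fderiv_curve hd ξ).unique (pol_curve hg hx hp ξ)

theorem det_fderiv_pol (hg : IsSimple g) {x X : E n} (hx : x ∈ M n)
    (hX : X ≠ 0) : (fderiv ℝ (pol g x) X).det =
      (dlg g x (rad X)).det * ⟪rad X, tv g x (rad X)⟫_ℝ := by
  have h1 : fderiv ℝ (pol g x) X = fderiv ℝ (pol g x) (rad X) := by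
    have hpos : 0 < ‖X‖ := norm_pos_iff.2 hX
    have h2 := fderiv_homog (F := pol g x) (fun r hr y => pol_smul hr x y) hpos (p := rad X)
      ((contDiffAt_pol hg hx (bd_ne (norm_rad hX))).differentiableAt (by simp))
      (by rw [norm_smul_rad]
          exact (contDiffAt_pol hg hx hX).differentiableAt (by simp))
    rwa [norm_smul_rad] at h2
  rw [h1, det_fderiv_pol_unit hg hx (norm_rad hX)]

/-- The unit ball without the ray through `x`. -/
def pbx (x : E n) : Set (E n) := {X | (X ≠ 0 ∧ ‖X‖ < 1) ∧ rad X ≠ x}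

theorem isOpen_pbx (x : E n) : IsOpen (pbx x) := by
  rw [isOpen_iff_mem_nhds]
  rintro X ⟨⟨h1, h2⟩, h3⟩
  have c1 : ∀ᶠ Y in 𝓝 X, Y ∈ pball n := isOpen_pball.mem_nhds ⟨h1, h2⟩
  have c2 : ∀ᶠ Y in 𝓝 X, rad Y ≠ x := (contDiffAt_rad h1).continuousAt.eventually_ne h3
  filter_upwards [c1, c2] with Y h4 h5 using ⟨h4, h5⟩

theorem pol_image (hg : IsSimple g) {x : E n} (hx : x ∈ bdM n) :
    pol g x '' pbx x = lg g x '' ball 0 1 := by
  have hxM := bd_sub hx
  ext v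
  constructor
  · rintro ⟨X, ⟨⟨hX0, hX1⟩, hX2⟩, rfl⟩
    have h1 : ‖X‖ ∈ Ioo (0 : ℝ) 1 := ⟨norm_pos_iff.2 hX0, hX1⟩
    exact ⟨_, ex_smul_ball hg hxM (bd_sub (rad_mem hX0)) (Ne.symm hX2) h1,
      (ex_smul hg hxM (bd_sub (rad_mem hX0)) ⟨h1.1.le, h1.2.le⟩).2⟩
  · rintro ⟨y, hy, rfl⟩
    have hxy : x ≠ y := (ne_of_ball hy hx).symm
    obtain ⟨q, hq, t, ht, h1⟩ := exists_exit hg hxM hy hxy
    have hq1 : ‖q‖ = 1 := mem_sphere_zero_iff_norm.1 hq
    have hr : rad (t • q) = q := by rw [rad_smul ht.1, rad_eq hq1]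
    have hn : ‖t • q‖ = t := by rw [norm_smul, hq1, mul_one, Real.norm_eq_abs, abs_of_pos ht.1]
    refine ⟨t • q, ⟨⟨smul_ne_zero ht.1.ne' (bd_ne hq1), ?_⟩, ?_⟩, ?_⟩
    · rw [hn]
      exact ht.2
    · rw [hr]
      rintro rfl
      rw [hg.lg_self hxM, smul_zero] at h1
      exact hg.lg_ne_zero hxM (ball_subset_closedBall hy) hxy h1
    · unfold pol
      rw [hr, hn, h1]

theorem pol_injOn (hg : IsSimple g) {x : E n} (hx : x ∈ bdM n) :
    InjOn (pol g x) (pbx x) := by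
  have hxM := bd_sub hx
  rintro X ⟨⟨hX, hX1⟩, hX2⟩ Y ⟨⟨hY, hY1⟩, hY2⟩ h
  have hpX : 0 < ‖X‖ := norm_pos_iff.2 hX
  have hpY : 0 < ‖Y‖ := norm_pos_iff.2 hY
  unfold pol at h
  have h2 : lg g x (rad X) = (‖X‖⁻¹ * ‖Y‖) • lg g x (rad Y) := by
    rw [← smul_smul, ← h, smul_smul, inv_mul_cancel₀ hpX.ne', one_smul]
  have h3 := exit_unique hg hxM (rad_mem hX) (rad_mem hY) (Ne.symm hX2) (Ne.symm hY2)
    (by positivity) h2
  have h4 : ‖X‖ = ‖Y‖ := by
    have h5 := h3.1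
    field_simp at h5
    exact h5.symm
  rw [← norm_smul_rad X, ← norm_smul_rad Y, h3.2, h4]

/-- Change of variables: from the ball to polar coordinates at the boundary point `x`. -/
theorem lintegral_pbx (hg : IsSimple g) {x : E n} (hx : x ∈ bdM n) (Ψ : E n → ℝ≥0∞) :
    ∫⁻ z in ball (0 : E n) 1, ENNReal.ofReal |(dlg g x z).det| * Ψ (lg g x z) =
      ∫⁻ X in pbx x, ENNReal.ofReal |(fderiv ℝ (pol g x) X).det| * Ψ (pol g x X) := by
  have hxM := bd_sub hx
  have h1 := lintegral_image_eq_lintegral_abs_det_fderiv_mul volume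
    (isOpen_pbx x).measurableSet
    (fun X hX => (((contDiffAt_pol hg hxM hX.1.1).differentiableAt
      (by simp)).hasFDerivAt).hasFDerivWithinAt) (pol_injOn hg hx) Ψ
  have h2 := lintegral_image_eq_lintegral_abs_det_fderiv_mul volume
    (isOpen_ball (x := (0 : E n)) (ε := 1)).measurableSet
    (fun z hz => ((hg.hasFDeriv hxM (ball_subset_closedBall hz)).mono ball_subset_closedBall))
    (fun a ha b hb hab => lg_inj hg hxM (ball_subset_closedBall ha)
      (ball_subset_closedBall hb) hab) Ψ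
  rw [← h1, ← h2, pol_image hg hx]

/-- The density for a pair of boundary points. -/
noncomputable def cx (g : Fld n) (x q : E n) : ℝ :=
  |(dlg g x q).det * ⟪q, tv g x q⟫_ℝ| * (|⟪x, lg g x q⟫_ℝ| / nm g x (lg g x q) ^ n *
    (gram (g x)).det)

theorem cx_nonneg (hg : IsMetric g) (x q : E n) : 0 ≤ cx g x q := by
  unfold cx
  have h1 := (hg.det_pos x).le
  have h2 := nm_nonneg (g := g) x (lg g x q)
  positivity

theorem cx_pos (hg : IsSimple g) {x q : E n} (hx : x ∈ bdM n) (hq : q ∈ bdM n) (hxq : x ≠ q) :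
    0 < cx g x q := by
  have hxM := bd_sub hx
  have hqM := bd_sub hq
  unfold cx
  have h1 := hg.toIsMetric.det_pos x
  have h2 := nm_pos hg.toIsMetric (x := x) (hg.lg_ne_zero hxM hqM hxq)
  have h3 := det_dlg_ne hg hxM hqM
  have h4 := inner_tv_pos hg hxM hq hxq
  have h5 := inner_lg_neg hg hx hqM hxq
  have h6 : 0 < |(dlg g x q).det * ⟪q, tv g x q⟫_ℝ| := abs_pos.2 (mul_ne_zero h3 h4.ne')
  have h7 : 0 < |⟪x, lg g x q⟫_ℝ| := abs_pos.2 h5.ne
  positivity

theorem lintegral_kz (hg : IsSimple g) {x : E n} (hx : x ∈ bdM n) (f : E n → ℝ≥0∞) :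
    ∫⁻ z in ball (0 : E n) 1, ENNReal.ofReal (kz g x z) * f z =
      ∫⁻ X in pbx x, ENNReal.ofReal (‖X‖ / ‖X‖ ^ n * cx g x (rad X)) * f (ex g x (pol g x X)) := by
  have hxM := bd_sub hx
  have hm := hg.toIsMetric
  have h1 := lintegral_pbx hg hx (fun v => ENNReal.ofReal (|⟪x, v⟫_ℝ| / nm g x v ^ n *
    (gram (g x)).det) * f (ex g x v))
  have e1 : ∫⁻ z in ball (0 : E n) 1, ENNReal.ofReal (kz g x z) * f z =
      ∫⁻ z in ball (0 : E n) 1, ENNReal.ofReal |(dlg g x z).det| *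
        (ENNReal.ofReal (|⟪x, lg g x z⟫_ℝ| / nm g x (lg g x z) ^ n *
          (gram (g x)).det) * f (ex g x (lg g x z))) := by
    refine setLIntegral_congr_fun isOpen_ball.measurableSet (fun z hz => ?_)
    have hzM : z ∈ M n := ball_subset_closedBall hz
    rw [kz_eq hg hxM hzM (ne_of_ball hz hx).symm, hg.ex_lg hxM hzM, ← mul_assoc,
      ← ENNReal.ofReal_mul (abs_nonneg _)]
    congr 2
    ring
  rw [e1, h1]
  refine setLIntegral_congr_fun (isOpen_pbx x).measurableSet (fun X hX => ?_)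
  obtain ⟨⟨hX0, hX1⟩, hX2⟩ := hX
  have hpos : 0 < ‖X‖ := norm_pos_iff.2 hX0
  rw [det_fderiv_pol hg hxM hX0, ← mul_assoc, ← ENNReal.ofReal_mul (abs_nonneg _)]
  congr 2
  unfold cx pol
  rw [nm_smul hm, inner_smul_right, abs_of_pos hpos, abs_mul ‖X‖, abs_of_pos hpos, mul_pow]
  have hN := nm_pos hm (x := x) (lgrad_ne hg hxM hX0 (Ne.symm hX2))
  field_simp

end Pool.Agent.V5helper78.BR
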