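import Pool.Agent.V5helper78.BR.Pc

/-!
# Comparison with the definitions used in the statements
-/

set_option autoImplicit false
set_option maxSynthPendingDepth 3

namespace Pool.Agent.V5helper78.BR

open Set Metric Filter Topology MeasureTheory
open scoped ContDiff InnerProductSpace BigOperators ENNReal
open Pool.Agent.Q176.BR
open Pool.Agent.V5helper78 Pool.Agent.Q176

variable {n : ℕ} {g g' : E n → E n → E n → ℝ}

theorem gm_eq (hg : SM.IsMetric g) (x : E n) : ML.gm g x = gram (clm g x) := by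
  ext i j
  unfold ML.gm
  rw [Matrix.of_apply, gram_apply, clm_apply hg]
  rfl

theorem dens_eq (hg : SM.IsMetric g) (x : E n) : ML.dens g x = √(gram (clm g x)).det := by
  unfold ML.dens
  rw [gm_eq hg]

theorem mean_eq (hg : SM.IsMetric g) (hg' : SM.IsMetric g') (x : E n) :
    ML.mean g g' x = mn (clm g) (clm g') x := by
  unfold ML.mean mn di nm
  simp only [clm_apply hg, clm_apply hg']

theorem result_mean (hn : 2 ≤ n) (hg : SM.IsSimple g) (hg' : SM.IsMetric g')
    (hd : ∀ x ∈ bdM n, ∀ y ∈ bdM n, SM.rdist g x y ≤ SM.rdist g' x y) :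
    ML.vol g ≤ ∫ x in M n, ML.mean g g' x * ML.dens g x ∧
      (SM.IsSimple g' → ∫ x in M n, ML.mean g g' x * ML.dens g x ≤ ML.vol g →
        ∀ x ∈ M n, g' x = g x) := by
  have hm := hg.toIsMetric
  have hd' : ∀ x ∈ bdM n, ∀ y ∈ bdM n, rdist (clm g) x y ≤ rdist (clm g') x y := by
    intro x hx y hy
    rw [clm_rdist hm, clm_rdist hg']
    exact hd x hx y hy
  unfold ML.vol
  simp only [dens_eq hm, mean_eq hm hg']
  refine ⟨mean_ineq hn (clm_simple hg) (clm_metric hg') hd', fun hs h x hx => ?_⟩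
  have h1 := mean_rigid hn (clm_simple hg) (clm_simple hs) hd' h x hx
  funext v w
  rw [← clm_apply hm, ← clm_apply hg', h1]

theorem result_cone (hn : 2 ≤ n) (hg : SM.IsSimple g) (hg' : SM.IsSimple g')
    (hd : ∀ x ∈ bdM n, ∀ y ∈ bdM n, SM.rdist g x y = SM.rdist g' x y)
    (h : ∀ x ∈ M n, ML.PartConf g g' x ∨
      ML.mean g g' x ≤ 1 + (ML.dens g' x / ML.dens g x - 1) / n) :
    ∀ x ∈ M n, g' x = g x := by
  have hm := hg.toIsMetric
  have hm' := hg'.toIsMetric
  intro x hx
  have h1 := cone_rigid hn (clm_simple hg) (clm_simple hg') (fun x hx y hy => by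
    rw [clm_rdist hm, clm_rdist hm']
    exact hd x hx y hy) (fun z hz => ?_) x hx
  · funext v w
    rw [← clm_apply hm, ← clm_apply hm', h1]
  · rcases h z hz with ⟨k, s, e, hk, hs, he, h2⟩ | h2
    · refine pc_le hn (clm_metric hm) (clm_metric hm') hz hk hs (e := e) (fun i j => ?_)
        (fun v w => ?_)
      · rw [clm_apply hm]
        exact he i j
      · simp only [clm_apply hm, clm_apply hm']
        exact h2 v w
    · rw [mean_eq hm hm', dens_eq hm, dens_eq hm'] at h2
      exact h2

end Pool.Agent.V5helper78.BR
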