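import Pool.Agent.V5helper78.BR.Eqc

/-!
# Geodesics of `g` which are minimizing for `g'`
-/

set_option autoImplicit false
set_option maxSynthPendingDepth 3

namespace Pool.Agent.V5helper78.BR

open Set Metric Filter Topology MeasureTheory
open scoped ContDiff InnerProductSpace BigOperators
open Pool.Agent.Q176.BR

variable {n : ℕ} {g g' : Fld n}

/-- The case of equality in the inequality of Cauchy and Schwarz. -/
theorem cs_eq (hg : IsMetric g) {x a b : E n} (ha : a ≠ 0)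
    (h : g x a b = nm g x a * nm g x b) : b = (g x a b / g x a a) • a := by
  have ha' := hg.pos x a ha
  have h1 : g x (b - (g x a b / g x a a) • a) (b - (g x a b / g x a a) • a) = 0 := by
    simp only [map_sub, map_smul, sub_apply, smul_apply, smul_eq_mul]
    rw [hg.symm x b a]
    have h2 : g x a b ^ 2 = g x a a * g x b b := by
      rw [h, mul_pow, nm_sq hg, nm_sq hg]
    field_simp
    linear_combination -h2
  have h3 := hg.eq_zero h1
  exact sub_eq_zero.1 h3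

/-- The geodesics from `x` are the integral curves of the terminal velocities. -/
theorem tv_field (hg : IsSimple g) {x y : E n} (hx : x ∈ M n) (hy : y ∈ ball (0 : E n) 1) :
    fderiv ℝ (tv g x) y (tv g x y) = tv g x y - chr g y (tv g x y) (tv g x y) := by
  have h1 : IsAcc g y (tv g x y) (fderiv ℝ (tv g x) y (tv g x y) - tv g x y) := by
    intro b
    have h2 := eik1 hg hx hy b
    rw [mom_fderiv hg hx hy] at h2
    unfold mom at h2
    simp only [map_sub, sub_apply]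
    linarith
  rw [hg.toIsMetric.isAcc_iff] at h1
  rw [sub_eq_add_neg, ← h1]
  abel

theorem hasDerivAt_nm (hg : IsSimple g) {x : E n} (hx : x ∈ M n) {γ : ℝ → E n} {v : E n} {t : ℝ}
    (ht : γ t ∈ ball (0 : E n) 1) (hne : x ≠ γ t) (h : HasDerivAt γ v t) :
    HasDerivAt (fun s => nm g x (lg g x (γ s)))
      (g (γ t) (tv g x (γ t)) v / nm g x (lg g x (γ t))) t := by
  have htM : γ t ∈ M n := ball_subset_closedBall ht
  have h1 : HasDerivAt (fun s => lg g x (γ s)) (dlg g x (γ t) v) t :=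
    HasFDerivAt.comp_hasDerivAt (f := γ) t ((hg.hasFDeriv hx htM).hasFDerivAt (M_nhds ht)) h
  have h2 : HasDerivAt (fun s => g x (lg g x (γ s))) (g x (dlg g x (γ t) v)) t :=
    HasFDerivAt.comp_hasDerivAt (f := fun s => lg g x (γ s)) t (g x).hasFDerivAt h1
  have h3 := h2.clm_apply h1
  have h0 := hg.toIsMetric.pos x _ (hg.lg_ne_zero hx htM hne)
  have h4 := h3.sqrt h0.ne'
  refine h4.congr_deriv ?_
  unfold nm
  rw [hg.gauss hx htM, hg.symm x (dlg g x (γ t) v)]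
  have : √(g x (lg g x (γ t)) (lg g x (γ t))) ≠ 0 := (Real.sqrt_pos.2 h0).ne'
  field_simp
  ring

/-- If the geodesic `γ` of `g` from `x` is minimizing for `g'`, then its velocity is proportional
to the one of the geodesics of `g'` from `x`. -/
theorem prop_vel (hg : IsSimple g) (hg' : IsSimple g') {γ u : ℝ → E n} (h : IsGeod g γ u)
    (hne : γ 0 ≠ γ 1) (hl : lf g g' (γ 0) (γ 1) = nm g' (γ 0) (lg g' (γ 0) (γ 1))) {t : ℝ}
    (ht : t ∈ Ioc (0 : ℝ) 1) :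
    g' (γ t) (tv g' (γ 0) (γ t)) (u t) =
      nm g' (γ t) (tv g' (γ 0) (γ t)) * nm g' (γ t) (u t) := by
  have hx : γ 0 ∈ M n := h.mem 0 ⟨le_rfl, zero_le_one⟩
  have hy : γ 1 ∈ M n := h.mem 1 ⟨zero_le_one, le_rfl⟩
  have hm' := hg'.toIsMetric
  have hu0 : u 0 ≠ 0 := by
    have h1 := h.lg_eq hg (t := 1) ⟨zero_le_one, le_rfl⟩
    rw [one_smul] at h1
    rw [← h1]
    exact hg.lg_ne_zero hx hy hne
  have hin : ∀ s ∈ Ioo (0 : ℝ) 1, γ s ∈ ball (0 : E n) 1 := fun s hs =>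
    mem_ball_zero_iff.2 (h.inner_mem hg hu0 hs)
  have hxγ : ∀ s ∈ Ioc (0 : ℝ) 1, γ 0 ≠ γ s := by
    intro s hs hs2
    have h1 := h.lg_eq hg (t := s) ⟨hs.1.le, hs.2⟩
    rw [← hs2, hg.lg_self hx] at h1
    exact smul_ne_zero hs.1.ne' hu0 h1.symm
  -- the speed
  set ρ : ℝ → ℝ := fun s => nm g' (γ s) (u s) with hρ
  have hρc : ContinuousOn ρ (Icc 0 1) := by
    have c5 : ContinuousOn (fun r => g' (γ r)) (Icc 0 1) :=
      hg'.smooth.continuous.comp_continuousOn h.cont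
    exact ((c5.clm_apply h.contU).clm_apply h.contU).sqrt
  set ρ' : ℝ → ℝ := IccExtend zero_le_one ((Icc (0 : ℝ) 1).domRestrict ρ) with hρ'
  have hρ'c : Continuous ρ' := (continuousOn_iff_continuous_domRestrict.1 hρc).Icc_extend'
  have hρe : ∀ s ∈ Icc (0 : ℝ) 1, ρ' s = ρ s := fun s hs => by
    rw [hρ', IccExtend_of_mem _ _ hs]
    rfl
  -- the distance from `x`
  set φ : ℝ → ℝ := fun s => nm g' (γ 0) (lg g' (γ 0) (γ s)) with hφ
  have hφc : ContinuousOn φ (Icc 0 1) :=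
    (continuousOn_nm_lg hg' hx).comp h.cont (fun s hs => h.mem s hs)
  have hvel : ∀ s ∈ Ioo (0 : ℝ) 1, HasDerivAt γ (u s) s := fun s hs =>
    (h.vel s ⟨hs.1.le, hs.2.le⟩).hasDerivAt (Icc_mem_nhds hs.1 hs.2)
  have hφd : ∀ s ∈ Ioo (0 : ℝ) 1, HasDerivAt φ
      (g' (γ s) (tv g' (γ 0) (γ s)) (u s) / φ s) s := fun s hs =>
    hasDerivAt_nm hg' hx (hin s hs) (hxγ s ⟨hs.1, hs.2.le⟩) (hvel s hs)
  have hφpos : ∀ s ∈ Ioc (0 : ℝ) 1, 0 < φ s := fun s hs =>
    nm_pos hm' (hg'.lg_ne_zero hx (h.mem s ⟨hs.1.le, hs.2⟩) (hxγ s hs))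
  have hnt : ∀ s ∈ Icc (0 : ℝ) 1, nm g' (γ s) (tv g' (γ 0) (γ s)) = φ s := fun s hs =>
    nm_tv hg' hx (h.mem s hs)
  set F : ℝ → ℝ := fun s => (∫ r in (0 : ℝ)..s, ρ' r) - φ s with hF
  have hFd : ∀ s ∈ Ioo (0 : ℝ) 1, HasDerivAt F
      (ρ' s - g' (γ s) (tv g' (γ 0) (γ s)) (u s) / φ s) s := fun s hs =>
    (hρ'c.integral_hasStrictDerivAt 0 s).hasDerivAt.sub (hφd s hs)
  have hFc : ContinuousOn F (Icc 0 1) :=
    (intervalIntegral.continuous_primitive (fun a b => hρ'c.intervalIntegrable a b)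
      0).continuousOn.sub hφc
  have hcs : ∀ s ∈ Icc (0 : ℝ) 1, g' (γ s) (tv g' (γ 0) (γ s)) (u s) ≤ φ s * ρ s := by
    intro s hs
    rw [← hnt s hs]
    exact hm'.cauchy _ _ _
  have hFm : MonotoneOn F (Icc 0 1) := by
    refine monotoneOn_of_deriv_nonneg (convex_Icc 0 1) hFc ?_ ?_
    · intro s hs
      rw [interior_Icc] at hs
      exact (hFd s hs).differentiableAt.differentiableWithinAt
    · intro s hs
      rw [interior_Icc] at hs
      have hs' : s ∈ Icc (0 : ℝ) 1 := ⟨hs.1.le, hs.2.le⟩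
      rw [(hFd s hs).deriv, hρe s hs', sub_nonneg, div_le_iff₀ (hφpos s ⟨hs.1, hs.2.le⟩),
        mul_comm]
      exact hcs s hs'
  have hF0 : F 0 = 0 := by
    simp only [hF, hφ, intervalIntegral.integral_same, hg'.lg_self hx]
    simp [nm]
  have hF1 : F 1 = 0 := by
    simp only [hF, hφ]
    rw [← hl, lf_geod hg h, sub_eq_zero]
    refine intervalIntegral.integral_congr (fun s hs => ?_)
    rw [uIcc_of_le zero_le_one] at hs
    exact hρe s hs
  have hFz : ∀ s ∈ Icc (0 : ℝ) 1, F s = 0 := by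
    intro s hs
    have h1 := hFm ⟨le_rfl, zero_le_one⟩ hs hs.1
    have h2 := hFm hs ⟨zero_le_one, le_rfl⟩ hs.2
    rw [hF0] at h1
    rw [hF1] at h2
    exact le_antisymm h2 h1
  -- equality on the open interval
  have hopen : ∀ s ∈ Ioo (0 : ℝ) 1, g' (γ s) (tv g' (γ 0) (γ s)) (u s) = φ s * ρ s := by
    intro s hs
    have h1 : F =ᶠ[𝓝 s] fun _ => 0 := by
      filter_upwards [Icc_mem_nhds hs.1 hs.2] with r hr
      exact hFz r hr
    have h2 := ((hFd s hs).congr_of_eventuallyEq h1.symm).unique (hasDerivAt_const s (0 : ℝ))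
    rw [hρe s ⟨hs.1.le, hs.2.le⟩, sub_eq_zero, eq_div_iff (hφpos s ⟨hs.1, hs.2.le⟩).ne'] at h2
    linarith
  rw [hnt t ⟨ht.1.le, ht.2⟩]
  rcases ht.2.lt_or_eq with h1 | h1
  · exact hopen t ⟨ht.1, h1⟩
  · -- continuity at the end point
    rw [h1]
    have c1 : ContinuousOn (fun s => g' (γ s) (tv g' (γ 0) (γ s)) (u s)) (Icc 0 1) := by
      have c5 : ContinuousOn (fun r => g' (γ r)) (Icc 0 1) :=
        hg'.smooth.continuous.comp_continuousOn h.cont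
      have c6 : ContinuousOn (fun r => tv g' (γ 0) (γ r)) (Icc 0 1) :=
        (continuousOn_tv hg' hx).comp h.cont (fun s hs => h.mem s hs)
      exact (c5.clm_apply c6).clm_apply h.contU
    have c2 := hφc.mul hρc
    have m1 : (1 : ℝ) ∈ Icc (0 : ℝ) 1 := ⟨zero_le_one, le_rfl⟩
    have t1 : Tendsto (fun s => g' (γ s) (tv g' (γ 0) (γ s)) (u s)) (𝓝[Ioo 0 1] 1)
        (𝓝 (g' (γ 1) (tv g' (γ 0) (γ 1)) (u 1))) := (c1 1 m1).mono_left
          (nhdsWithin_mono _ Ioo_subset_Icc_self)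
    have t2 : Tendsto (fun s => φ s * ρ s) (𝓝[Ioo 0 1] 1) (𝓝 (φ 1 * ρ 1)) :=
      (c2 1 m1).mono_left (nhdsWithin_mono _ Ioo_subset_Icc_self)
    have hne : (𝓝[Ioo (0 : ℝ) 1] 1).NeBot := by
      rw [← mem_closure_iff_nhdsWithin_neBot, closure_Ioo zero_ne_one]
      exact m1
    refine tendsto_nhds_unique (t1.congr' ?_) t2
    filter_upwards [self_mem_nhdsWithin] with s hs
    exact hopen s hs

theorem tv_ne (hg : IsSimple g) {x y : E n} (hx : x ∈ M n) (hy : y ∈ M n) (hne : x ≠ y) :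
    tv g x y ≠ 0 := by
  intro h
  have h1 := nm_tv hg hx hy
  rw [h] at h1
  have h2 := nm_pos hg.toIsMetric (x := x) (hg.lg_ne_zero hx hy hne)
  rw [← h1] at h2
  simp [nm] at h2

/-- The factor of proportionality. -/
noncomputable def fac (g' : Fld n) (x z v : E n) : ℝ :=
  g' z (tv g' x z) v / g' z (tv g' x z) (tv g' x z)

theorem fac_vel (hg : IsSimple g) (hg' : IsSimple g') {γ u : ℝ → E n} (h : IsGeod g γ u)
    (hne : γ 0 ≠ γ 1) (hl : lf g g' (γ 0) (γ 1) = nm g' (γ 0) (lg g' (γ 0) (γ 1))) {t : ℝ}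
    (ht : t ∈ Ioc (0 : ℝ) 1) : 0 < fac g' (γ 0) (γ t) (u t) ∧
      u t = fac g' (γ 0) (γ t) (u t) • tv g' (γ 0) (γ t) := by
  have hx : γ 0 ∈ M n := h.mem 0 ⟨le_rfl, zero_le_one⟩
  have hy : γ 1 ∈ M n := h.mem 1 ⟨zero_le_one, le_rfl⟩
  have hti : t ∈ Icc (0 : ℝ) 1 := ⟨ht.1.le, ht.2⟩
  have hm' := hg'.toIsMetric
  have hu0 : u 0 ≠ 0 := by
    have h1 := h.lg_eq hg (t := 1) ⟨zero_le_one, le_rfl⟩
    rw [one_smul] at h1
    rw [← h1]
    exact hg.lg_ne_zero hx hy hne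
  have hut : u t ≠ 0 := h.ne_zero hg.toIsMetric hu0 hti
  have hxγ : γ 0 ≠ γ t := by
    intro hs2
    have h1 := h.lg_eq hg hti
    rw [← hs2, hg.lg_self hx] at h1
    exact smul_ne_zero ht.1.ne' hu0 h1.symm
  have htv := tv_ne hg' hx (h.mem t hti) hxγ
  have h1 := prop_vel hg hg' h hne hl ht
  refine ⟨?_, cs_eq hm' htv h1⟩
  unfold fac
  rw [h1]
  exact div_pos (mul_pos (nm_pos hm' htv) (nm_pos hm' hut)) (hm'.pos _ _ htv)

/-- The metrics are projectively equivalent along such a geodesic. -/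
theorem dch_vel (hg : IsSimple g) (hg' : IsSimple g') {γ u : ℝ → E n} (h : IsGeod g γ u)
    (hne : γ 0 ≠ γ 1) (hl : lf g g' (γ 0) (γ 1) = nm g' (γ 0) (lg g' (γ 0) (γ 1))) {t : ℝ}
    (ht : t ∈ Ioo (0 : ℝ) 1) : ∃ m : ℝ, dch g g' (γ t) (u t) (u t) = m • u t := by
  have hx : γ 0 ∈ M n := h.mem 0 ⟨le_rfl, zero_le_one⟩
  have hy : γ 1 ∈ M n := h.mem 1 ⟨zero_le_one, le_rfl⟩
  have hti : t ∈ Icc (0 : ℝ) 1 := ⟨ht.1.le, ht.2.le⟩
  have hm' := hg'.toIsMetric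
  have hu0 : u 0 ≠ 0 := by
    have h1 := h.lg_eq hg (t := 1) ⟨zero_le_one, le_rfl⟩
    rw [one_smul] at h1
    rw [← h1]
    exact hg.lg_ne_zero hx hy hne
  have hin : γ t ∈ ball (0 : E n) 1 := mem_ball_zero_iff.2 (h.inner_mem hg hu0 ht)
  have hxγ : γ 0 ≠ γ t := by
    intro hs2
    have h1 := h.lg_eq hg hti
    rw [← hs2, hg.lg_self hx] at h1
    exact smul_ne_zero ht.1.ne' hu0 h1.symm
  have htv := tv_ne hg' hx (h.mem t hti) hxγ
  obtain ⟨a, ha, hacc⟩ := h.acc t hti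
  have hγd : HasDerivAt γ (u t) t := (h.vel t hti).hasDerivAt (Icc_mem_nhds ht.1 ht.2)
  have hud : HasDerivAt u a t := ha.hasDerivAt (Icc_mem_nhds ht.1 ht.2)
  have hXd : HasDerivAt (fun s => tv g' (γ 0) (γ s)) (fderiv ℝ (tv g' (γ 0)) (γ t) (u t)) t :=
    HasFDerivAt.comp_hasDerivAt (f := γ) t (hasFDerivAt_of_inf (tv_at hg' hx hin)) hγd
  have hGd : HasDerivAt (fun s => g' (γ s)) (fderiv ℝ g' (γ t) (u t)) t :=
    HasFDerivAt.comp_hasDerivAt (f := γ) t (hm'.hasFDerivAt (γ t)) hγd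
  have hnum := (hGd.clm_apply hXd).clm_apply hud
  have hden := (hGd.clm_apply hXd).clm_apply hXd
  have hcd : DifferentiableAt ℝ (fun s => fac g' (γ 0) (γ s) (u s)) t :=
    (hnum.div hden (hm'.pos _ _ htv).ne').differentiableAt
  obtain ⟨k, hk⟩ : ∃ k, HasDerivAt (fun s => fac g' (γ 0) (γ s) (u s)) k t :=
    ⟨_, hcd.hasDerivAt⟩
  obtain ⟨hc0, hc1⟩ := fac_vel hg hg' h hne hl ⟨ht.1, ht.2.le⟩
  have h1 := hk.smul hXd
  have h2 : u =ᶠ[𝓝 t] fun s => fac g' (γ 0) (γ s) (u s) • tv g' (γ 0) (γ s) := by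
    filter_upwards [Ioo_mem_nhds ht.1 ht.2] with s hs
    exact (fac_vel hg hg' h hne hl ⟨hs.1, hs.2.le⟩).2
  have h3 := hud.unique (h1.congr_of_eventuallyEq h2)
  rw [(hg.toIsMetric.isAcc_iff _ _ _).1 hacc] at h3
  have h4 := tv_field hg' hx hin
  set c := fac g' (γ 0) (γ t) (u t) with hc
  set X := tv g' (γ 0) (γ t) with hX
  have h5 : fderiv ℝ (tv g' (γ 0)) (γ t) (u t) = c • (X - chr g' (γ t) X X) := by
    rw [hc1, map_smul, h4]
  have h6 : chr g' (γ t) (u t) (u t) = c ^ 2 • chr g' (γ t) X X := by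
    rw [hc1, hm'.chr_smul]
  refine ⟨(c ^ 2 + k) / c, ?_⟩
  unfold dch
  rw [h6]
  have h7 : chr g (γ t) (u t) (u t) = -(c • fderiv ℝ (tv g' (γ 0)) (γ t) (u t) + k • X) := by
    rw [← h3, neg_neg]
  rw [h7, h5]
  have h8 : ((c ^ 2 + k) / c) • u t = (c ^ 2 + k) • X := by
    rw [hc1, smul_smul, div_mul_cancel₀ _ hc0.ne']
  rw [h8]
  module

/-- Every tangent vector at an inner point is tangent to a geodesic between boundary points. -/
theorem through (hg : IsSimple g) {x v : E n} (hx : x ∈ ball (0 : E n) 1) (hv : v ≠ 0) :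
    ∃ γ u : ℝ → E n, IsGeod g γ u ∧ γ 0 ∈ bdM n ∧ γ 1 ∈ bdM n ∧ γ 0 ≠ γ 1 ∧
      ∃ t ∈ Ioo (0 : ℝ) 1, γ t = x ∧ ∃ l : ℝ, v = l • u t := by
  have hxM : x ∈ M n := ball_subset_closedBall hx
  obtain ⟨p, hp, s, hs, hvs⟩ := exists_dir hg hx (neg_ne_zero.2 hv)
  have hpM := bd_sub hp
  have hpx : p ≠ x := (ne_of_ball hx hp).symm
  obtain ⟨q, hq, t, ht, hpq⟩ := exists_exit hg hpM hx hpx
  have hqM := bd_sub hq
  have hne : p ≠ q := by
    rintro rfl
    rw [hg.lg_self hpM, smul_zero] at hpq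
    exact hg.lg_ne_zero hpM hxM hpx hpq
  obtain ⟨γ, u, h, h0, h1, hu0, hu1⟩ := hg.exists_geod hpM hqM
  have hti : t ∈ Icc (0 : ℝ) 1 := ⟨ht.1.le, ht.2.le⟩
  have hγt : γ t = x := by
    have h2 := h.eq_ex hg hti
    rw [h0, hu0, ← hpq, hg.ex_lg hpM hxM] at h2
    exact h2
  refine ⟨γ, u, h, by rwa [h0], by rwa [h1], by rwa [h0, h1], t, ht, hγt, -(-(s * t)), ?_⟩
  have h3 := tv_geod hg h h0 hti
  rw [hγt] at h3
  have h4 := hg.lg_symm hpM hxM
  have h5 : v = -(s • lg g x p) := by rw [← hvs, neg_neg]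
  rw [h5, h4, h3]
  module

end Pool.Agent.V5helper78.BR
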