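import Pool.Agent.V5helper78.BR.Lin

/-!
# Normalised polar coordinates
-/

set_option autoImplicit false
set_option maxSynthPendingDepth 3

namespace Pool.Agent.V5helper78.BR

open Set Metric Filter Topology MeasureTheory
open scoped ContDiff InnerProductSpace BigOperators ENNReal
open Pool.Agent.Q176.BR

variable {n : ℕ} {g : Fld n}

theorem rad_smul {r : ℝ} (hr : 0 < r) (X : E n) : rad (r • X) = rad X := by
  unfold rad
  rw [norm_smul, Real.norm_eq_abs, abs_of_pos hr, mul_inv, smul_smul]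
  congr 1
  field_simp

theorem norm_rad {X : E n} (hX : X ≠ 0) : ‖rad X‖ = 1 := mem_sphere_zero_iff_norm.1 (rad_mem hX)

theorem norm_smul_rad (X : E n) : ‖X‖ • rad X = X := by
  unfold rad
  rcases eq_or_ne X 0 with rfl | h
  · simp
  · rw [smul_smul, mul_inv_cancel₀ (norm_ne_zero_iff.2 h), one_smul]

theorem norm_tv_inner_pos {g : Fld n} (hg : IsSimple g) {z p : E n} (hz : z ∈ M n) (hp : ‖p‖ = 1)
    (hzp : z ≠ p) : 0 < ⟪p, tv g z p⟫_ℝ :=
  inner_tv_pos hg hz (mem_sphere_zero_iff_norm.2 hp) hzp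

theorem lgrad_curve (hg : IsSimple g) {x p : E n} (hx : x ∈ M n) (hp : ‖p‖ = 1) (ξ : E n) :
    HasDerivAt (fun s : ℝ => lg g x (rad (p + s • ξ)))
      (dlg g x p (ξ - ⟪p, ξ⟫_ℝ • p)) 0 := by
  have hpM : p ∈ M n := bd_sub (mem_sphere_zero_iff_norm.2 hp)
  have hne : ∀ᶠ s : ℝ in 𝓝 0, p + s • ξ ≠ 0 := by
    have h1 : ContinuousAt (fun s : ℝ => p + s • ξ) 0 := by fun_prop
    refine h1.eventually_ne ?_
    simpa using bd_ne hp
  have h3 : HasFDerivWithinAt (lg g x) (dlg g x p) (M n)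
      ((fun s : ℝ => rad (p + s • ξ)) 0) := by
    simp only [zero_smul, add_zero, rad_eq hp]
    exact hg.hasFDeriv hx hpM
  have h4 := h3.comp_hasDerivWithinAt (f := fun s : ℝ => rad (p + s • ξ)) (0 : ℝ)
    (rad_curve hp ξ).hasDerivWithinAt (s := {s : ℝ | p + s • ξ ≠ 0})
    (fun s hs => bd_sub (rad_mem hs))
  exact h4.hasDerivAt hne

theorem contDiffAt_lgrad (hg : IsSimple g) {x p : E n} (hx : x ∈ M n) (hp : p ≠ 0) :
    ContDiffAt ℝ ∞ (fun y => lg g x (rad y)) p := by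
  have h2 : ContDiffOn ℝ ∞ (fun y => lg g x (rad y)) {0}ᶜ := by
    refine (hg.contDiffOn_lg hx).comp (fun y hy => ?_) (fun y hy => bd_sub (rad_mem hy))
    exact (contDiffAt_rad hy).contDiffWithinAt
  exact h2.contDiffAt (isOpen_compl_singleton.mem_nhds hp)

/-- The normalised map in polar coordinates. -/
noncomputable def wm (g : Fld n) (z X : E n) : E n :=
  (nm g z (lg g z (rad X)))⁻¹ • pol g z X

theorem lgrad_ne (hg : IsSimple g) {z X : E n} (hz : z ∈ M n) (hX : X ≠ 0)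
    (hzX : z ≠ rad X) : lg g z (rad X) ≠ 0 :=
  hg.lg_ne_zero hz (bd_sub (rad_mem hX)) hzX

theorem ne_of_ball {z q : E n} (hz : z ∈ ball (0 : E n) 1) (hq : q ∈ bdM n) : z ≠ q := by
  rintro rfl
  exact bd_not_ball hq hz

theorem contDiffAt_wm (hg : IsSimple g) {z X : E n} (hz : z ∈ ball (0 : E n) 1) (hX : X ≠ 0) :
    ContDiffAt ℝ ∞ (wm g z) X := by
  have hzM : z ∈ M n := ball_subset_closedBall hz
  have h1 := contDiffAt_lgrad hg hzM hX
  have h2 : ContDiffAt ℝ ∞ (fun y => g z (lg g z (rad y)) (lg g z (rad y))) X :=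
    ((g z).contDiff.contDiffAt.comp X h1).clm_apply h1
  have hne := lgrad_ne hg hzM hX (ne_of_ball hz (rad_mem hX))
  have h3 : ContDiffAt ℝ ∞ (fun y => nm g z (lg g z (rad y))) X :=
    h2.sqrt (hg.pos z _ hne).ne'
  exact (h3.inv (nm_pos hg.toIsMetric hne).ne').smul (contDiffAt_pol hg hzM hX)

theorem wm_curve (hg : IsSimple g) {z p : E n} (hz : z ∈ ball (0 : E n) 1) (hp : ‖p‖ = 1)
    (ξ : E n) : HasDerivAt (fun s : ℝ => wm g z (p + s • ξ))
      ((nm g z (lg g z p))⁻¹ • (⟪p, ξ⟫_ℝ • lg g z p + dlg g z p (ξ - ⟪p, ξ⟫_ℝ • p) -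
        ((nm g z (lg g z p) ^ 2)⁻¹ * g z (lg g z p) (dlg g z p (ξ - ⟪p, ξ⟫_ℝ • p))) •
          lg g z p)) 0 := by
  have hzM : z ∈ M n := ball_subset_closedBall hz
  have hpb : p ∈ bdM n := mem_sphere_zero_iff_norm.2 hp
  have hm := hg.toIsMetric
  have hne : lg g z p ≠ 0 := hg.lg_ne_zero hzM (bd_sub hpb) (ne_of_ball hz hpb)
  have h1 := lgrad_curve hg hzM hp ξ
  have h2 := hasDerivAt_form hm (hasDerivAt_const (0 : ℝ) z) h1 h1
  have h3 := h2.sqrt (by
    simp only [zero_smul, add_zero, rad_eq hp]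
    exact (hm.pos z _ hne).ne')
  have hN := nm_pos hm (x := z) hne
  have h4 := h3.inv (by
    simp only [zero_smul, add_zero, rad_eq hp]
    exact hN.ne')
  have h5 := h4.smul (pol_curve hg hzM hp ξ)
  refine HasDerivAt.congr_deriv h5 ?_
  simp only [Pi.inv_apply, zero_smul, add_zero, rad_eq hp, map_zero, zero_apply, zero_add]
  have h6 : pol g z p = lg g z p := by
    unfold pol
    rw [rad_eq hp, hp, one_smul]
  rw [h6, hm.symm z (dlg g z p (ξ - ⟪p, ξ⟫_ℝ • p)) (lg g z p)]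
  change (nm g z (lg g z p))⁻¹ • (⟪p, ξ⟫_ℝ • lg g z p + dlg g z p (ξ - ⟪p, ξ⟫_ℝ • p)) +
    (-((g z (lg g z p) (dlg g z p (ξ - ⟪p, ξ⟫_ℝ • p)) +
      g z (lg g z p) (dlg g z p (ξ - ⟪p, ξ⟫_ℝ • p))) / (2 * nm g z (lg g z p))) /
        nm g z (lg g z p) ^ 2) • lg g z p = _
  generalize g z (lg g z p) (dlg g z p (ξ - ⟪p, ξ⟫_ℝ • p)) = c
  generalize nm g z (lg g z p) = N at hN
  generalize ⟪p, ξ⟫_ℝ • lg g z p + dlg g z p (ξ - ⟪p, ξ⟫_ℝ • p) = A
  rw [smul_sub, sub_eq_add_neg, smul_smul, ← neg_smul]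
  congr 2
  field_simp
  ring

theorem fderiv_curve {F : E n → E n} {p : E n} (h : DifferentiableAt ℝ F p) (ξ : E n) :
    HasDerivAt (fun s : ℝ => F (p + s • ξ)) (fderiv ℝ F p ξ) 0 := by
  have h4 : HasDerivAt (fun s : ℝ => p + s • ξ) ξ 0 := by
    simpa using ((hasDerivAt_id (0 : ℝ)).smul_const ξ).const_add p
  have h5 : HasFDerivAt F (fderiv ℝ F p) ((fun s : ℝ => p + s • ξ) 0) := by
    simp only [zero_smul, add_zero]
    exact h.hasFDerivAt
  exact HasFDerivAt.comp_hasDerivAt (f := fun s : ℝ => p + s • ξ) (0 : ℝ) h5 h4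

/-- The derivative of a positively homogeneous map. -/
theorem fderiv_homog {F : E n → E n} (hF : ∀ r : ℝ, 0 < r → ∀ y, F (r • y) = r • F y) {p : E n}
    {r : ℝ} (hr : 0 < r) (h1 : DifferentiableAt ℝ F p) (h2 : DifferentiableAt ℝ F (r • p)) :
    fderiv ℝ F (r • p) = fderiv ℝ F p := by
  have h3 : HasFDerivAt (fun y => F (r • y))
      ((fderiv ℝ F (r • p)).comp (r • ContinuousLinearMap.id ℝ (E n))) p := by
    have h4 : HasFDerivAt (fun y : E n => r • y) (r • ContinuousLinearMap.id ℝ (E n)) p :=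
      (hasFDerivAt_id p).const_smul r
    exact HasFDerivAt.comp p h2.hasFDerivAt h4
  have h4 : HasFDerivAt (fun y => F (r • y)) (r • fderiv ℝ F p) p := by
    have h5 := h1.hasFDerivAt.const_smul r
    refine h5.congr_of_eventuallyEq (Eventually.of_forall fun y => ?_)
    exact hF r hr y
  have h5 := h3.unique h4
  ext1 ξ
  have h6 := congrArg (fun L : E n →L[ℝ] E n => L ξ) h5
  simp only [ContinuousLinearMap.comp_apply, smul_apply, ContinuousLinearMap.id_apply,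
    map_smul] at h6
  exact smul_right_injective _ hr.ne' h6

theorem pol_smul {r : ℝ} (hr : 0 < r) (x y : E n) : pol g x (r • y) = r • pol g x y := by
  unfold pol
  rw [rad_smul hr, norm_smul, Real.norm_eq_abs, abs_of_pos hr, smul_smul]

theorem wm_smul {r : ℝ} (hr : 0 < r) (x y : E n) : wm g x (r • y) = r • wm g x y := by
  unfold wm
  rw [rad_smul hr, pol_smul hr, smul_comm]

theorem det_fderiv_wm_unit (hg : IsSimple g) {z p : E n} (hz : z ∈ ball (0 : E n) 1)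
    (hp : ‖p‖ = 1) : (fderiv ℝ (wm g z) p).det =
      (nm g z (lg g z p))⁻¹ ^ n * ((dlg g z p).det * ⟪p, tv g z p⟫_ℝ) := by
  have hzM : z ∈ M n := ball_subset_closedBall hz
  have hpb : p ∈ bdM n := mem_sphere_zero_iff_norm.2 hp
  have hd := (contDiffAt_wm hg hz (bd_ne hp)).differentiableAt (by simp)
  refine det_npol hp (f := lg g z p) (hg.dlg_ilg hzM (bd_sub hpb) _)
    (χ := (nm g z (lg g z p) ^ 2)⁻¹ • (g z (lg g z p)).comp ((dlg g z p).comp
      (ContinuousLinearMap.id ℝ (E n) - (innerSL ℝ p).smulRight p))) ?_ ?_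
  · simp [hp]
  · intro ξ
    rw [(fderiv_curve hd ξ).unique (wm_curve hg hz hp ξ)]
    simp

theorem det_fderiv_wm (hg : IsSimple g) {z X : E n} (hz : z ∈ ball (0 : E n) 1)
    (hX : X ≠ 0) : (fderiv ℝ (wm g z) X).det =
      (nm g z (lg g z (rad X)))⁻¹ ^ n * ((dlg g z (rad X)).det * ⟪rad X, tv g z (rad X)⟫_ℝ) := by
  have h1 : fderiv ℝ (wm g z) X = fderiv ℝ (wm g z) (rad X) := by
    have hpos : 0 < ‖X‖ := norm_pos_iff.2 hX
    have h2 := fderiv_homog (F := wm g z) (fun r hr y => wm_smul hr z y) hpos (p := rad X)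
      ((contDiffAt_wm hg hz (bd_ne (norm_rad hX))).differentiableAt (by simp))
      (by rw [norm_smul_rad]
          exact (contDiffAt_wm hg hz hX).differentiableAt (by simp))
    rwa [norm_smul_rad] at h2
  rw [h1, det_fderiv_wm_unit hg hz (norm_rad hX)]

/-- The punctured unit ball. -/
def pball (n : ℕ) : Set (E n) := {X | X ≠ 0 ∧ ‖X‖ < 1}

theorem isOpen_pball : IsOpen (pball n) :=
  isOpen_ne.inter (isOpen_lt continuous_norm continuous_const)

theorem nm_wm (hg : IsSimple g) {z X : E n} (hz : z ∈ ball (0 : E n) 1) (hX : X ≠ 0) :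
    nm g z (wm g z X) = ‖X‖ := by
  have hne := lgrad_ne hg (ball_subset_closedBall hz) hX (ne_of_ball hz (rad_mem hX))
  have hN := nm_pos hg.toIsMetric (x := z) hne
  unfold wm pol
  rw [nm_smul hg.toIsMetric, nm_smul hg.toIsMetric, abs_of_pos (inv_pos.2 hN),
    abs_of_nonneg (norm_nonneg X)]
  field_simp

/-- Every direction at an inner point points to a boundary point. -/
theorem exists_dir (hg : IsSimple g) {z v : E n} (hz : z ∈ ball (0 : E n) 1) (hv : v ≠ 0) :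
    ∃ q ∈ bdM n, ∃ t : ℝ, 0 < t ∧ v = t • lg g z q := by
  have hzM : z ∈ M n := ball_subset_closedBall hz
  have h1 : (0 : E n) ∈ lg g z '' ball 0 1 := ⟨z, hz, hg.lg_self hzM⟩
  obtain ⟨δ, hδ, h2⟩ := exists_seg ((hg.isOpen_lg hzM).mem_nhds h1) v
  obtain ⟨y, hy, hyv⟩ := h2 δ (by rw [abs_of_pos hδ])
  rw [zero_add] at hyv
  have hzy : z ≠ y := by
    rintro rfl
    rw [hg.lg_self hzM] at hyv
    exact (smul_ne_zero hδ.ne' hv) hyv.symm
  obtain ⟨q, hq, t, ht, h3⟩ := exists_exit hg hzM hy hzy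
  refine ⟨q, hq, t / δ, div_pos ht.1 hδ, ?_⟩
  rw [div_eq_inv_mul, ← smul_smul, ← h3, hyv, smul_smul, inv_mul_cancel₀ hδ.ne', one_smul]

theorem wm_image (hg : IsSimple g) {z : E n} (hz : z ∈ ball (0 : E n) 1) :
    wm g z '' pball n = {v | v ≠ 0 ∧ nm g z v < 1} := by
  have hzM : z ∈ M n := ball_subset_closedBall hz
  have hm := hg.toIsMetric
  ext v
  constructor
  · rintro ⟨X, ⟨hX0, hX1⟩, rfl⟩
    have h1 := nm_wm hg hz hX0
    refine ⟨?_, by rwa [h1]⟩
    intro h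
    rw [h] at h1
    have h2 : nm g z 0 = 0 := by simp [nm]
    rw [h2] at h1
    exact hX0 (norm_eq_zero.1 h1.symm)
  · rintro ⟨hv, hv1⟩
    obtain ⟨q, hq, t, ht, h1⟩ := exists_dir hg hz hv
    have hq1 : ‖q‖ = 1 := mem_sphere_zero_iff_norm.1 hq
    have hne : lg g z q ≠ 0 := hg.lg_ne_zero hzM (bd_sub hq) (ne_of_ball hz hq)
    have hN := nm_pos hm (x := z) hne
    have hpos := nm_pos hm (x := z) hv
    have hX0 : nm g z v • q ≠ 0 := smul_ne_zero hpos.ne' (bd_ne hq1)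
    refine ⟨nm g z v • q, ⟨hX0, ?_⟩, ?_⟩
    · rw [norm_smul, hq1, mul_one, Real.norm_eq_abs, abs_of_pos hpos]
      exact hv1
    · have h2 : wm g z q = (nm g z (lg g z q))⁻¹ • lg g z q := by
        unfold wm pol
        rw [rad_eq hq1, hq1, one_smul]
      rw [wm_smul hpos, h2, h1, nm_smul hm, abs_of_pos ht, smul_smul]
      congr 1
      field_simp

theorem wm_injOn (hg : IsSimple g) {z : E n} (hz : z ∈ ball (0 : E n) 1) :
    InjOn (wm g z) (pball n) := by
  have hzM : z ∈ M n := ball_subset_closedBall hz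
  have hm := hg.toIsMetric
  rintro X ⟨hX, -⟩ Y ⟨hY, -⟩ h
  have hn : ‖X‖ = ‖Y‖ := by rw [← nm_wm hg hz hX, ← nm_wm hg hz hY, h]
  have hpX : 0 < ‖X‖ := norm_pos_iff.2 hX
  have hNX := nm_pos hm (x := z) (lgrad_ne hg hzM hX (ne_of_ball hz (rad_mem hX)))
  have hNY := nm_pos hm (x := z) (lgrad_ne hg hzM hY (ne_of_ball hz (rad_mem hY)))
  unfold wm pol at h
  rw [← hn, smul_comm, smul_comm _ ‖X‖] at h
  have h1 := smul_right_injective _ hpX.ne' h
  have h2 : lg g z (rad X) = (nm g z (lg g z (rad X)) * (nm g z (lg g z (rad Y)))⁻¹) •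
      lg g z (rad Y) := by
    rw [← smul_smul]
    rw [← h1, smul_smul, mul_inv_cancel₀ hNX.ne', one_smul]
  have h3 := (exit_unique hg hzM (rad_mem hX) (rad_mem hY) (ne_of_ball hz (rad_mem hX))
    (ne_of_ball hz (rad_mem hY)) (mul_pos hNX (inv_pos.2 hNY)) h2).2
  rw [← norm_smul_rad X, ← norm_smul_rad Y, h3, hn]

/-- The integral over the unit ball of the metric, in normalised polar coordinates. -/
theorem lintegral_disc (hg : IsSimple g) {z : E n} (hz : z ∈ ball (0 : E n) 1)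
    (F : E n → ℝ≥0∞) : ∫⁻ v in {v | v ≠ 0 ∧ nm g z v < 1}, F v =
      ∫⁻ X in pball n, ENNReal.ofReal |(fderiv ℝ (wm g z) X).det| * F (wm g z X) := by
  rw [← wm_image hg hz]
  exact lintegral_image_eq_lintegral_abs_det_fderiv_mul volume isOpen_pball.measurableSet
    (fun X hX => (((contDiffAt_wm hg hz hX.1).differentiableAt
      (by simp)).hasFDerivAt).hasFDerivWithinAt) (wm_injOn hg hz) F

theorem abs_det_wm (hg : IsSimple g) {z X : E n} (hz : z ∈ ball (0 : E n) 1)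
    (hX : X ≠ 0) : |(fderiv ℝ (wm g z) X).det| * (gram (g z)).det = kz g (rad X) z := by
  have hne := lgrad_ne hg (ball_subset_closedBall hz) hX (ne_of_ball hz (rad_mem hX))
  have hN := nm_pos hg.toIsMetric (x := z) hne
  rw [det_fderiv_wm hg hz hX, abs_mul, abs_mul, abs_of_pos (pow_pos (inv_pos.2 hN) n)]
  unfold kz
  rw [inv_pow]
  field_simp

end Pool.Agent.V5helper78.BR
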