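import Pool.Agent.V5helper78.BR.Rig

/-!
# Integrals over the unit disc of a form
-/

set_option autoImplicit false
set_option maxSynthPendingDepth 3

namespace Pool.Agent.V5helper78.BR

open Set Metric Filter Topology MeasureTheory
open scoped ContDiff InnerProductSpace BigOperators ENNReal MatrixOrder
open Pool.Agent.Q176.BR

variable {n : ℕ} {g g' : Fld n}

/-- A linear map with given matrix. -/
noncomputable def ofm (B : Matrix (Fin n) (Fin n) ℝ) : E n →L[ℝ] E n :=
  ∑ i, (EuclideanSpace.proj i : E n →L[ℝ] ℝ).smulRight (WithLp.toLp 2 (fun k => B k i))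

theorem ofm_bs (B : Matrix (Fin n) (Fin n) ℝ) (i : Fin n) :
    ofm B (bs i) = WithLp.toLp 2 (fun k => B k i) := by
  unfold ofm
  simp only [sum_apply, ContinuousLinearMap.smulRight_apply]
  rw [Finset.sum_eq_single i]
  · simp [bs]
  · intro j _ hj
    simp [bs, hj]
  · simp

theorem mtx_ofm (B : Matrix (Fin n) (Fin n) ℝ) : mtx (ofm B) = B := by
  ext i j
  unfold mtx
  rw [Matrix.of_apply, ofm_bs]

/-- The forms are determined by the Gram matrices. -/
theorem form_ext {a b : E n →L[ℝ] E n →L[ℝ] ℝ} (h : ∀ i j, a (bs i) (bs j) = b (bs i) (bs j))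
    (v w : E n) : a v w = b v w := by
  rw [form_eq_gram, form_eq_gram]
  refine Finset.sum_congr rfl (fun i _ => Finset.sum_congr rfl (fun j _ => ?_))
  rw [gram_apply, gram_apply, h]

/-- The form `⟪B v, B w⟫`. -/
theorem exists_root (hg : IsMetric g) (z : E n) : ∃ B : E n →L[ℝ] E n,
    (∀ v w, g z v w = ⟪B v, B w⟫_ℝ) ∧ (gram (g z)).det = B.det ^ 2 ∧
      gram (g z) = (mtx B).transpose * mtx B := by
  obtain ⟨B, hB⟩ := CStarAlgebra.nonneg_iff_eq_star_mul_self.mp (hg.posDef z).posSemidef.nonneg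
  have hB' : gram (g z) = B.transpose * B := by
    rw [hB]
    congr 1
  refine ⟨ofm B, fun v w => ?_, ?_, ?_⟩
  · have h1 := form_ext (a := g z)
      (b := ((innerSL ℝ : E n →L[ℝ] E n →L[ℝ] ℝ).bilinearComp (ofm B) (ofm B))) (fun i j => ?_) v w
    · rw [h1]
      rfl
    · have h2 : gram (g z) i j = (B.transpose * B) i j := by rw [hB']
      rw [gram_apply] at h2
      rw [h2, Matrix.mul_apply]
      change _ = ⟪ofm B (bs i), ofm B (bs j)⟫_ℝ
      rw [ofm_bs, ofm_bs, PiLp.inner_apply]
      refine Finset.sum_congr rfl (fun k _ => ?_)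
      simp [Matrix.transpose_apply, mul_comm]
  · rw [← det_mtx, mtx_ofm, hB', Matrix.det_mul, Matrix.det_transpose, pow_two]
  · rw [mtx_ofm, hB']

theorem lintegral_lin {B : E n →L[ℝ] E n} (hB : B.det ≠ 0) (f : E n → ℝ≥0∞) :
    ∫⁻ v, f (B v) = ENNReal.ofReal |B.det⁻¹| * ∫⁻ w, f w := by
  have hB' : LinearMap.det (B : E n →ₗ[ℝ] E n) ≠ 0 := hB
  set e := ((B : E n →ₗ[ℝ] E n).equivOfDetNeZero hB').toContinuousLinearEquiv with he
  have h1 := Measure.map_linearMap_addHaar_eq_smul_addHaar (volume : Measure (E n)) hB'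
  have h2 : MeasurableEmbedding (B : E n → E n) := e.toHomeomorph.measurableEmbedding
  rw [← h2.lintegral_map f]
  change ∫⁻ a, f a ∂(Measure.map (B : E n →ₗ[ℝ] E n) volume) = _
  rw [h1, lintegral_smul_measure]
  rfl

/-- The integral of a homogeneous function over the unit disc of the metric. -/
theorem disc_lin (hg : IsMetric g) {z : E n} {B : E n →L[ℝ] E n}
    (h1 : ∀ v w, g z v w = ⟪B v, B w⟫_ℝ) (h2 : (gram (g z)).det = B.det ^ 2) {F G : E n → ℝ}
    (hF : ∀ v, F v = G (B v)) :
    ∫⁻ v in {v | v ≠ 0 ∧ nm g z v < 1}, ENNReal.ofReal (F v * (gram (g z)).det) =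
      ENNReal.ofReal √(gram (g z)).det * ∫⁻ w in pball n, ENNReal.ofReal (G w) := by
  have hpos := hg.det_pos z
  have hB : B.det ≠ 0 := by
    intro h
    rw [h2, h] at hpos
    simp at hpos
  have hnm : ∀ v, nm g z v = ‖B v‖ := fun v => by
    unfold nm
    rw [h1, real_inner_self_eq_norm_sq, Real.sqrt_sq (norm_nonneg _)]
  have hBz : ∀ v, B v = 0 ↔ v = 0 := by
    intro v
    constructor
    · intro h
      by_contra hv
      have h3 := hg.pos z v hv
      rw [h1, h, inner_zero_left] at h3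
      exact lt_irrefl _ h3
    · rintro rfl
      exact map_zero B
  have hset : {v | v ≠ 0 ∧ nm g z v < 1} = B ⁻¹' pball n := by
    ext v
    simp only [pball, mem_ofPred_eq, mem_preimage, hnm, ne_eq, hBz]
  have hmeas : MeasurableSet (B ⁻¹' pball n) :=
    (isOpen_pball.preimage B.continuous).measurableSet
  rw [hset, ← lintegral_indicator hmeas]
  have e1 : ∀ v, (B ⁻¹' pball n).indicator
      (fun v => ENNReal.ofReal (F v * (gram (g z)).det)) v =
      (pball n).indicator (fun w => ENNReal.ofReal (G w * (gram (g z)).det)) (B v) := by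
    intro v
    by_cases hv : B v ∈ pball n
    · rw [indicator_of_mem hv, indicator_of_mem (show v ∈ B ⁻¹' pball n from hv), hF]
    · rw [indicator_of_notMem hv, indicator_of_notMem (show v ∉ B ⁻¹' pball n from hv)]
  rw [lintegral_congr e1, lintegral_lin hB (fun w => (pball n).indicator
    (fun w => ENNReal.ofReal (G w * (gram (g z)).det)) w),
    lintegral_indicator isOpen_pball.measurableSet]
  simp only [fun w => mul_comm (G w) (gram (g z)).det, ENNReal.ofReal_mul hpos.le]
  rw [lintegral_const_mul' _ _ ENNReal.ofReal_ne_top, ← mul_assoc,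
    ← ENNReal.ofReal_mul (abs_nonneg _)]
  congr 2
  have h3 : √(gram (g z)).det = |B.det| := by rw [h2, Real.sqrt_sq_eq_abs]
  rw [h3, abs_inv, h2, ← sq_abs B.det, pow_two]
  field_simp

/-- The integral of the norm over the Euclidean unit ball. -/
noncomputable def cc (n : ℕ) : ℝ≥0∞ := ∫⁻ w in pball n, ENNReal.ofReal ‖w‖

theorem disc_self (hg : IsMetric g) (z : E n) :
    ∫⁻ v in {v | v ≠ 0 ∧ nm g z v < 1}, ENNReal.ofReal (nm g z v * (gram (g z)).det) =
      ENNReal.ofReal √(gram (g z)).det * cc n := by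
  obtain ⟨B, h1, h2, -⟩ := exists_root hg z
  refine disc_lin hg h1 h2 (G := fun w => ‖w‖) (fun v => ?_)
  unfold nm
  rw [h1, real_inner_self_eq_norm_sq, Real.sqrt_sq (norm_nonneg _)]

/-- The volume. -/
noncomputable def vl (g : Fld n) : ℝ≥0∞ := ∫⁻ z in ball (0 : E n) 1, ENNReal.ofReal √(gram (g z)).det

theorem cc_ne_top : cc n ≠ ⊤ := by
  unfold cc
  refine ((setLIntegral_mono measurable_const (g := fun _ => 1) (fun w hw => ?_)).trans_lt ?_).ne
  · rw [ENNReal.ofReal_le_one]
    exact hw.2.le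
  · rw [setLIntegral_const, one_mul]
    exact (measure_mono (fun w hw => mem_ball_zero_iff.2 hw.2)).trans_lt
      (measure_ball_lt_top (x := (0 : E n)) (r := 1))

theorem cc_ne_zero (hn : 2 ≤ n) : cc n ≠ 0 := by
  have := nontriv hn
  unfold cc
  have h1 : (0 : ℝ≥0∞) < ∫⁻ w in pball n, ENNReal.ofReal ‖w‖ := by
    rw [setLIntegral_pos_iff (by fun_prop)]
    have h2 : (Function.support fun w : E n => ENNReal.ofReal ‖w‖) ∩ pball n = pball n := by
      refine inter_eq_right.2 (fun w hw => ?_)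
      rw [Function.mem_support]
      exact (ENNReal.ofReal_pos.2 (norm_pos_iff.2 hw.1)).ne'
    rw [h2]
    refine isOpen_pball.measure_pos _ ?_
    obtain ⟨u, hu⟩ := exists_ne (0 : E n)
    refine ⟨(1 / 2 : ℝ) • rad u, smul_ne_zero (by norm_num) (bd_ne (norm_rad hu)), ?_⟩
    rw [norm_smul, norm_rad hu]
    norm_num
  exact h1.ne'

theorem dl_self (hg : IsMetric g) : dl g g = vl g * cc n := by
  unfold dl vl
  rw [lintegral_congr (fun z => disc_self hg z), lintegral_mul_const' _ _ cc_ne_top]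

end Pool.Agent.V5helper78.BR
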