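import Pool.Agent.V5helper78.BR.Fub

/-!
# The inequality for the mean length, and the case of equality
-/

set_option autoImplicit false
set_option maxSynthPendingDepth 3

namespace Pool.Agent.V5helper78.BR

open Set Metric Filter Topology MeasureTheory
open scoped ContDiff InnerProductSpace BigOperators ENNReal
open Pool.Agent.Q176.BR

variable {n : ℕ} {g g' : Fld n}

theorem continuous_form (hg : IsMetric g) : Continuous (fun p : E n × E n => g p.1 p.2 p.2) := by
  have c1 : Continuous (fun p : E n × E n => g p.1) := hg.smooth.continuous.comp continuous_fst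
  exact (c1.clm_apply continuous_snd).clm_apply continuous_snd

theorem exists_lower (hn : 2 ≤ n) (hg : IsMetric g) :
    ∃ c > 0, ∀ z ∈ M n, ∀ v, c * ‖v‖ ≤ nm g z v := by
  have := nontriv hn
  have hK : IsCompact (M n ×ˢ sphere (0 : E n) 1) := isCompact_M.prod (isCompact_sphere 0 1)
  have hne : (M n ×ˢ sphere (0 : E n) 1).Nonempty :=
    Set.Nonempty.prod ⟨0, mem_closedBall_self zero_le_one⟩
      (NormedSpace.sphere_nonempty.2 zero_le_one)
  obtain ⟨p, hp, hmin⟩ := hK.exists_isMinOn hne (continuous_form hg).continuousOn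
  have hp0 : 0 < g p.1 p.2 p.2 := hg.pos _ _ (bd_ne (mem_sphere_zero_iff_norm.1 hp.2))
  refine ⟨√(g p.1 p.2 p.2), Real.sqrt_pos.2 hp0, fun z hz v => ?_⟩
  rcases eq_or_ne v 0 with rfl | hv
  · simp [nm]
  have hv0 : 0 < ‖v‖ := norm_pos_iff.2 hv
  have h1 : g p.1 p.2 p.2 ≤ g z (rad v) (rad v) := hmin (a := (z, rad v)) ⟨hz, rad_mem hv⟩
  have h2 : nm g z v = ‖v‖ * nm g z (rad v) := by
    conv_lhs => rw [← norm_smul_rad v, nm_smul hg, abs_of_pos hv0]
  rw [h2, mul_comm]
  exact mul_le_mul_of_nonneg_left (Real.sqrt_le_sqrt h1) hv0.le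

theorem continuous_det (hg : IsMetric g) : Continuous (fun x => (gram (g x)).det) := by
  refine Continuous.matrix_det ?_
  refine continuous_matrix (fun i j => ?_)
  exact (hg.smooth.continuous.clm_apply continuous_const).clm_apply continuous_const

theorem exists_det_upper (hg : IsMetric g) : ∃ D, ∀ z ∈ M n, (gram (g z)).det ≤ D := by
  obtain ⟨D, hD⟩ := isCompact_M.exists_bound_of_continuousOn (continuous_det hg).continuousOn
  exact ⟨D, fun z hz => (le_abs_self _).trans (hD z hz)⟩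

theorem dl_self_ne_top (hn : 2 ≤ n) (hg : IsMetric g) : dl g g ≠ ⊤ := by
  obtain ⟨c, hc, h1⟩ := exists_lower hn hg
  obtain ⟨D, hD⟩ := exists_det_upper hg
  have h2 : ∀ z ∈ ball (0 : E n) 1, ∫⁻ v in {v | v ≠ 0 ∧ nm g z v < 1},
      ENNReal.ofReal (nm g z v * (gram (g z)).det) ≤
        ENNReal.ofReal D * volume (closedBall (0 : E n) c⁻¹) := by
    intro z hz
    have hzM : z ∈ M n := ball_subset_closedBall hz
    have h3 : {v | v ≠ 0 ∧ nm g z v < 1} ⊆ closedBall (0 : E n) c⁻¹ := by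
      rintro v ⟨-, hv⟩
      rw [mem_closedBall_zero_iff]
      have h4 := h1 z hzM v
      rw [← one_div, le_div_iff₀ hc]
      linarith
    calc ∫⁻ v in {v | v ≠ 0 ∧ nm g z v < 1}, ENNReal.ofReal (nm g z v * (gram (g z)).det)
        ≤ ∫⁻ v in {v | v ≠ 0 ∧ nm g z v < 1}, ENNReal.ofReal D := by
          refine setLIntegral_mono measurable_const (fun v hv => ENNReal.ofReal_le_ofReal ?_)
          have h5 := hD z hzM
          have h6 := (hg.det_pos z).le
          have h7 := hv.2.le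
          calc nm g z v * (gram (g z)).det ≤ 1 * (gram (g z)).det :=
                mul_le_mul_of_nonneg_right h7 h6
            _ ≤ D := by rw [one_mul]; exact h5
      _ = ENNReal.ofReal D * volume {v | v ≠ 0 ∧ nm g z v < 1} := setLIntegral_const _ _
      _ ≤ ENNReal.ofReal D * volume (closedBall (0 : E n) c⁻¹) := by
          gcongr
  unfold dl
  refine ((setLIntegral_mono measurable_const h2).trans_lt ?_).ne
  rw [setLIntegral_const]
  exact ENNReal.mul_lt_top (ENNReal.mul_lt_top ENNReal.ofReal_lt_top measure_closedBall_lt_top)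
    measure_ball_lt_top

/-- The comparison of the boundary distances. -/
theorem le_lf (hg : IsSimple g) (hd : ∀ x ∈ bdM n, ∀ y ∈ bdM n, rdist g x y ≤ rdist g' x y)
    {q θ : E n} (hq : q ∈ bdM n) (hθ : θ ∈ bdM n) : nm g q (lg g q θ) ≤ lf g g' q θ := by
  rw [← rdist_nm hg (bd_sub hq) (bd_sub hθ)]
  exact (hd q hq θ hθ).trans (rdist_le_lf hg (bd_sub hq) (bd_sub hθ))

theorem one_le_ratio (hg : IsSimple g)
    (hd : ∀ x ∈ bdM n, ∀ y ∈ bdM n, rdist g x y ≤ rdist g' x y)
    {q θ : E n} (hq : q ∈ bdM n) (hθ : θ ∈ bdM n) (hne : q ≠ θ) :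
    1 ≤ lf g g' q θ / nm g q (lg g q θ) := by
  rw [one_le_div (nm_pos hg.toIsMetric (hg.lg_ne_zero (bd_sub hq) (bd_sub hθ) hne))]
  exact le_lf hg hd hq hθ

theorem ratio_self (hg : IsSimple g) {q θ : E n} (hq : q ∈ bdM n) (hθ : θ ∈ bdM n)
    (hne : q ≠ θ) : lf g g q θ / nm g q (lg g q θ) = 1 := by
  rw [lf_self hg (bd_sub hq) (bd_sub hθ)]
  exact div_self (nm_pos hg.toIsMetric (hg.lg_ne_zero (bd_sub hq) (bd_sub hθ) hne)).ne'

theorem ag_integrand_le (hg : IsSimple g)
    (hd : ∀ x ∈ bdM n, ∀ y ∈ bdM n, rdist g x y ≤ rdist g' x y)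
    (q θ : sphere (0 : E n) 1) : ENNReal.ofReal (cx g q θ) *
      ENNReal.ofReal (lf g g q θ / nm g q (lg g q θ)) ≤ ENNReal.ofReal (cx g q θ) *
      ENNReal.ofReal (lf g g' q θ / nm g q (lg g q θ)) := by
  rcases eq_or_ne (q : E n) (θ : E n) with h | h
  · rw [← h, cx_self hg (bd_sub q.2)]
    simp
  · refine mul_le_mul' le_rfl (ENNReal.ofReal_le_ofReal ?_)
    rw [ratio_self hg q.2 θ.2 h]
    exact one_le_ratio hg hd q.2 θ.2 h

theorem ag_mono (hg : IsSimple g) (hd : ∀ x ∈ bdM n, ∀ y ∈ bdM n, rdist g x y ≤ rdist g' x y)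
    (q : sphere (0 : E n) 1) : ag g g q ≤ ag g g' q :=
  lintegral_mono (ag_integrand_le hg hd q)

/-- **The inequality.** -/
theorem dl_mono (hn : 2 ≤ n) (hg : IsSimple g) (hg' : IsMetric g')
    (hd : ∀ x ∈ bdM n, ∀ y ∈ bdM n, rdist g x y ≤ rdist g' x y) : dl g g ≤ dl g g' := by
  rw [santalo hn hg hg.toIsMetric, santalo hn hg hg']
  gcongr with q
  exact ag_mono hg hd q

theorem measurable_ag (hn : 2 ≤ n) (hg : IsSimple g) (hg' : IsMetric g') :
    Measurable (fun q : sphere (0 : E n) 1 => ag g g' q) := by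
  have hmeas := (measurable_kr hg hg').ennreal_ofReal
  have e2 : (fun q : sphere (0 : E n) 1 => ag g g' q) =
      fun q : sphere (0 : E n) 1 => ∫⁻ z : ball (0 : E n) 1,
      ENNReal.ofReal (kr g g' q z) ∂((volume : Measure (E n)).comap (↑)) := by
    funext q
    rw [← ag_eq hn hg hg' q.2, lintegral_subtype_comap isOpen_ball.measurableSet
      (fun z => ENNReal.ofReal (kr g g' q z))]
  rw [e2]
  have : IsFiniteMeasure ((volume : Measure (E n)).comap
      (Subtype.val : ball (0 : E n) 1 → E n)) := by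
    refine ⟨?_⟩
    rw [(MeasurableEmbedding.subtype_coe isOpen_ball.measurableSet).comap_apply, image_univ,
      Subtype.range_coe]
    exact measure_ball_lt_top
  exact hmeas.lintegral_prod_right'

theorem ae_ag (hn : 2 ≤ n) (hg : IsSimple g) (hg' : IsMetric g')
    (hd : ∀ x ∈ bdM n, ∀ y ∈ bdM n, rdist g x y ≤ rdist g' x y) (h : dl g g' ≤ dl g g) :
    ∀ᵐ q : sphere (0 : E n) 1 ∂(volume : Measure (E n)).toSphere,
      ag g g q = ag g g' q ∧ ag g g q < ⊤ := by
  have h1 := dl_self_ne_top hn hg.toIsMetric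
  have h2 : ∫⁻ q : sphere (0 : E n) 1, ag g g q ∂(volume : Measure (E n)).toSphere ≠ ⊤ := by
    intro h3
    rw [santalo hn hg hg.toIsMetric, h3, ENNReal.mul_top cn_ne_zero] at h1
    exact h1 rfl
  have h4 : ∫⁻ q : sphere (0 : E n) 1, ag g g' q ∂(volume : Measure (E n)).toSphere ≤
      ∫⁻ q : sphere (0 : E n) 1, ag g g q ∂(volume : Measure (E n)).toSphere := by
    rw [santalo hn hg hg.toIsMetric, santalo hn hg hg'] at h
    exact (ENNReal.mul_le_mul_iff_right cn_ne_zero cn_ne_top).1 h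
  have h5 := ae_eq_of_ae_le_of_lintegral_le (Eventually.of_forall (ag_mono hg hd)) h2
    (measurable_ag hn hg hg').aemeasurable h4
  filter_upwards [h5, ae_lt_top (measurable_ag hn hg hg.toIsMetric) h2] with q hq1 hq2
  exact ⟨hq1, hq2⟩

theorem measurable_integrand (hg : IsSimple g) (hg' : IsMetric g') (q : sphere (0 : E n) 1) :
    Measurable (fun θ : sphere (0 : E n) 1 => ENNReal.ofReal (cx g q θ) *
      ENNReal.ofReal (lf g g' q θ / nm g q (lg g q θ))) := by
  simp only [← ENNReal.ofReal_mul (cx_nonneg hg.toIsMetric _ _)]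
  refine Measurable.ennreal_ofReal (measurable_of_continuousOn_compl_singleton q ?_)
  have hq := bd_sub q.2
  have h0 : MapsTo (fun θ : sphere (0 : E n) 1 => (θ : E n)) {q}ᶜ (M n \ {(q : E n)}) := by
    intro θ hθ
    exact ⟨bd_sub θ.2, fun h => hθ (Subtype.ext h)⟩
  have c1 : ContinuousOn (fun θ : sphere (0 : E n) 1 => cx g q θ) {q}ᶜ :=
    (continuousOn_cx hg hq).comp continuous_subtype_val.continuousOn h0
  have c2 : ContinuousOn (fun y => lf g g' q y / nm g q (lg g q y)) (M n \ {(q : E n)}) :=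
    ((continuousOn_lf hg hg' hq).mono sdiff_subset).div
      ((continuousOn_nm_lg hg hq).mono sdiff_subset)
      (fun y hy => (nm_pos hg.toIsMetric (hg.lg_ne_zero hq hy.1 (Ne.symm hy.2))).ne')
  exact c1.mul (c2.comp continuous_subtype_val.continuousOn h0)

/-- For almost all `q`, the geodesics from `q` have the same length for both metrics. -/
theorem lf_of_ag (hg : IsSimple g) (hg' : IsMetric g')
    (hd : ∀ x ∈ bdM n, ∀ y ∈ bdM n, rdist g x y ≤ rdist g' x y) {q : sphere (0 : E n) 1}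
    (h1 : ag g g q = ag g g' q) (h2 : ag g g q < ⊤) (θ : sphere (0 : E n) 1) (hθ : q ≠ θ) :
    lf g g' q θ = nm g q (lg g q θ) := by
  have hae := ae_eq_of_ae_le_of_lintegral_le
    (Eventually.of_forall (ag_integrand_le hg hd q)) (ne_of_lt h2)
    (measurable_integrand hg hg' q).aemeasurable h1.symm.le
  by_contra hne
  have hq := bd_sub q.2
  have hN : ∀ η : sphere (0 : E n) 1, q ≠ η → 0 < nm g q (lg g q η) := fun η hη =>
    nm_pos hg.toIsMetric (hg.lg_ne_zero hq (bd_sub η.2) (fun h => hη (Subtype.ext h)))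
  have hlt : nm g q (lg g q θ) < lf g g' q θ :=
    lt_of_le_of_ne (le_lf hg hd q.2 θ.2) (Ne.symm hne)
  have h0 : MapsTo (fun θ : sphere (0 : E n) 1 => (θ : E n)) univ (M n) :=
    fun θ _ => bd_sub θ.2
  have c1 : ContinuousOn (fun η : sphere (0 : E n) 1 => lf g g' q η) univ :=
    (continuousOn_lf hg hg' hq).comp continuous_subtype_val.continuousOn h0
  have c2 : ContinuousOn (fun η : sphere (0 : E n) 1 => nm g q (lg g q η)) univ :=
    (continuousOn_nm_lg hg hq).comp continuous_subtype_val.continuousOn h0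
  rw [continuousOn_univ] at c1 c2
  have hU : IsOpen {η : sphere (0 : E n) 1 | nm g q (lg g q η) < lf g g' q η ∧ η ≠ q} :=
    (isOpen_lt c2 c1).inter isOpen_compl_singleton
  have hpos := hU.measure_pos ((volume : Measure (E n)).toSphere) ⟨θ, hlt, hθ.symm⟩
  refine hpos.ne' (measure_mono_null (fun η hη => ?_) hae)
  obtain ⟨h3, h4⟩ := hη
  intro h5
  have h4' : (q : E n) ≠ η := fun h => h4 (Subtype.ext h).symm
  have h6 := cx_pos hg q.2 η.2 h4'
  simp only [mem_ofPred_eq] at h5
  rw [ratio_self hg q.2 η.2 h4'] at h5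
  have h7 := (ENNReal.mul_right_inj (ENNReal.ofReal_pos.2 h6).ne' ENNReal.ofReal_ne_top).1 h5
  have h8 : 1 < lf g g' q η / nm g q (lg g q η) := by
    rw [one_lt_div (hN η h4.symm)]
    exact h3
  have h9 : ENNReal.ofReal 1 < ENNReal.ofReal (lf g g' q η / nm g q (lg g q η)) :=
    (ENNReal.ofReal_lt_ofReal_iff (zero_lt_one.trans h8)).2 h8
  exact h9.ne h7

/-- **The case of equality.** -/
theorem lf_eq (hn : 2 ≤ n) (hg : IsSimple g) (hg' : IsMetric g')
    (hd : ∀ x ∈ bdM n, ∀ y ∈ bdM n, rdist g x y ≤ rdist g' x y) (h : dl g g' ≤ dl g g)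
    {x y : E n} (hx : x ∈ bdM n) (hy : y ∈ bdM n) (hxy : x ≠ y) :
    lf g g' x y = nm g x (lg g x y) := by
  have hae := ae_ag hn hg hg' hd h
  have hdense := Measure.dense_of_ae hae
  have hyM := bd_sub hy
  have h0 : MapsTo (fun θ : sphere (0 : E n) 1 => (θ : E n)) univ (M n) :=
    fun θ _ => bd_sub θ.2
  have c1 : ContinuousOn (fun η : sphere (0 : E n) 1 => lf g g' y η) univ :=
    (continuousOn_lf hg hg' hyM).comp continuous_subtype_val.continuousOn h0
  have c2 : ContinuousOn (fun η : sphere (0 : E n) 1 => nm g y (lg g y η)) univ :=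
    (continuousOn_nm_lg hg hyM).comp continuous_subtype_val.continuousOn h0
  rw [continuousOn_univ] at c1 c2
  have hcl : IsClosed {η : sphere (0 : E n) 1 | lf g g' y η = nm g y (lg g y η)} :=
    isClosed_eq c1 c2
  have hsub := hdense.open_subset_closure_inter
    (isOpen_compl_singleton (x := (⟨y, hy⟩ : sphere (0 : E n) 1)))
  have hmem : (⟨x, hx⟩ : sphere (0 : E n) 1) ∈
      closure ({(⟨y, hy⟩ : sphere (0 : E n) 1)}ᶜ ∩
        {q | ag g g q = ag g g' q ∧ ag g g q < ⊤}) := by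
    refine hsub (fun h => hxy ?_)
    exact congrArg Subtype.val h
  have hmem2 := closure_minimal (fun q hq => ?_) hcl hmem
  · rw [lf_symm hg (bd_sub hx) hyM, ← nm_lg_symm hg (bd_sub hx) hyM]
    exact hmem2
  · obtain ⟨h1, h2, h3⟩ := hq
    have h4 := lf_of_ag hg hg' hd h2 h3 ⟨y, hy⟩ h1
    rw [mem_ofPred_eq, lf_symm hg hyM (bd_sub q.2), ← nm_lg_symm hg hyM (bd_sub q.2)]
    exact h4

end Pool.Agent.V5helper78.BR
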