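import Pool.Agent.V5helper78.BR.Polar

/-!
# The integral over the geodesics from a boundary point
-/

set_option autoImplicit false
set_option maxSynthPendingDepth 3

namespace Pool.Agent.V5helper78.BR

open Set Metric Filter Topology MeasureTheory
open scoped ContDiff InnerProductSpace BigOperators ENNReal
open Pool.Agent.Q176.BR

variable {n : ℕ} {g g' : Fld n}

theorem continuousOn_tv (hg : IsSimple g) {x : E n} (hx : x ∈ M n) :
    ContinuousOn (tv g x) (M n) := (contDiffOn_tv hg hx).continuousOn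

theorem continuousOn_lg (hg : IsSimple g) {x : E n} (hx : x ∈ M n) :
    ContinuousOn (lg g x) (M n) := (hg.contDiffOn_lg hx).continuousOn

theorem continuousOn_nm_lg (hg : IsSimple g) {x : E n} (hx : x ∈ M n) :
    ContinuousOn (fun y => nm g x (lg g x y)) (M n) := by
  have c1 := continuousOn_lg hg hx
  exact (((g x).continuous.comp_continuousOn c1).clm_apply c1).sqrt

theorem continuousOn_cx (hg : IsSimple g) {x : E n} (hx : x ∈ M n) :
    ContinuousOn (cx g x) (M n \ {x}) := by
  have c1 := (continuousOn_lg hg hx).mono (sdiff_subset (s := M n) (t := {x}))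
  have c2 := (continuousOn_tv hg hx).mono (sdiff_subset (s := M n) (t := {x}))
  have c3 := (hg.continuousOn_dlg hx).mono (sdiff_subset (s := M n) (t := {x}))
  have c4 := (continuousOn_nm_lg hg hx).mono (sdiff_subset (s := M n) (t := {x}))
  have c5 : ContinuousOn (fun y => (dlg g x y).det) (M n \ {x}) :=
    ContinuousLinearMap.continuous_det.comp_continuousOn c3
  unfold cx
  refine ((c5.mul (continuousOn_id.inner c2)).abs).mul (ContinuousOn.mul
    (ContinuousOn.div (continuousOn_const.inner c1).abs (c4.pow n) ?_) continuousOn_const)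
  intro y hy
  exact pow_ne_zero n (nm_pos hg.toIsMetric (hg.lg_ne_zero hx hy.1 (Ne.symm hy.2))).ne'

theorem cx_self (hg : IsSimple g) {x : E n} (hx : x ∈ M n) : cx g x x = 0 := by
  unfold cx
  rw [hg.lg_self hx]
  simp

theorem pbx_smul {x p : E n} (hp : ‖p‖ = 1) (hpx : p ≠ x) {r : ℝ} (hr : 0 < r) :
    r • p ∈ pbx x ↔ r < 1 := by
  unfold pbx
  simp only [mem_ofPred_eq, rad_smul hr, rad_eq hp, norm_smul, hp, mul_one, Real.norm_eq_abs,
    abs_of_pos hr]
  constructor
  · exact fun h => h.1.2
  · exact fun h => ⟨⟨smul_ne_zero hr.ne' (bd_ne hp), h⟩, hpx⟩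

theorem continuousOn_exp_pol (hg : IsSimple g) {x : E n} (hx : x ∈ bdM n) :
    ContinuousOn (fun X => ex g x (pol g x X)) (pbx x) := by
  intro X hX
  have hxM := bd_sub hx
  have h1 : pol g x X ∈ lg g x '' ball 0 1 := by
    rw [← pol_image hg hx]
    exact mem_image_of_mem _ hX
  have h2 : ContinuousAt (pol g x) X := (contDiffAt_pol hg hxM hX.1.1).continuousAt
  have h3 : ContinuousAt (ex g x) (pol g x X) := (hg.contDiffAt_ex hxM h1).continuousAt
  exact (ContinuousAt.comp h3 h2).continuousWithinAt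

theorem mapsTo_exp_pol (hg : IsSimple g) {x : E n} (hx : x ∈ bdM n) :
    MapsTo (fun X => ex g x (pol g x X)) (pbx x) (ball 0 1) := by
  intro X hX
  have hxM := bd_sub hx
  have h1 : pol g x X ∈ lg g x '' ball 0 1 := by
    rw [← pol_image hg hx]
    exact mem_image_of_mem _ hX
  obtain ⟨y, hy, hyX⟩ := h1
  dsimp only
  rw [← hyX, hg.ex_lg hxM (ball_subset_closedBall hy)]
  exact hy

/-- **The integral over the geodesics from a boundary point.** -/
theorem kz_polar (hn : 2 ≤ n) (hg : IsSimple g) {x : E n} (hx : x ∈ bdM n) {F : E n → ℝ}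
    (hF : ContinuousOn F (ball 0 1)) :
    ∫⁻ z in ball (0 : E n) 1, ENNReal.ofReal (kz g x z) * ENNReal.ofReal (F z) =
      ∫⁻ θ : sphere (0 : E n) 1, ENNReal.ofReal (cx g x θ) *
        (∫⁻ r in Ioo (0 : ℝ) 1, ENNReal.ofReal (F (ex g x (r • lg g x θ))))
        ∂(volume : Measure (E n)).toSphere := by
  have hxM := bd_sub hx
  have hm := hg.toIsMetric
  rw [lintegral_kz hg hx (fun z => ENNReal.ofReal (F z))]
  have hpos : ∀ X : E n, 0 ≤ ‖X‖ / ‖X‖ ^ n * cx g x (rad X) := fun X =>
    mul_nonneg (by positivity) (cx_nonneg hm x _)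
  have hcont : ContinuousOn (fun X => ENNReal.ofReal (‖X‖ / ‖X‖ ^ n * cx g x (rad X)) *
      ENNReal.ofReal (F (ex g x (pol g x X)))) (pbx x) := by
    have c1 : ContinuousOn (fun X => ‖X‖ / ‖X‖ ^ n * cx g x (rad X) *
        F (ex g x (pol g x X))) (pbx x) := by
      refine ContinuousOn.mul (ContinuousOn.mul ?_ ?_) ?_
      · refine ContinuousOn.div continuousOn_id.norm (continuousOn_id.norm.pow n) ?_
        intro X hX
        exact pow_ne_zero n (norm_ne_zero_iff.2 hX.1.1)
      · refine (continuousOn_cx hg hxM).comp (fun X hX => ?_) (fun X hX => ?_)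
        · exact (contDiffAt_rad hX.1.1).continuousAt.continuousWithinAt
        · exact ⟨bd_sub (rad_mem hX.1.1), hX.2⟩
      · exact hF.comp (continuousOn_exp_pol hg hx) (mapsTo_exp_pol hg hx)
    refine (ENNReal.continuous_ofReal.comp_continuousOn c1).congr (fun X hX => ?_)
    rw [← ENNReal.ofReal_mul (hpos X)]
    rfl
  rw [lintegral_polar_on hn (isOpen_pbx x) hcont]
  refine lintegral_congr (fun θ => ?_)
  have hθ : ‖(θ : E n)‖ = 1 := mem_sphere_zero_iff_norm.1 θ.2
  rcases eq_or_ne (θ : E n) x with h | h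
  · rw [h, cx_self hg hxM, ENNReal.ofReal_zero, zero_mul]
    refine (setLIntegral_congr_fun measurableSet_Ioi (g := fun _ => 0) (fun r hr => ?_)).trans
      (by simp)
    have h1 : r • x ∉ pbx x := by
      rintro ⟨-, h2⟩
      rw [← h, rad_smul hr, rad_eq hθ] at h2
      exact h2 rfl
    rw [indicator_of_notMem h1, mul_zero]
  · have h1 : ∀ r ∈ Ioi (0 : ℝ), ENNReal.ofReal (r ^ (n - 1)) * (pbx x).indicator
        (fun X => ENNReal.ofReal (‖X‖ / ‖X‖ ^ n * cx g x (rad X)) *
          ENNReal.ofReal (F (ex g x (pol g x X)))) (r • (θ : E n)) =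
        (Iio (1 : ℝ)).indicator (fun r => ENNReal.ofReal (cx g x θ) *
          ENNReal.ofReal (F (ex g x (r • lg g x θ)))) r := by
      intro r hr
      rw [mem_Ioi] at hr
      by_cases h2 : r < 1
      · rw [indicator_of_mem ((pbx_smul hθ h hr).2 h2), indicator_of_mem (mem_Iio.2 h2),
          rad_smul hr, rad_eq hθ, ← mul_assoc, ← ENNReal.ofReal_mul (by positivity)]
        have e1 : pol g x (r • (θ : E n)) = r • lg g x θ := by
          unfold pol
          rw [rad_smul hr, rad_eq hθ, norm_smul, hθ, mul_one, Real.norm_eq_abs, abs_of_pos hr]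
        rw [e1, norm_smul, hθ, mul_one, Real.norm_eq_abs, abs_of_pos hr]
        congr 2
        obtain ⟨m, rfl⟩ : ∃ m, n = m + 1 := ⟨n - 1, by omega⟩
        rw [Nat.add_sub_cancel]
        field_simp
        ring
      · rw [indicator_of_notMem (fun h3 => h2 ((pbx_smul hθ h hr).1 h3)),
          indicator_of_notMem (by simpa using h2), mul_zero]
    rw [setLIntegral_congr_fun measurableSet_Ioi h1, lintegral_indicator measurableSet_Iio,
      Measure.restrict_restrict measurableSet_Iio, Iio_inter_Ioi,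
      lintegral_const_mul' _ _ ENNReal.ofReal_ne_top]

end Pool.Agent.V5helper78.BR
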