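import Pool.Agent.V5helper78.BR.Kzp

/-!
# The length of the geodesics of `g` with respect to `g'`
-/

set_option autoImplicit false
set_option maxSynthPendingDepth 3

namespace Pool.Agent.V5helper78.BR

open Set Metric Filter Topology MeasureTheory
open scoped ContDiff InnerProductSpace BigOperators ENNReal
open Pool.Agent.Q176.BR

variable {n : ℕ} {g g' : Fld n}

/-- The length for `g'` of the geodesic of `g` from `x` to `q`. -/
noncomputable def lf (g g' : Fld n) (x q : E n) : ℝ :=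
  ∫ t in (0 : ℝ)..1, nm g' (ex g x (t • lg g x q)) (ilg g x (ex g x (t • lg g x q)) (lg g x q))

theorem lf_geod (hg : IsSimple g) {γ u : ℝ → E n} (h : IsGeod g γ u) :
    lf g g' (γ 0) (γ 1) = ∫ t in (0 : ℝ)..1, nm g' (γ t) (u t) := by
  unfold lf
  refine intervalIntegral.integral_congr (fun t ht => ?_)
  rw [uIcc_of_le zero_le_one] at ht
  have h1 : lg g (γ 0) (γ 1) = u 0 := by
    rw [h.lg_eq hg ⟨zero_le_one, le_rfl⟩, one_smul]
  rw [h1, ← h.eq_ex hg ht, ← h.vel_eq hg ht]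

theorem lf_len (hg : IsSimple g) {γ u : ℝ → E n} (h : IsGeod g γ u) :
    lf g g' (γ 0) (γ 1) = len g' γ := by
  rw [lf_geod hg h]
  unfold len
  refine intervalIntegral.integral_congr (fun t ht => ?_)
  rw [uIcc_of_le zero_le_one] at ht
  rw [(h.vel t ht).derivWithin (uniqueDiffOn_Icc (zero_lt_one (α := ℝ)) t ht)]
  rfl

theorem len_nonneg (c : ℝ → E n) : 0 ≤ len g c :=
  intervalIntegral.integral_nonneg zero_le_one (fun _ _ => Real.sqrt_nonneg _)

theorem rdist_le_len {c : ℝ → E n} (hc : ContDiffOn ℝ 1 c (Icc 0 1))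
    (hM : ∀ t ∈ Icc (0 : ℝ) 1, c t ∈ M n) : rdist g (c 0) (c 1) ≤ len g c := by
  refine csInf_le ⟨0, ?_⟩ ⟨c, hc, hM, rfl, rfl, rfl⟩
  rintro L ⟨c, -, -, -, -, rfl⟩
  exact len_nonneg c

theorem rdist_le_lf (hg : IsSimple g) {x q : E n} (hx : x ∈ M n) (hq : q ∈ M n) :
    rdist g' x q ≤ lf g g' x q := by
  obtain ⟨γ, u, h, rfl, rfl, -, -⟩ := hg.exists_geod hx hq
  rw [lf_len hg h]
  exact rdist_le_len h.contDiffOn h.mem

theorem lf_symm (hg : IsSimple g) {x q : E n} (hx : x ∈ M n) (hq : q ∈ M n) :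
    lf g g' x q = lf g g' q x := by
  obtain ⟨γ, u, h, rfl, rfl, -, -⟩ := hg.exists_geod hx hq
  have h1 := lf_geod (g' := g') hg h
  have h2 := lf_geod (g' := g') hg h.reverse
  simp only [sub_zero, sub_self] at h2
  rw [h1, h2]
  simp only [nm_neg]
  have h3 := intervalIntegral.integral_comp_sub_left (a := 0) (b := 1)
    (fun t => nm g' (γ t) (u t)) (1 : ℝ)
  rw [h3]
  norm_num

theorem lf_self (hg : IsSimple g) {x q : E n} (hx : x ∈ M n) (hq : q ∈ M n) :
    lf g g x q = nm g x (lg g x q) := by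
  obtain ⟨γ, u, h, rfl, rfl, h2, -⟩ := hg.exists_geod hx hq
  rw [lf_len hg h, h.len_eq hg.toIsMetric, h2]
  rfl

/-- The integrand of the length. -/
theorem continuousOn_speed (hg : IsSimple g) (hg' : IsMetric g') {x : E n} (hx : x ∈ M n) :
    ContinuousOn (fun p : E n × ℝ => nm g' (ex g x (p.2 • lg g x p.1))
      (ilg g x (ex g x (p.2 • lg g x p.1)) (lg g x p.1))) (M n ×ˢ Icc 0 1) := by
  have c1 : ContinuousOn (fun p : E n × ℝ => lg g x p.1) (M n ×ˢ Icc 0 1) :=
    (continuousOn_lg hg hx).comp continuousOn_fst (fun p hp => hp.1)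
  have c2 : ContinuousOn (fun p : E n × ℝ => p.2 • lg g x p.1) (M n ×ˢ Icc 0 1) :=
    continuousOn_snd.smul c1
  have hdom : MapsTo (fun p : E n × ℝ => p.2 • lg g x p.1) (M n ×ˢ Icc 0 1) (dom g x) := by
    rintro ⟨q, t⟩ ⟨hq, ht⟩
    have h1 := ex_smul hg hx hq ht
    dsimp only
    rw [← h1.2]
    exact hg.lg_mem hx h1.1
  have c3 : ContinuousOn (fun p : E n × ℝ => ex g x (p.2 • lg g x p.1)) (M n ×ˢ Icc 0 1) :=
    (hg.contDiffOn_ex hx).continuousOn.comp c2 hdom
  have hM : MapsTo (fun p : E n × ℝ => ex g x (p.2 • lg g x p.1)) (M n ×ˢ Icc 0 1) (M n) := by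
    rintro ⟨q, t⟩ ⟨hq, ht⟩
    exact (ex_smul hg hx hq ht).1
  have c4 : ContinuousOn (fun p : E n × ℝ => ilg g x (ex g x (p.2 • lg g x p.1)) (lg g x p.1))
      (M n ×ˢ Icc 0 1) := ((hg.continuousOn_ilg hx).comp c3 hM).clm_apply c1
  have c5 : ContinuousOn (fun p : E n × ℝ => g' (ex g x (p.2 • lg g x p.1)))
      (M n ×ˢ Icc 0 1) := hg'.smooth.continuous.comp_continuousOn c3
  exact ((c5.clm_apply c4).clm_apply c4).sqrt

theorem continuousOn_lf (hg : IsSimple g) (hg' : IsMetric g') {x : E n} (hx : x ∈ M n) :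
    ContinuousOn (lf g g' x) (M n) := by
  rw [continuousOn_iff_continuous_domRestrict]
  have c1 : Continuous (fun p : M n × ℝ => ((p.1 : E n), ((projIcc (0 : ℝ) 1 zero_le_one p.2 :
      Icc (0 : ℝ) 1) : ℝ))) := by
    refine (continuous_subtype_val.comp continuous_fst).prodMk ?_
    exact continuous_subtype_val.comp (continuous_projIcc.comp continuous_snd)
  have c2 : Continuous (Function.uncurry (fun (q : M n) (t : ℝ) =>
      (fun p : E n × ℝ => nm g' (ex g x (p.2 • lg g x p.1))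
      (ilg g x (ex g x (p.2 • lg g x p.1)) (lg g x p.1)))
        ((q : E n), ((projIcc (0 : ℝ) 1 zero_le_one t : Icc (0 : ℝ) 1) : ℝ)))) :=
    (continuousOn_speed hg hg' hx).comp_continuous c1 (fun p => ⟨p.1.2, (projIcc 0 1 zero_le_one p.2).2⟩)
  have c3 := intervalIntegral.continuous_parametric_intervalIntegral_of_continuous'
    (μ := volume) c2 0 1
  refine c3.congr (fun q => ?_)
  refine intervalIntegral.integral_congr (fun t ht => ?_)
  rw [uIcc_of_le zero_le_one] at ht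
  dsimp only
  rw [projIcc_of_mem zero_le_one ht]

/-- The integral along the geodesic from `x` to `q`. -/
theorem lintegral_ray (hg : IsSimple g) (hg' : IsMetric g') {x q : E n} (hx : x ∈ M n)
    (hq : q ∈ M n) : ∫⁻ r in Ioo (0 : ℝ) 1, ENNReal.ofReal
      (nm g' (ex g x (r • lg g x q)) (tv g x (ex g x (r • lg g x q))) /
        nm g x (lg g x (ex g x (r • lg g x q)))) =
      ENNReal.ofReal (lf g g' x q / nm g x (lg g x q)) := by
  have hm := hg.toIsMetric
  obtain ⟨γ, u, h, h0, h1, hu, -⟩ := hg.exists_geod hx hq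
  have e1 : ∀ r ∈ Ioo (0 : ℝ) 1, ENNReal.ofReal
      (nm g' (ex g x (r • lg g x q)) (tv g x (ex g x (r • lg g x q))) /
        nm g x (lg g x (ex g x (r • lg g x q)))) =
      ENNReal.ofReal (nm g' (γ r) (u r) / nm g x (lg g x q)) := by
    intro r hr
    have hri : r ∈ Icc (0 : ℝ) 1 := ⟨hr.1.le, hr.2.le⟩
    have h2 := h.eq_ex hg hri
    rw [h0, hu] at h2
    rw [(ex_smul hg hx hq hri).2, ← h2, tv_geod hg h h0 hri, nm_smul hg', nm_smul hm,
      abs_of_pos hr.1, mul_div_mul_left _ _ hr.1.ne']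
  rw [setLIntegral_congr_fun measurableSet_Ioo e1]
  have hc : ContinuousOn (fun r => nm g' (γ r) (u r) / nm g x (lg g x q)) (Icc 0 1) := by
    have c5 : ContinuousOn (fun r => g' (γ r)) (Icc 0 1) :=
      hg'.smooth.continuous.comp_continuousOn h.cont
    exact (((c5.clm_apply h.contU).clm_apply h.contU).sqrt).div_const _
  rw [← ofReal_integral_eq_lintegral_ofReal]
  · rw [← integral_Ioc_eq_integral_Ioo, ← intervalIntegral.integral_of_le zero_le_one,
      intervalIntegral.integral_div, ← h0, ← h1, lf_geod hg h]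
  · exact (hc.integrableOn_Icc).mono_set Ioo_subset_Icc_self
  · exact Eventually.of_forall (fun r => div_nonneg (nm_nonneg _ _) (nm_nonneg _ _))

end Pool.Agent.V5helper78.BR
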