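import Pool.Agent.V5helper78.BR.Adj
import Mathlib.LinearAlgebra.Transvection.Basic

/-!
# Determinants
-/

set_option autoImplicit false
set_option maxSynthPendingDepth 3

namespace Pool.Agent.V5helper78.BR

open Set Metric Filter Topology
open scoped ContDiff InnerProductSpace BigOperators
open Pool.Agent.Q176.BR

variable {n : ℕ} {g : Fld n}

theorem det_comp' (A B : E n →L[ℝ] E n) : (A.comp B).det = A.det * B.det := by
  unfold ContinuousLinearMap.det
  rw [← LinearMap.det_comp]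
  rfl

theorem det_smul' (c : ℝ) (A : E n →L[ℝ] E n) : (c • A).det = c ^ n * A.det := by
  unfold ContinuousLinearMap.det
  have h := LinearMap.det_smul c (A : E n →ₗ[ℝ] E n)
  rw [finrank_euclideanSpace, Fintype.card_fin] at h
  exact h

/-- A rank one perturbation of the identity. -/
theorem det_trans (L : E n →L[ℝ] E n) (f : E n →L[ℝ] ℝ) (v : E n)
    (h : ∀ ξ, L ξ = ξ + f ξ • v) : L.det = 1 + f v := by
  have h1 := LinearMap.transvection.det (f : E n →ₗ[ℝ] ℝ) v
  unfold ContinuousLinearMap.det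
  have h2 : (L : E n →ₗ[ℝ] E n) = LinearMap.transvection (f : E n →ₗ[ℝ] ℝ) v := by
    ext1 ξ
    rw [LinearMap.transvection.apply]
    exact h ξ
  rw [h2, h1]
  rfl

/-- The determinant of the derivative of the map in polar coordinates. -/
theorem det_pol {p : E n} (hp : ‖p‖ = 1) {R L : E n →L[ℝ] E n} {f r : E n} (hr : R r = f)
    (h : ∀ ξ, L ξ = ⟪p, ξ⟫_ℝ • f + R (ξ - ⟪p, ξ⟫_ℝ • p)) : L.det = R.det * ⟪p, r⟫_ℝ := by
  set K : E n →L[ℝ] E n := ContinuousLinearMap.id ℝ (E n) +
    (innerSL ℝ p).smulRight (r - p) with hK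
  have hK' : ∀ ξ, K ξ = ξ + ⟪p, ξ⟫_ℝ • (r - p) := fun ξ => by
    simp [hK]
  have h1 : L = R.comp K := by
    ext1 ξ
    rw [h, ContinuousLinearMap.comp_apply, hK', ← hr, ← map_smul, ← map_add]
    congr 1
    module
  have h2 : K.det = ⟪p, r⟫_ℝ := by
    rw [det_trans K (innerSL ℝ p) (r - p) hK', innerSL_apply_apply, inner_sub_right,
      real_inner_self_eq_norm_sq, hp]
    ring
  rw [h1, det_comp', h2]

/-- The determinant of the derivative of the normalised map in polar coordinates. -/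
theorem det_npol {p : E n} (hp : ‖p‖ = 1) {R L : E n →L[ℝ] E n} {f r : E n} (hr : R r = f)
    {c : ℝ} {χ : E n →L[ℝ] ℝ} (hχ : χ p = 0)
    (h : ∀ ξ, L ξ = c • (⟪p, ξ⟫_ℝ • f + R (ξ - ⟪p, ξ⟫_ℝ • p) - χ ξ • f)) :
    L.det = c ^ n * (R.det * ⟪p, r⟫_ℝ) := by
  set K : E n →L[ℝ] E n := ContinuousLinearMap.id ℝ (E n) +
    (innerSL ℝ p).smulRight (r - p) with hK
  have hK' : ∀ ξ, K ξ = ξ + ⟪p, ξ⟫_ℝ • (r - p) := fun ξ => by
    simp [hK]
  set K2 : E n →L[ℝ] E n := ContinuousLinearMap.id ℝ (E n) + χ.smulRight (-p) with hK2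
  have hK2' : ∀ ξ, K2 ξ = ξ + χ ξ • (-p) := fun ξ => by
    simp [hK2]
  have h1 : L = c • (R.comp (K.comp K2)) := by
    ext1 ξ
    rw [h, smul_apply, ContinuousLinearMap.comp_apply,
      ContinuousLinearMap.comp_apply, hK', hK2', ← hr, ← map_smul, ← map_smul, ← map_add,
      ← map_sub]
    congr 2
    rw [inner_add_right, inner_smul_right, inner_neg_right, real_inner_self_eq_norm_sq, hp]
    module
  have h2 : K.det = ⟪p, r⟫_ℝ := by
    rw [det_trans K (innerSL ℝ p) (r - p) hK', innerSL_apply_apply, inner_sub_right,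
      real_inner_self_eq_norm_sq, hp]
    ring
  have h3 : K2.det = 1 := by
    rw [det_trans K2 χ (-p) hK2', map_neg, hχ]
    ring
  rw [h1, det_smul', det_comp', det_comp', h2, h3, mul_one]

/-- The matrix of a linear map. -/
noncomputable def mtx (A : E n →L[ℝ] E n) : Matrix (Fin n) (Fin n) ℝ :=
  Matrix.of fun i j => A (bs j) i

theorem det_mtx (A : E n →L[ℝ] E n) : (mtx A).det = A.det := by
  unfold ContinuousLinearMap.det
  rw [← LinearMap.det_toMatrix (EuclideanSpace.basisFun (Fin n) ℝ).toBasis]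
  congr 1

theorem gram_comp (a b : E n →L[ℝ] E n →L[ℝ] ℝ) (A : E n →L[ℝ] E n)
    (h : ∀ v w, b v w = a (A v) w) : gram b = (mtx A).transpose * gram a := by
  ext i j
  rw [gram_apply, h, Matrix.mul_apply]
  conv_lhs => rw [← sum_bs (A (bs i))]
  simp only [map_sum, map_smul, sum_apply, smul_apply, smul_eq_mul]
  rfl

theorem det_adj {a b : E n →L[ℝ] E n →L[ℝ] ℝ} {A B : E n →L[ℝ] E n}
    (h : ∀ v w, a (A v) w = b (B w) v) : (gram a).det * A.det = (gram b).det * B.det := by
  have h1 := gram_comp a (a.comp A) A (fun v w => rfl)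
  have h2 := gram_comp b (b.comp B) B (fun v w => rfl)
  have h3 : gram (a.comp A) = (gram (b.comp B)).transpose := by
    ext i j
    exact h (bs i) (bs j)
  rw [h1, h2] at h3
  have h4 := congrArg Matrix.det h3
  simp only [Matrix.det_mul, Matrix.det_transpose, det_mtx] at h4
  linarith

/-- The norm of a tangent vector. -/
noncomputable def nm (g : Fld n) (x v : E n) : ℝ := √(g x v v)

theorem nm_nonneg (x v : E n) : 0 ≤ nm g x v := Real.sqrt_nonneg _

theorem nm_sq (hg : IsMetric g) (x v : E n) : nm g x v ^ 2 = g x v v :=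
  Real.sq_sqrt (hg.nonneg x v)

theorem nm_pos (hg : IsMetric g) {x v : E n} (hv : v ≠ 0) : 0 < nm g x v :=
  Real.sqrt_pos.2 (hg.pos x v hv)

theorem nm_smul (hg : IsMetric g) (x v : E n) (t : ℝ) : nm g x (t • v) = |t| * nm g x v := by
  unfold nm
  simp only [map_smul, smul_apply, smul_eq_mul]
  rw [← mul_assoc, Real.sqrt_mul' _ (hg.nonneg x v), ← pow_two, Real.sqrt_sq_eq_abs]

theorem nm_neg (x v : E n) : nm g x (-v) = nm g x v := by
  unfold nm
  simp

theorem nm_tv (hg : IsSimple g) {x y : E n} (hx : x ∈ M n) (hy : y ∈ M n) :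
    nm g y (tv g x y) = nm g x (lg g x y) := by
  unfold nm
  rw [hg.norm_tv hx hy]

theorem nm_lg_symm (hg : IsSimple g) {x y : E n} (hx : x ∈ M n) (hy : y ∈ M n) :
    nm g y (lg g y x) = nm g x (lg g x y) := by
  rw [hg.lg_symm hx hy, nm_neg, nm_tv hg hx hy]

theorem rdist_nm (hg : IsSimple g) {x y : E n} (hx : x ∈ M n) (hy : y ∈ M n) :
    rdist g x y = nm g x (lg g x y) := hg.rdist_eq hx hy

theorem det_dlg (hg : IsSimple g) {x z : E n} (hx : x ∈ M n) (hz : z ∈ M n) (hxz : x ≠ z) :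
    (gram (g z)).det * (dlg g z x).det = (gram (g x)).det * (dlg g x z).det :=
  (det_adj (fun v w => (adjoint_dlg hg hz hx hxz.symm w v)))

theorem det_dlg_ne (hg : IsSimple g) {x z : E n} (hx : x ∈ M n) (hz : z ∈ M n) :
    (dlg g x z).det ≠ 0 := by
  obtain ⟨e, he⟩ := hg.exists_equiv hx hz
  rw [← he]
  unfold ContinuousLinearMap.det
  exact (LinearEquiv.isUnit_det' e.toLinearEquiv).ne_zero

/-- The density of the measure on the space of geodesics, for the pair of the boundary point `x` and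
the point `z`. -/
noncomputable def kz (g : Fld n) (x z : E n) : ℝ :=
  |⟪x, tv g z x⟫_ℝ| / nm g z (lg g z x) ^ n * (gram (g z)).det * |(dlg g z x).det|

theorem kz_eq (hg : IsSimple g) {x z : E n} (hx : x ∈ M n) (hz : z ∈ M n) (hxz : x ≠ z) :
    kz g x z = |⟪x, lg g x z⟫_ℝ| / nm g x (lg g x z) ^ n * (gram (g x)).det *
      |(dlg g x z).det| := by
  unfold kz
  have h1 := congrArg (fun r => |r|) (det_dlg hg hx hz hxz)
  simp only [abs_mul, abs_of_pos (hg.toIsMetric.det_pos _)] at h1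
  rw [mul_assoc, h1, ← mul_assoc, nm_lg_symm hg hx hz, hg.lg_symm hz hx, inner_neg_right, abs_neg]

end Pool.Agent.V5helper78.BR
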