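import Pool.Agent.Q176.BR.Light

/-!
# The volume and the mean of a norm: the definitions used in the statements

The metrics are those of `Pool.Agent.Q176.SM`.
-/

set_option autoImplicit false

namespace Pool.Agent.V5helper78.ML

open Set Metric
open Pool.Agent.Q176.SM

variable {n : ℕ}

/-- The Gram matrix of `g` at the point `x` for the standard basis of `ℝ^n`. -/
noncomputable def gm (g : E n → E n → E n → ℝ) (x : E n) : Matrix (Fin n) (Fin n) ℝ :=
  Matrix.of fun i j => g x (EuclideanSpace.single i 1) (EuclideanSpace.single j 1)

/-- The density `√(det g)` of the Riemannian volume of `g`. -/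
noncomputable def dens (g : E n → E n → E n → ℝ) (x : E n) : ℝ := √(gm g x).det

/-- The Riemannian volume of `(M, g)`. -/
noncomputable def vol (g : E n → E n → E n → ℝ) : ℝ := ∫ x in M n, dens g x

/-- The mean of the norm `|v|_{g'}` over the unit tangent vectors `v` of `g` at `x`. It is given by the
integrals of the two norms over the unit disc `{|v|_g < 1}`: in polar coordinates with respect to the scalar
product `g x`, both the integral of `|v|_{g'}` and the one of `|v|_g` are the product of the same number with
the integral over the unit sphere. -/
noncomputable def mean (g g' : E n → E n → E n → ℝ) (x : E n) : ℝ :=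
  (∫ v in {v | g x v v < 1}, √(g' x v v)) / ∫ v in {v | g x v v < 1}, √(g x v v)

/-- At the point `x`, the metric `g'` arises from `g` by multiplication with a number `s > 0` on a subspace of
dimension `k ≥ 2`, without a change on the `g`-orthogonal complement: there are vectors `e 0, …, e (k - 1)`,
orthonormal for `g x`, such that `g'(v, w) = g(v, w) + (s - 1) ∑ i, g(e i, v) g(e i, w)`. For `k = n` this
means that `g'` is a multiple of `g` at `x`. -/
def PartConf (g g' : E n → E n → E n → ℝ) (x : E n) : Prop :=
  ∃ (k : ℕ) (s : ℝ) (e : Fin k → E n), 2 ≤ k ∧ 0 < s ∧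
    (∀ i j, g x (e i) (e j) = if i = j then 1 else 0) ∧
    ∀ v w, g' x v w = g x v w + (s - 1) * ∑ i, g x (e i) v * g x (e i) w

end Pool.Agent.V5helper78.ML
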