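import Pool.Agent.V5helper78.BR.Vol
import Pool.Agent.V5helper78.BR.MeanDefs

/-!
# The mean of the norm, as a Bochner integral
-/

set_option autoImplicit false
set_option maxSynthPendingDepth 3

namespace Pool.Agent.V5helper78.BR

open Set Metric Filter Topology MeasureTheory
open scoped ContDiff InnerProductSpace BigOperators ENNReal
open Pool.Agent.Q176.BR

variable {n : ℕ} {g g' : Fld n}

theorem nm_lt_one (hg : IsMetric g) (z v : E n) : nm g z v < 1 ↔ g z v v < 1 := by
  rw [← nm_sq hg z v]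
  constructor
  · intro h
    exact pow_lt_one₀ (nm_nonneg z v) h (by norm_num)
  · intro h
    by_contra h1
    rw [not_lt] at h1
    have : 1 ≤ nm g z v ^ 2 := one_le_pow₀ h1
    linarith

theorem disc_subset (hg : IsMetric g) {c : ℝ} (hc : 0 < c) {z : E n}
    (h1 : ∀ v, c * ‖v‖ ≤ nm g z v) : {v | g z v v < 1} ⊆ closedBall (0 : E n) c⁻¹ := by
  intro v hv
  have hv' : nm g z v < 1 := (nm_lt_one hg z v).2 hv
  rw [mem_closedBall_zero_iff]
  have h4 := h1 v
  rw [← one_div, le_div_iff₀ hc]
  linarith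

theorem integrableOn_disc (hn : 2 ≤ n) (hg : IsMetric g) {z : E n} (hz : z ∈ M n)
    (g' : Fld n) : IntegrableOn (fun v => nm g' z v) {v | g z v v < 1} := by
  obtain ⟨c, hc, h1⟩ := exists_lower hn hg
  have hcont : Continuous (fun v => nm g' z v) := by
    unfold nm
    fun_prop
  exact (hcont.continuousOn.integrableOn_compact (isCompact_closedBall 0 c⁻¹)).mono_set
    (disc_subset hg hc (h1 z hz))

/-- The integral of the norm over the unit disc. -/
noncomputable def di (g g' : Fld n) (z : E n) : ℝ := ∫ v in {v | g z v v < 1}, nm g' z v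

theorem di_nonneg (z : E n) : 0 ≤ di g g' z := by
  unfold di
  exact integral_nonneg (fun v => nm_nonneg z v)

theorem lintegral_di (hn : 2 ≤ n) (hg : IsMetric g) {z : E n} (hz : z ∈ M n) :
    ∫⁻ v in {v | v ≠ 0 ∧ nm g z v < 1}, ENNReal.ofReal (nm g' z v * (gram (g z)).det) =
      ENNReal.ofReal (di g g' z * (gram (g z)).det) := by
  have hpos := (hg.det_pos z).le
  have := nontriv hn
  simp only [ENNReal.ofReal_mul' hpos]
  rw [lintegral_mul_const' _ _ ENNReal.ofReal_ne_top]
  congr 1
  unfold di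
  rw [ofReal_integral_eq_lintegral_ofReal (integrableOn_disc hn hg hz g')
    (Eventually.of_forall fun v => nm_nonneg z v)]
  have hset : {v | v ≠ 0 ∧ nm g z v < 1} = {v | g z v v < 1} \ {0} := by
    ext v
    simp only [mem_ofPred_eq, Set.mem_sdiff, mem_singleton_iff, nm_lt_one hg]
    exact and_comm
  rw [hset]
  refine setLIntegral_congr ?_
  exact sdiff_null_ae_eq_self (measure_singleton 0)

theorem di_self (hn : 2 ≤ n) (hg : IsMetric g) {z : E n} (hz : z ∈ M n) :
    ENNReal.ofReal (di g g z * (gram (g z)).det) = ENNReal.ofReal √(gram (g z)).det * cc n := by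
  rw [← lintegral_di hn hg hz, disc_self hg z]

theorem di_self_pos (hn : 2 ≤ n) (hg : IsMetric g) {z : E n} (hz : z ∈ M n) : 0 < di g g z := by
  have h1 := di_self hn hg hz
  have h2 := Real.sqrt_pos.2 (hg.det_pos z)
  rcases (di_nonneg (g := g) (g' := g) z).lt_or_eq with h | h
  · exact h
  · rw [← h, zero_mul, ENNReal.ofReal_zero] at h1
    have h3 := (ENNReal.ofReal_pos.2 h2).ne'
    rcases mul_eq_zero.1 h1.symm with h4 | h4
    · exact absurd h4 h3
    · exact absurd h4 (cc_ne_zero hn)

/-- The mean of the norm. -/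
noncomputable def mn (g g' : Fld n) (z : E n) : ℝ := di g g' z / di g g z

theorem mn_nonneg (z : E n) : 0 ≤ mn g g' z := div_nonneg (di_nonneg z) (di_nonneg z)

theorem disc_mn (hn : 2 ≤ n) (hg : IsMetric g) {z : E n} (hz : z ∈ M n) :
    ∫⁻ v in {v | v ≠ 0 ∧ nm g z v < 1}, ENNReal.ofReal (nm g' z v * (gram (g z)).det) =
      ENNReal.ofReal (mn g g' z * √(gram (g z)).det) * cc n := by
  rw [lintegral_di hn hg hz]
  have h1 : di g g' z * (gram (g z)).det = mn g g' z * (di g g z * (gram (g z)).det) := by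
    unfold mn
    have := (di_self_pos hn hg hz).ne'
    field_simp
  rw [h1, ENNReal.ofReal_mul (mn_nonneg z), di_self hn hg hz, ← mul_assoc,
    ← ENNReal.ofReal_mul (mn_nonneg z)]

theorem dl_mn (hn : 2 ≤ n) (hg : IsMetric g) :
    dl g g' = (∫⁻ z in ball (0 : E n) 1, ENNReal.ofReal (mn g g' z * √(gram (g z)).det)) *
      cc n := by
  unfold dl
  rw [setLIntegral_congr_fun isOpen_ball.measurableSet
    (fun z hz => disc_mn (g' := g') hn hg (ball_subset_closedBall hz)),
    lintegral_mul_const' _ _ cc_ne_top]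

/-- The bound by the trace. -/
theorem mn_le (hn : 2 ≤ n) (hg : IsMetric g) (hg' : IsMetric g') {z : E n} (hz : z ∈ M n) :
    mn g g' z ≤ √(tg g g' z / n) := by
  have h1 := disc_le hn hg hg' z
  rw [disc_mn hn hg hz] at h1
  have h2 := (ENNReal.mul_le_mul_iff_left (cc_ne_zero hn) cc_ne_top).1 h1
  rw [ENNReal.ofReal_le_ofReal_iff (by positivity)] at h2
  exact le_of_mul_le_mul_right h2 (Real.sqrt_pos.2 (hg.det_pos z))

theorem exists_upper (hg : IsMetric g) : ∃ C, 0 < C ∧ ∀ z ∈ M n, ∀ v, nm g z v ≤ C * ‖v‖ := by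
  have hK : IsCompact (M n ×ˢ closedBall (0 : E n) 1) := isCompact_M.prod (isCompact_closedBall 0 1)
  obtain ⟨C, hC⟩ := hK.exists_bound_of_continuousOn (continuous_form hg).continuousOn
  refine ⟨√C + 1, by positivity, fun z hz v => ?_⟩
  rcases eq_or_ne v 0 with rfl | hv
  · simp [nm]
  have hv0 : 0 < ‖v‖ := norm_pos_iff.2 hv
  have h1 := hC (z, rad v) ⟨hz, by rw [mem_closedBall_zero_iff, norm_rad hv]⟩
  have h2 : nm g z v = ‖v‖ * nm g z (rad v) := by
    conv_lhs => rw [← norm_smul_rad v, nm_smul hg, abs_of_pos hv0]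
  rw [h2, mul_comm]
  refine mul_le_mul_of_nonneg_right ?_ hv0.le
  have h3 : nm g z (rad v) ≤ √C := Real.sqrt_le_sqrt ((le_abs_self _).trans h1)
  linarith

theorem exists_mn_le (hn : 2 ≤ n) (hg : IsMetric g) (hg' : IsMetric g') :
    ∃ C, 0 ≤ C ∧ ∀ z ∈ M n, mn g g' z ≤ C := by
  obtain ⟨c, hc, h1⟩ := exists_lower hn hg
  obtain ⟨C, hC, h2⟩ := exists_upper hg'
  refine ⟨C / c, by positivity, fun z hz => ?_⟩
  unfold mn
  rw [div_le_iff₀ (di_self_pos hn hg hz)]
  unfold di
  rw [← integral_const_mul]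
  refine integral_mono (integrableOn_disc hn hg hz g')
    ((integrableOn_disc hn hg hz g).const_mul _) (fun v => ?_)
  have h3 := h1 z hz v
  have h4 := h2 z hz v
  calc nm g' z v ≤ C * ‖v‖ := h4
    _ = C / c * (c * ‖v‖) := by field_simp
    _ ≤ C / c * nm g z v := by gcongr

theorem stronglyMeasurable_di (hg : IsMetric g) (hg' : IsMetric g') :
    StronglyMeasurable (di g g') := by
  have hopen : IsOpen {p : E n × E n | g p.1 p.2 p.2 < 1} :=
    isOpen_lt (continuous_form hg) continuous_const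
  have h1 : StronglyMeasurable (fun p : E n × E n =>
      {p : E n × E n | g p.1 p.2 p.2 < 1}.indicator (fun p => nm g' p.1 p.2) p) :=
    ((continuous_form hg').sqrt.stronglyMeasurable).indicator hopen.measurableSet
  have h2 := h1.integral_prod_right' (ν := (volume : Measure (E n)))
  have e : di g g' = fun z => ∫ v, {p : E n × E n | g p.1 p.2 p.2 < 1}.indicator
      (fun p => nm g' p.1 p.2) (z, v) := by
    funext z
    unfold di
    have hopen2 : IsOpen {v | g z v v < 1} :=
      isOpen_lt (by fun_prop) continuous_const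
    rw [← integral_indicator hopen2.measurableSet]
    rfl
  rw [e]
  exact h2

theorem integrableOn_mn (hn : 2 ≤ n) (hg : IsMetric g) (hg' : IsMetric g') :
    IntegrableOn (fun z => mn g g' z * √(gram (g z)).det) (M n) := by
  obtain ⟨C, hC, h1⟩ := exists_mn_le hn hg hg'
  have hs : Continuous (fun z => √(gram (g z)).det) := (continuous_det hg).sqrt
  obtain ⟨D, hD⟩ := isCompact_M.exists_bound_of_continuousOn hs.continuousOn
  have hm : AEStronglyMeasurable (fun z => mn g g' z * √(gram (g z)).det) volume := by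
    have h2 := ((stronglyMeasurable_di hg hg').measurable.div
      (stronglyMeasurable_di hg hg).measurable).mul hs.measurable
    exact h2.aestronglyMeasurable
  refine Measure.integrableOn_of_bounded (M := C * D) ?_ hm ?_
  · exact measure_closedBall_lt_top.ne
  · refine (ae_restrict_iff' measurableSet_closedBall).2 (Eventually.of_forall fun z hz => ?_)
    rw [norm_mul, Real.norm_eq_abs, abs_of_nonneg (mn_nonneg z)]
    exact mul_le_mul (h1 z hz) (hD z hz) (norm_nonneg _) hC

theorem ball_ae_M : (ball (0 : E n) 1 : Set (E n)) =ᵐ[volume] M n := by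
  rcases Nat.eq_zero_or_pos n with rfl | hn
  · have h1 : ∀ x : E 0, x = 0 := fun x => Subsingleton.elim _ _
    have h2 : (ball (0 : E 0) 1) = M 0 := by
      ext x
      rw [h1 x]
      simp
    exact Filter.EventuallyEq.of_eq h2
  · have : Nontrivial (E n) := by
      have : Nonempty (Fin n) := ⟨⟨0, hn⟩⟩
      infer_instance
    exact (ae_eq_set.2 ⟨by rw [sdiff_eq_empty.2 ball_subset_closedBall, measure_empty],
      by rw [closedBall_sdiff_ball]; exact Measure.addHaar_sphere volume 0 1⟩)

theorem lintegral_mn (hn : 2 ≤ n) (hg : IsMetric g) (hg' : IsMetric g') :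
    ∫⁻ z in ball (0 : E n) 1, ENNReal.ofReal (mn g g' z * √(gram (g z)).det) =
      ENNReal.ofReal (∫ z in M n, mn g g' z * √(gram (g z)).det) := by
  rw [ofReal_integral_eq_lintegral_ofReal (integrableOn_mn hn hg hg')
    (Eventually.of_forall fun z => mul_nonneg (mn_nonneg z) (Real.sqrt_nonneg _))]
  exact setLIntegral_congr ball_ae_M

theorem lintegral_vl (hg : IsMetric g) : vl g =
    ENNReal.ofReal (∫ z in M n, √(gram (g z)).det) := by
  have hs : Continuous (fun z => √(gram (g z)).det) := (continuous_det hg).sqrt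
  rw [ofReal_integral_eq_lintegral_ofReal (hs.continuousOn.integrableOn_compact isCompact_M)
    (Eventually.of_forall fun z => Real.sqrt_nonneg _)]
  exact setLIntegral_congr ball_ae_M

/-- **The inequality for the mean of the norm.** -/
theorem mean_ineq (hn : 2 ≤ n) (hg : IsSimple g) (hg' : IsMetric g')
    (hd : ∀ x ∈ bdM n, ∀ y ∈ bdM n, rdist g x y ≤ rdist g' x y) :
    ∫ z in M n, √(gram (g z)).det ≤ ∫ z in M n, mn g g' z * √(gram (g z)).det := by
  have hm := hg.toIsMetric
  have h1 := dl_mono hn hg hg' hd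
  rw [dl_self hm, dl_mn hn hm, ENNReal.mul_le_mul_iff_left (cc_ne_zero hn) cc_ne_top,
    lintegral_mn hn hm hg', lintegral_vl hm, ENNReal.ofReal_le_ofReal_iff] at h1
  · exact h1
  · exact integral_nonneg (fun z => mul_nonneg (mn_nonneg z) (Real.sqrt_nonneg _))

/-- **The case of equality.** -/
theorem mean_rigid (hn : 2 ≤ n) (hg : IsSimple g) (hg' : IsSimple g')
    (hd : ∀ x ∈ bdM n, ∀ y ∈ bdM n, rdist g x y ≤ rdist g' x y)
    (h : ∫ z in M n, mn g g' z * √(gram (g z)).det ≤ ∫ z in M n, √(gram (g z)).det) :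
    ∀ x ∈ M n, g' x = g x := by
  have hm := hg.toIsMetric
  refine rigid_dl hn hg hg' hd ?_
  rw [dl_self hm, dl_mn hn hm, ENNReal.mul_le_mul_iff_left (cc_ne_zero hn) cc_ne_top,
    lintegral_mn hn hm hg'.toIsMetric, lintegral_vl hm]
  exact ENNReal.ofReal_le_ofReal h

end Pool.Agent.V5helper78.BR
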