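import Pool.Agent.V5helper78.BR.Mean

/-!
# Metrics which are conformal in part
-/

set_option autoImplicit false
set_option maxSynthPendingDepth 3

namespace Pool.Agent.V5helper78.BR

open Set Metric Filter Topology MeasureTheory
open scoped ContDiff InnerProductSpace BigOperators ENNReal
open Pool.Agent.Q176.BR

variable {n : ℕ} {g g' : Fld n}

/-- The inequality of Bernoulli. -/
theorem bern {k : ℕ} (hk : 2 ≤ k) {s : ℝ} (hs : 0 < s) :
    1 + (k / 2 : ℝ) * (s - 1) ≤ √s ^ k := by
  have h1 := one_add_mul_self_le_rpow_one_add (s := s - 1) (p := (k : ℝ) / 2) (by linarith) (by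
    have : (2 : ℝ) ≤ k := by exact_mod_cast hk
    linarith)
  refine h1.trans_eq ?_
  rw [add_sub_cancel, Real.sqrt_eq_rpow, ← Real.rpow_natCast, ← Real.rpow_mul hs.le]
  congr 1
  ring

theorem pc_num (hn : 2 ≤ n) {k : ℕ} (hk : 2 ≤ k) {s : ℝ} (hs : 0 < s) :
    √((n + (s - 1) * k) / n) ≤ 1 + (√s ^ k - 1) / n := by
  have hn0 : (0 : ℝ) < n := by
    have : (2 : ℝ) ≤ n := by exact_mod_cast hn
    linarith
  have hn1 : (1 : ℝ) / n ≤ 1 := by
    rw [div_le_one hn0]
    have : (2 : ℝ) ≤ n := by exact_mod_cast hn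
    linarith
  set y : ℝ := k / 2 * (s - 1) / n with hy
  have h1 : (n + (s - 1) * k) / n = 1 + 2 * y := by
    rw [hy]
    field_simp
  have h2 : 1 + y ≤ 1 + (√s ^ k - 1) / n := by
    have h3 := bern hk hs
    rw [hy]
    gcongr
    linarith
  have hp : 0 ≤ √s ^ k := by positivity
  have h4 : 0 ≤ 1 + (√s ^ k - 1) / n := by
    have h5 : -(1 / (n : ℝ)) ≤ (√s ^ k - 1) / n := by
      rw [← neg_div]
      gcongr
      linarith
    linarith
  rw [h1]
  by_cases h6 : 0 ≤ 1 + 2 * y
  · rw [Real.sqrt_le_left h4]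
    have h7 : 0 ≤ 1 + y := by linarith
    nlinarith [sq_nonneg y, mul_self_le_mul_self h7 h2]
  · rw [Real.sqrt_eq_zero_of_nonpos (by linarith)]
    exact h4

theorem pc_le (hn : 2 ≤ n) (hg : IsMetric g) (hg' : IsMetric g') {z : E n} (hz : z ∈ M n) {k : ℕ}
    {s : ℝ} {e : Fin k → E n} (hk : 2 ≤ k) (hs : 0 < s)
    (he : ∀ i j, g z (e i) (e j) = if i = j then 1 else 0)
    (h : ∀ v w, g' z v w = g z v w + (s - 1) * ∑ i, g z (e i) v * g z (e i) w) :
    mn g g' z ≤ 1 + (√(gram (g' z)).det / √(gram (g z)).det - 1) / n := by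
  have hn0 : (0 : ℝ) < n := by
    have : (2 : ℝ) ≤ n := by exact_mod_cast hn
    linarith
  refine (mn_le hn hg hg' hz).trans ?_
  set G := gram (g z) with hG
  set A : Matrix (Fin n) (Fin k) ℝ := Matrix.of fun i j => (e j) i with hA
  have hpos : 0 < G.det := hg.det_pos z
  have hu : IsUnit G.det := hpos.ne'.isUnit
  have h1 : ∀ (j : Fin k) (w : Fin n), g z (e j) (bs w) = (A.transpose * G) j w := by
    intro j w
    rw [Matrix.mul_apply]
    conv_lhs => rw [← sum_bs (e j)]
    simp only [map_sum, map_smul, sum_apply, smul_apply, smul_eq_mul]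
    rfl
  have h2 : (A.transpose * G) * A = 1 := by
    ext i j
    rw [Matrix.mul_apply, Matrix.one_apply, ← he i j]
    conv_rhs => rw [← sum_bs (e j)]
    simp only [map_sum, map_smul, smul_eq_mul, h1]
    refine Finset.sum_congr rfl (fun a _ => ?_)
    rw [mul_comm]
    rfl
  have hsym : G.transpose = G := by
    ext i j
    exact hg.symm z _ _
  have h3 : gram (g' z) = G * (1 + (s - 1) • (A * (A.transpose * G))) := by
    have e1 : G * (1 + (s - 1) • (A * (A.transpose * G))) =
        G + (s - 1) • ((A.transpose * G).transpose * (A.transpose * G)) := by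
      rw [Matrix.mul_add, Matrix.mul_one, Matrix.mul_smul, Matrix.transpose_mul,
        Matrix.transpose_transpose, hsym, Matrix.mul_assoc]
    rw [e1]
    ext a b
    rw [gram_apply, h]
    simp only [Matrix.add_apply, Matrix.smul_apply, smul_eq_mul, Matrix.mul_apply (M := (A.transpose * G).transpose), h1,
      Matrix.transpose_apply (A.transpose * G)]
    rfl
  have htr : tg g g' z = n + (s - 1) * k := by
    unfold tg
    rw [h3, ← Matrix.mul_assoc, Matrix.nonsing_inv_mul _ hu, Matrix.one_mul, Matrix.trace_add,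
      Matrix.trace_one, Matrix.trace_smul, Matrix.trace_mul_comm, h2, Matrix.trace_one]
    simp
  have hdet : (gram (g' z)).det = G.det * s ^ k := by
    rw [h3, Matrix.det_mul]
    congr 1
    have e2 : (s - 1) • (A * (A.transpose * G)) = A * ((s - 1) • (A.transpose * G)) := by
      rw [Matrix.mul_smul]
    rw [e2, Matrix.det_one_add_mul_comm, Matrix.smul_mul, h2]
    have e3 : (1 : Matrix (Fin k) (Fin k) ℝ) + (s - 1) • (1 : Matrix (Fin k) (Fin k) ℝ) =
        s • (1 : Matrix (Fin k) (Fin k) ℝ) := by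
      rw [sub_smul, one_smul]
      abel
    rw [e3, Matrix.det_smul, Matrix.det_one, Fintype.card_fin, mul_one]
  have hJ : √(gram (g' z)).det / √G.det = √s ^ k := by
    rw [hdet, Real.sqrt_mul hpos.le, mul_div_cancel_left₀ _ (Real.sqrt_pos.2 hpos).ne']
    have e4 : s ^ k = (√s ^ k) ^ 2 := by
      rw [← pow_mul, mul_comm, pow_mul, Real.sq_sqrt hs.le]
    rw [e4, Real.sqrt_sq (by positivity)]
  rw [htr, hJ]
  exact pc_num hn hk hs

/-- **Rigidity for pairs of metrics in the cone.** -/
theorem cone_rigid (hn : 2 ≤ n) (hg : IsSimple g) (hg' : IsSimple g')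
    (hd : ∀ x ∈ bdM n, ∀ y ∈ bdM n, rdist g x y = rdist g' x y)
    (h : ∀ z ∈ M n, mn g g' z ≤ 1 + (√(gram (g' z)).det / √(gram (g z)).det - 1) / n) :
    ∀ x ∈ M n, g' x = g x := by
  have hm := hg.toIsMetric
  have hm' := hg'.toIsMetric
  have hn0 : (0 : ℝ) < n := by
    have : (2 : ℝ) ≤ n := by exact_mod_cast hn
    linarith
  refine mean_rigid hn hg hg' (fun x hx y hy => (hd x hx y hy).le) ?_
  have hs : Continuous (fun z => √(gram (g z)).det) := (continuous_det hm).sqrt
  have hs' : Continuous (fun z => √(gram (g' z)).det) := (continuous_det hm').sqrt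
  have i1 : IntegrableOn (fun z => √(gram (g z)).det) (M n) :=
    hs.continuousOn.integrableOn_compact isCompact_M
  have i2 : IntegrableOn (fun z => √(gram (g' z)).det) (M n) :=
    hs'.continuousOn.integrableOn_compact isCompact_M
  have hvol : ∫ z in M n, √(gram (g' z)).det = ∫ z in M n, √(gram (g z)).det := by
    have h1 := vl_eq hn hg hg' hd
    rw [lintegral_vl hm, lintegral_vl hm', ENNReal.ofReal_eq_ofReal_iff
      (integral_nonneg fun z => Real.sqrt_nonneg _)
      (integral_nonneg fun z => Real.sqrt_nonneg _)] at h1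
    exact h1
  have h1 : ∫ z in M n, mn g g' z * √(gram (g z)).det ≤
      ∫ z in M n, ((1 - 1 / n) * √(gram (g z)).det + 1 / n * √(gram (g' z)).det) := by
    refine setIntegral_mono_on (integrableOn_mn hn hm hm') ((i1.const_mul _).add (i2.const_mul _))
      measurableSet_closedBall (fun z hz => ?_)
    have h2 := mul_le_mul_of_nonneg_right (h z hz) (Real.sqrt_nonneg (gram (g z)).det)
    refine h2.trans_eq ?_
    have h3 := (Real.sqrt_pos.2 (hm.det_pos z)).ne'
    field_simp
    ring
  refine h1.trans_eq ?_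
  rw [integral_add (i1.const_mul _) (i2.const_mul _), integral_const_mul, integral_const_mul, hvol]
  ring

end Pool.Agent.V5helper78.BR
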