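import Pool.Agent.V5helper78.BR.Bdx

/-!
# Polar coordinates for the Lebesgue integral
-/

set_option autoImplicit false
set_option maxSynthPendingDepth 3

namespace Pool.Agent.V5helper78.BR

open Set Metric Filter Topology MeasureTheory
open scoped ContDiff InnerProductSpace BigOperators ENNReal
open Pool.Agent.Q176.BR

variable {n : ℕ} {g g' : Fld n}

theorem nontriv (hn : 2 ≤ n) : Nontrivial (E n) := by
  have : Nonempty (Fin n) := ⟨⟨0, by omega⟩⟩
  infer_instance

theorem lintegral_polar (hn : 2 ≤ n) {h : E n → ℝ≥0∞} (hh : Measurable h) :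
    ∫⁻ X, h X = ∫⁻ θ : sphere (0 : E n) 1, (∫⁻ r in Ioi (0 : ℝ),
      ENNReal.ofReal (r ^ (n - 1)) * h (r • (θ : E n))) ∂(volume : Measure (E n)).toSphere := by
  have := nontriv hn
  have hdim : Module.finrank ℝ (E n) = n := by
    rw [finrank_euclideanSpace, Fintype.card_fin]
  have hmp := (volume : Measure (E n)).measurePreserving_homeomorphUnitSphereProd
  rw [hdim] at hmp
  have hmeas : Measurable (fun q : sphere (0 : E n) 1 × Ioi (0 : ℝ) =>
      h ((q.2 : ℝ) • (q.1 : E n))) := by
    refine hh.comp ?_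
    fun_prop
  have h1 := hmp.lintegral_comp_emb (Homeomorph.measurableEmbedding _)
    (fun q : sphere (0 : E n) 1 × Ioi (0 : ℝ) => h ((q.2 : ℝ) • (q.1 : E n)))
  rw [lintegral_prod _ hmeas.aemeasurable] at h1
  have h2 : ∫⁻ X, h X = ∫⁻ X : ({(0 : E n)}ᶜ : Set (E n)),
      h (X : E n) ∂((volume : Measure (E n)).comap (↑)) := by
    rw [lintegral_subtype_comap (measurableSet_singleton (0 : E n)).compl h,
      restrict_compl_singleton]
  rw [h2]
  have h3 : ∀ X : ({(0 : E n)}ᶜ : Set (E n)),
      h (((homeomorphUnitSphereProd (E n) X).2 : ℝ) •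
        ((homeomorphUnitSphereProd (E n) X).1 : E n)) = h (X : E n) := by
    intro X
    have hX : (X : E n) ≠ 0 := X.2
    rw [homeomorphUnitSphereProd_apply_fst_coe, homeomorphUnitSphereProd_apply_snd_coe]
    congr 1
    rw [smul_smul, mul_inv_cancel₀ (norm_ne_zero_iff.2 hX), one_smul]
  rw [← lintegral_congr h3, h1]
  refine lintegral_congr (fun θ => ?_)
  have hm2 : Measurable (fun y : Ioi (0 : ℝ) => h ((y : ℝ) • (θ : E n))) :=
    hh.comp (by fun_prop)
  have hm3 : Measurable (fun r : Ioi (0 : ℝ) => ENNReal.ofReal ((r : ℝ) ^ (n - 1))) := by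
    fun_prop
  rw [← lintegral_subtype_comap measurableSet_Ioi
    (fun r : ℝ => ENNReal.ofReal (r ^ (n - 1)) * h (r • (θ : E n)))]
  rw [Measure.volumeIoiPow]
  exact lintegral_withDensity_eq_lintegral_mul _ hm3 hm2

theorem measurable_ind {S : Set (E n)} (hS : IsOpen S) {f : E n → ℝ≥0∞}
    (hf : ContinuousOn f S) : Measurable (S.indicator f) := by
  classical
  rw [← Set.piecewise_eq_indicator]
  exact hf.measurable_piecewise continuousOn_const hS.measurableSet

theorem lintegral_polar_on (hn : 2 ≤ n) {S : Set (E n)} (hS : IsOpen S) {f : E n → ℝ≥0∞}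
    (hf : ContinuousOn f S) : ∫⁻ X in S, f X = ∫⁻ θ : sphere (0 : E n) 1,
      (∫⁻ r in Ioi (0 : ℝ), ENNReal.ofReal (r ^ (n - 1)) * S.indicator f (r • (θ : E n)))
        ∂(volume : Measure (E n)).toSphere := by
  rw [← lintegral_indicator hS.measurableSet]
  exact lintegral_polar hn (measurable_ind hS hf)

end Pool.Agent.V5helper78.BR
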