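import Pool.Agent.V5helper78.BR.Curve

/-!
# Rigidity in the case of equality
-/

set_option autoImplicit false
set_option maxSynthPendingDepth 3

namespace Pool.Agent.V5helper78.BR

open Set Metric Filter Topology MeasureTheory
open scoped ContDiff InnerProductSpace BigOperators ENNReal
open Pool.Agent.Q176.BR

variable {n : ℕ} {g g' : Fld n}

theorem dch_all (hg : IsSimple g) (hg' : IsSimple g')
    (hl : ∀ x ∈ bdM n, ∀ y ∈ bdM n, x ≠ y → lf g g' x y = nm g' x (lg g' x y)) {x : E n}
    (hx : x ∈ ball (0 : E n) 1) (v : E n) : ∃ m : ℝ, dch g g' x v v = m • v := by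
  rcases eq_or_ne v 0 with rfl | hv
  · refine ⟨0, ?_⟩
    have h1 := dch_smul hg.toIsMetric hg'.toIsMetric x (0 : E n) 0
    simpa using h1
  obtain ⟨γ, u, h, h0, h1, hne, t, ht, hγt, l, hvl⟩ := through hg hx hv
  obtain ⟨m, hm⟩ := dch_vel hg hg' h hne (hl _ h0 _ h1 hne) ht
  refine ⟨l * m, ?_⟩
  rw [hvl, dch_smul hg.toIsMetric hg'.toIsMetric, ← hγt, hm, smul_smul, smul_smul]
  congr 1
  ring

theorem tv_prop (hg : IsSimple g) (hg' : IsSimple g')
    (hl : ∀ x ∈ bdM n, ∀ y ∈ bdM n, x ≠ y → lf g g' x y = nm g' x (lg g' x y)) {x p : E n}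
    (hx : x ∈ bdM n) (hp : p ∈ bdM n) (hxp : x ≠ p) :
    ∃ l : ℝ, 0 < l ∧ tv g' x p = l • tv g x p := by
  obtain ⟨γ, u, h, rfl, rfl, hu0, hu1⟩ := hg.exists_geod (bd_sub hx) (bd_sub hp)
  obtain ⟨h1, h2⟩ := fac_vel hg hg' h hxp (hl _ hx _ hp hxp) (t := 1) ⟨zero_lt_one, le_rfl⟩
  rw [← hu1]
  generalize fac g' (γ 0) (γ 1) (u 1) = c at h1 h2
  refine ⟨c⁻¹, inv_pos.2 h1, ?_⟩
  rw [h2, smul_smul, inv_mul_cancel₀ h1.ne', one_smul]

/-- **Rigidity.** -/
theorem rigid (hn : 2 ≤ n) (hg : IsSimple g) (hg' : IsSimple g')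
    (hd : ∀ x ∈ bdM n, ∀ y ∈ bdM n, rdist g x y = rdist g' x y)
    (hl : ∀ x ∈ bdM n, ∀ y ∈ bdM n, x ≠ y → lf g g' x y = nm g' x (lg g' x y)) :
    ∀ x ∈ M n, g' x = g x := by
  have hm := hg.toIsMetric
  have hm' := hg'.toIsMetric
  have := nontriv hn
  have hne : ((univ : Set (E n)) ∩ bdM n).Nonempty := by
    rw [univ_inter]
    exact NormedSpace.sphere_nonempty.2 zero_le_one
  -- equality at the boundary
  have hbd : ∀ p ∈ bdM n, ∀ v w, g p v w = g' p v w := by
    intro p hp
    obtain ⟨q, hqV, hq, hqp⟩ := exists_ne_bd hn isOpen_univ hne p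
    exact eq_at_bd hn hg hg' hp hq hqp univ_mem univ_mem
      (fun r _ hr y _ hy => hd r hr y hy) (fun r _ hr hrp => tv_prop hg hg' hl hr hp hrp)
  have hball : ∀ x ∈ ball (0 : E n) 1, g' x = g x := by
    intro x hxb
    have hx : x ∈ M n := ball_subset_closedBall hxb
    obtain ⟨p, hpU, hp, hpx⟩ := exists_ne_bd hn isOpen_univ hne x
    have hcone := cone_mem_nhds hg hx hp hpx univ_mem
    -- the relation on the cone
    set R := Real.log (gram (g' x)).det - Real.log (gram (g x)).det with hR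
    have key : ∀ v ∈ cone g x univ, g' x v v = (Real.exp (2 * R / (n + 1)) • g x) v v := by
      rintro _ ⟨l, hl1, q, -, hq, hqx, rfl⟩
      have hqM := bd_sub hq
      obtain ⟨γ, u, hγ, h0, h1, hu0, hu1⟩ := hg.exists_geod hx hqM
      have hu : u 0 ≠ 0 := by
        rw [hu0]
        exact hg.lg_ne_zero hx hqM hqx.symm
      have hcons := conserved hm hm' hγ hu (fun t ht =>
        ⟨univ, univ_mem, fun z _ => dch_all hg hg' hl
          (mem_ball_zero_iff.2 (hγ.inner_mem hg hu ht)) z⟩)
      rw [h0, h1, ← hR] at hcons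
      have e1 : g' q (u 1) (u 1) = g x (u 0) (u 0) := by
        rw [← hbd q hq]
        have h2 := hγ.speed hm 1 ⟨zero_le_one, le_rfl⟩
        rwa [h0, h1] at h2
      have e2 : (gram (g' q)).det = (gram (g q)).det := by
        congr 1
        ext i j
        exact (hbd q hq _ _).symm
      rw [e1, e2, sub_self, mul_zero, sub_zero, hu0] at hcons
      rw [hu0] at hu
      have p1 := hm'.pos x _ hu
      have p2 := hm.pos x _ hu
      have hn1 : (n : ℝ) + 1 ≠ 0 := by positivity
      have e3 : Real.log (g' x (lg g x q) (lg g x q)) =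
          2 * R / (n + 1) + Real.log (g x (lg g x q) (lg g x q)) := by
        field_simp
        linarith
      have e4 : g' x (lg g x q) (lg g x q) =
          Real.exp (2 * R / (n + 1)) * g x (lg g x q) (lg g x q) := by
        rw [← Real.exp_log p1, e3, Real.exp_add, Real.exp_log p2]
      simp only [map_smul, smul_apply, smul_eq_mul]
      rw [e4]
    have h1 := forms_eq_of_open (a := g' x) (b := Real.exp (2 * R / (n + 1)) • g x)
      (hm'.symm x) (fun v w => by
        simp only [smul_apply]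
        rw [hm.symm]) hcone key
    -- the determinants
    set r := Real.exp (2 * R / (n + 1)) with hr
    have hrpos : 0 < r := Real.exp_pos _
    have h2 : gram (g' x) = r • gram (g x) := by
      ext i j
      rw [gram_apply, h1]
      rfl
    have h3 : R = n * (2 * R / (n + 1)) := by
      have h4 : (gram (g' x)).det = r ^ n * (gram (g x)).det := by
        rw [h2, Matrix.det_smul, Fintype.card_fin]
      have h5 : R = Real.log (r ^ n) := by
        rw [hR, h4, Real.log_mul (pow_pos hrpos n).ne' (hm.det_pos x).ne']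
        ring
      rw [Real.log_pow, hr, Real.log_exp] at h5
      exact h5
    have h4 : R = 0 := by
      have hn1 : (n : ℝ) + 1 ≠ 0 := by positivity
      have hn2 : (2 : ℝ) ≤ n := by exact_mod_cast hn
      field_simp at h3
      have h5 : R * (n - 1) = 0 := by linarith
      rcases mul_eq_zero.1 h5 with h | h
      · exact h
      · linarith
    have h5 : r = 1 := by
      rw [hr, h4, mul_zero, zero_div, Real.exp_zero]
    ext v w
    rw [h1, h5, one_smul]
  intro x hx
  by_cases hxb : x ∈ ball (0 : E n) 1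
  · exact hball x hxb
  · have hxs : x ∈ bdM n := by
      rw [mem_sphere_zero_iff_norm]
      rw [mem_ball_zero_iff, not_lt] at hxb
      exact le_antisymm (mem_closedBall_zero_iff.1 hx) hxb
    ext v w
    exact (hbd x hxs v w).symm

/-- **Rigidity from the mean length.** -/
theorem rigid_dl (hn : 2 ≤ n) (hg : IsSimple g) (hg' : IsSimple g')
    (hd : ∀ x ∈ bdM n, ∀ y ∈ bdM n, rdist g x y ≤ rdist g' x y) (h : dl g g' ≤ dl g g) :
    ∀ x ∈ M n, g' x = g x := by
  have hlf : ∀ x ∈ bdM n, ∀ y ∈ bdM n, x ≠ y → lf g g' x y = rdist g x y := by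
    intro x hx y hy hxy
    rw [rdist_nm hg (bd_sub hx) (bd_sub hy)]
    exact lf_eq hn hg hg'.toIsMetric hd h hx hy hxy
  have hsame : ∀ x ∈ bdM n, ∀ y ∈ bdM n, x ≠ y → rdist g x y = rdist g' x y := by
    intro x hx y hy hxy
    refine le_antisymm (hd x hx y hy) ?_
    rw [← hlf x hx y hy hxy]
    exact rdist_le_lf hg (bd_sub hx) (bd_sub hy)
  refine rigid hn hg hg' (fun x hx y hy => ?_) (fun x hx y hy hxy => ?_)
  · rcases eq_or_ne x y with rfl | hxy
    · rw [rdist_nm hg (bd_sub hx) (bd_sub hy), rdist_nm hg' (bd_sub hx) (bd_sub hy),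
        hg.lg_self (bd_sub hx), hg'.lg_self (bd_sub hx)]
      simp [nm]
    · exact hsame x hx y hy hxy
  · rw [hlf x hx y hy hxy, hsame x hx y hy hxy, rdist_nm hg' (bd_sub hx) (bd_sub hy)]

end Pool.Agent.V5helper78.BR
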