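import Pool.Agent.V5helper78.BR.Dsc

/-!
# The mean of the norm is bounded by the trace
-/

set_option autoImplicit false
set_option maxSynthPendingDepth 3

namespace Pool.Agent.V5helper78.BR

open Set Metric Filter Topology MeasureTheory
open scoped ContDiff InnerProductSpace BigOperators ENNReal MatrixOrder
open Pool.Agent.Q176.BR

variable {n : ℕ} {g g' : Fld n}

/-- The integral of the square of a coordinate. -/
noncomputable def sq1 (u : E n) : ℝ≥0∞ := ∫⁻ w in pball n, ENNReal.ofReal (⟪u, w⟫_ℝ ^ 2 / ‖w‖)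

theorem sq1_eq {u u' : E n} (h : ‖u‖ = ‖u'‖) : sq1 u = sq1 u' := by
  set R := (ℝ ∙ (u - u'))ᗮ.reflection with hR
  have h1 : R u = u' := Submodule.reflection_sub h
  have h2 : MeasurePreserving (R : E n → E n) volume volume := R.measurePreserving
  have h3 : (R : E n → E n) ⁻¹' pball n = pball n := by
    ext w
    simp [pball]
  unfold sq1
  have h4 := h2.setLIntegral_comp_preimage_emb R.toHomeomorph.measurableEmbedding
    (fun w => ENNReal.ofReal (⟪u', w⟫_ℝ ^ 2 / ‖w‖)) (pball n)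
  rw [h3] at h4
  rw [← h4]
  refine lintegral_congr (fun w => ?_)
  rw [← h1, R.inner_map_map, R.norm_map]

theorem measurable_sq (u : E n) : Measurable (fun w : E n => ENNReal.ofReal (⟪u, w⟫_ℝ ^ 2 / ‖w‖)) := by
  refine Measurable.ennreal_ofReal ?_
  exact ((continuous_const.inner continuous_id).pow 2).measurable.div continuous_norm.measurable

theorem sum_sq1 (e : OrthonormalBasis (Fin n) ℝ (E n)) : ∑ i, sq1 (e i) = cc n := by
  unfold sq1 cc
  rw [← lintegral_finsetSum _ (fun i _ => measurable_sq (e i))]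
  refine setLIntegral_congr_fun isOpen_pball.measurableSet (fun w hw => ?_)
  rw [← ENNReal.ofReal_sum_of_nonneg (fun i _ => by positivity)]
  congr 1
  rw [← Finset.sum_div, e.sum_sq_inner_right]
  have h2 : ‖w‖ ≠ 0 := norm_ne_zero_iff.2 hw.1
  field_simp

theorem sq1_val (hn : 2 ≤ n) {u : E n} (hu : ‖u‖ = 1) :
    sq1 u = ENNReal.ofReal ((n : ℝ)⁻¹) * cc n := by
  have hn0 : (n : ℝ) ≠ 0 := by
    have : (2 : ℝ) ≤ n := by exact_mod_cast hn
    linarith
  have h1 := sum_sq1 (EuclideanSpace.basisFun (Fin n) ℝ)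
  have h2 : ∀ i, sq1 (EuclideanSpace.basisFun (Fin n) ℝ i) = sq1 u := fun i =>
    sq1_eq (by rw [hu]; simp)
  simp only [h2, Finset.sum_const, Finset.card_univ, Fintype.card_fin, nsmul_eq_mul] at h1
  rw [← h1, ← mul_assoc]
  have h3 : ENNReal.ofReal ((n : ℝ)⁻¹) * (n : ℝ≥0∞) = 1 := by
    rw [← ENNReal.ofReal_natCast, ← ENNReal.ofReal_mul (by positivity), inv_mul_cancel₀ hn0,
      ENNReal.ofReal_one]
  rw [h3, one_mul]

/-- The trace of a form. -/
noncomputable def trc (b : E n →L[ℝ] E n →L[ℝ] ℝ) : ℝ := ∑ i, b (bs i) (bs i)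

theorem lintegral_form (hn : 2 ≤ n) (b : E n →L[ℝ] E n →L[ℝ] ℝ) (hs : ∀ v w, b v w = b w v)
    (hp : ∀ v, 0 ≤ b v v) : ∫⁻ w in pball n, ENNReal.ofReal (b w w / ‖w‖) =
      ENNReal.ofReal (trc b / n) * cc n := by
  set T : E n →ₗ[ℝ] E n := ((∑ i, (b.flip (bs i)).smulRight (bs i) : E n →L[ℝ] E n) :
    E n →ₗ[ℝ] E n) with hT
  have hT1 : ∀ v w, ⟪T v, w⟫_ℝ = b v w := fun v w => by
    have h1 : T v = ∑ i, b v (bs i) • bs i := by
      simp [hT]
    rw [h1, sum_inner]
    conv_rhs => rw [← sum_bs w, map_sum]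
    refine Finset.sum_congr rfl (fun i _ => ?_)
    rw [inner_smul_left, map_smul]
    have h2 : ⟪bs i, w⟫_ℝ = w i := by
      have := EuclideanSpace.inner_single_left (𝕜 := ℝ) i (1 : ℝ) w
      simpa [bs] using this
    rw [h2]
    simp [mul_comm]
  have hsym : T.IsSymmetric := by
    intro v w
    rw [hT1, hs, ← hT1, real_inner_comm]
  have hfr : Module.finrank ℝ (E n) = n := by
    rw [finrank_euclideanSpace, Fintype.card_fin]
  set e := hsym.eigenvectorBasis hfr with he
  set l := hsym.eigenvalues hfr with hl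
  have hel : ∀ i, T (e i) = l i • e i := fun i => hsym.apply_eigenvectorBasis hfr i
  have hl0 : ∀ i, 0 ≤ l i := by
    intro i
    have h1 := hp (e i)
    rw [← hT1, hel, inner_smul_left, real_inner_self_eq_norm_sq, e.norm_eq_one] at h1
    simpa using h1
  have hb : ∀ w, b w w = ∑ i, l i * ⟪e i, w⟫_ℝ ^ 2 := by
    intro w
    rw [← hT1, ← e.sum_inner_mul_inner]
    refine Finset.sum_congr rfl (fun i _ => ?_)
    rw [hsym w (e i), hel, inner_smul_right, real_inner_comm]
    ring
  have htr : trc b = ∑ i, l i := by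
    have h1 := LinearMap.trace_eq_sum_inner T (EuclideanSpace.basisFun (Fin n) ℝ)
    have h2 := LinearMap.trace_eq_sum_inner T e
    rw [h1] at h2
    unfold trc
    have h3 : ∀ i, b (bs i) (bs i) = ⟪EuclideanSpace.basisFun (Fin n) ℝ i,
        T (EuclideanSpace.basisFun (Fin n) ℝ i)⟫_ℝ := by
      intro i
      rw [real_inner_comm, hT1, EuclideanSpace.basisFun_apply]
      rfl
    simp only [h3]
    rw [h2]
    refine Finset.sum_congr rfl (fun i _ => ?_)
    rw [hel, inner_smul_right, real_inner_self_eq_norm_sq, e.norm_eq_one]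
    simp
  have e1 : ∀ w : E n, ENNReal.ofReal (b w w / ‖w‖) =
      ∑ i, ENNReal.ofReal (l i) * ENNReal.ofReal (⟪e i, w⟫_ℝ ^ 2 / ‖w‖) := by
    intro w
    rw [hb, Finset.sum_div, ENNReal.ofReal_sum_of_nonneg
      (fun i _ => div_nonneg (mul_nonneg (hl0 i) (sq_nonneg _)) (norm_nonneg _))]
    refine Finset.sum_congr rfl (fun i _ => ?_)
    rw [← ENNReal.ofReal_mul (hl0 i), mul_div_assoc]
  rw [lintegral_congr e1, lintegral_finsetSum _
    (fun i _ => (measurable_sq (e i)).const_mul _)]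
  have e2 : ∀ i, ∫⁻ w in pball n, ENNReal.ofReal (l i) * ENNReal.ofReal (⟪e i, w⟫_ℝ ^ 2 / ‖w‖) =
      ENNReal.ofReal (l i * (n : ℝ)⁻¹) * cc n := by
    intro i
    rw [lintegral_const_mul' _ _ ENNReal.ofReal_ne_top]
    have h1 := sq1_val hn (e.norm_eq_one i)
    unfold sq1 at h1
    rw [h1, ← mul_assoc, ENNReal.ofReal_mul (hl0 i)]
  simp only [e2]
  rw [← Finset.sum_mul, ← ENNReal.ofReal_sum_of_nonneg
    (fun i _ => mul_nonneg (hl0 i) (by positivity)), ← Finset.sum_mul, ← htr]
  rfl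

/-- The inequality of Cauchy and Schwarz for the mean of the norm. -/
theorem lintegral_sqrt_le (hn : 2 ≤ n) (b : E n →L[ℝ] E n →L[ℝ] ℝ) (hs : ∀ v w, b v w = b w v)
    (hp : ∀ v, v ≠ 0 → 0 < b v v) : ∫⁻ w in pball n, ENNReal.ofReal √(b w w) ≤
      ENNReal.ofReal √(trc b / n) * cc n := by
  have hn0 : (0 : ℝ) < n := by
    have : (2 : ℝ) ≤ n := by exact_mod_cast hn
    linarith
  have hp' : ∀ v, 0 ≤ b v v := by
    intro v
    rcases eq_or_ne v 0 with rfl | hv
    · simp
    · exact (hp v hv).le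
  have htr : 0 < trc b := by
    unfold trc
    have : Nonempty (Fin n) := ⟨⟨0, by omega⟩⟩
    refine Finset.sum_pos (fun i _ => hp _ ?_) Finset.univ_nonempty
    intro h
    have := congrArg (fun v : E n => v i) h
    simp [bs] at this
  set t := √(trc b / n) with ht
  have ht0 : 0 < t := Real.sqrt_pos.2 (div_pos htr hn0)
  have ht2 : t ^ 2 = trc b / n := Real.sq_sqrt (div_pos htr hn0).le
  have e1 : ∀ w ∈ pball n, ENNReal.ofReal √(b w w) ≤
      ENNReal.ofReal (t / 2) * ENNReal.ofReal ‖w‖ +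
        ENNReal.ofReal (1 / (2 * t)) * ENNReal.ofReal (b w w / ‖w‖) := by
    intro w hw
    have hw0 : 0 < ‖w‖ := norm_pos_iff.2 hw.1
    have hb0 := hp' w
    rw [← ENNReal.ofReal_mul (by positivity), ← ENNReal.ofReal_mul (by positivity),
      ← ENNReal.ofReal_add (by positivity) (by positivity)]
    refine ENNReal.ofReal_le_ofReal ?_
    have h1 : √(b w w) ^ 2 = b w w := Real.sq_sqrt hb0
    have h2 : t / 2 * ‖w‖ + 1 / (2 * t) * (b w w / ‖w‖) - √(b w w) =
        (t * ‖w‖ - √(b w w)) ^ 2 / (2 * t * ‖w‖) := by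
      rw [← h1]
      field_simp
      rw [Real.sqrt_sq (Real.sqrt_nonneg _)]
      ring
    have h3 : 0 ≤ (t * ‖w‖ - √(b w w)) ^ 2 / (2 * t * ‖w‖) := by positivity
    linarith
  have m1 : Measurable (fun w : E n => ENNReal.ofReal (t / 2) * ENNReal.ofReal ‖w‖) := by
    fun_prop
  have hbc : Continuous (fun w : E n => b w w) := by fun_prop
  have m2 : Measurable (fun w : E n =>
      ENNReal.ofReal (1 / (2 * t)) * ENNReal.ofReal (b w w / ‖w‖)) :=
    ((hbc.measurable.div continuous_norm.measurable).ennreal_ofReal).const_mul _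
  refine (setLIntegral_mono (m1.add m2) e1).trans_eq ?_
  simp only [Pi.add_apply]
  rw [lintegral_add_left m1, lintegral_const_mul' _ _ ENNReal.ofReal_ne_top,
    lintegral_const_mul' _ _ ENNReal.ofReal_ne_top, lintegral_form hn b hs hp']
  unfold cc
  rw [← mul_assoc, ← add_mul, ← ENNReal.ofReal_mul (by positivity),
    ← ENNReal.ofReal_add (by positivity) (by positivity)]
  congr 2
  rw [← ht2]
  field_simp
  ring

theorem clm_ext_bs {A B : E n →L[ℝ] E n} (h : ∀ i, A (bs i) = B (bs i)) : A = B := by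
  ext1 v
  rw [← sum_bs v]
  simp only [map_sum, map_smul, h]

theorem mtx_bs (A : E n →L[ℝ] E n) (i : Fin n) :
    A (bs i) = WithLp.toLp 2 (fun k => mtx A k i) := by
  ext k
  simp [mtx]

theorem mtx_mul (A B : E n →L[ℝ] E n) : mtx (A.comp B) = mtx A * mtx B := by
  ext i j
  rw [Matrix.mul_apply]
  have h1 : mtx (A.comp B) i j = (A (B (bs j))) i := rfl
  have h2 : A (B (bs j)) = ∑ k, (B (bs j)) k • A (bs k) := by
    conv_lhs => rw [← sum_bs (B (bs j))]
    simp only [map_sum, map_smul]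
  rw [h1, h2]
  simp only [WithLp.ofLp_sum, Finset.sum_apply, WithLp.ofLp_smul, Pi.smul_apply, smul_eq_mul]
  refine Finset.sum_congr rfl (fun k _ => ?_)
  rw [mul_comm]
  rfl

theorem mtx_inj {A B : E n →L[ℝ] E n} (h : mtx A = mtx B) : A = B := by
  refine clm_ext_bs (fun i => ?_)
  rw [mtx_bs, mtx_bs, h]

theorem mtx_id : mtx (ContinuousLinearMap.id ℝ (E n)) = 1 := by
  ext i j
  unfold mtx
  rw [Matrix.of_apply, ContinuousLinearMap.id_apply, Matrix.one_apply]
  simp [bs]

/-- The trace of `g'` with respect to `g` at the point `z`. -/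
noncomputable def tg (g g' : Fld n) (z : E n) : ℝ := ((gram (g z))⁻¹ * gram (g' z)).trace

/-- The bound for the mean of the norm. -/
theorem disc_le (hn : 2 ≤ n) (hg : IsMetric g) (hg' : IsMetric g') (z : E n) :
    ∫⁻ v in {v | v ≠ 0 ∧ nm g z v < 1}, ENNReal.ofReal (nm g' z v * (gram (g z)).det) ≤
      ENNReal.ofReal (√(tg g g' z / n) * √(gram (g z)).det) * cc n := by
  obtain ⟨B, h1, h2, h3⟩ := exists_root hg z
  have hpos := hg.det_pos z
  have hB : B.det ≠ 0 := by
    intro h
    rw [h2, h] at hpos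
    simp at hpos
  have hBm : (mtx B).det ≠ 0 := by rwa [det_mtx]
  have hBu : IsUnit (mtx B).det := hBm.isUnit
  set S := ofm (mtx B)⁻¹ with hS
  have hSB : S.comp B = ContinuousLinearMap.id ℝ (E n) := by
    apply mtx_inj
    rw [mtx_mul, hS, mtx_ofm, mtx_id, Matrix.nonsing_inv_mul _ hBu]
  have hBS : B.comp S = ContinuousLinearMap.id ℝ (E n) := by
    apply mtx_inj
    rw [mtx_mul, hS, mtx_ofm, mtx_id, Matrix.mul_nonsing_inv _ hBu]
  have hSB' : ∀ v, S (B v) = v := fun v => by
    have := congrArg (fun L : E n →L[ℝ] E n => L v) hSB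
    simpa using this
  have hBS' : ∀ v, B (S v) = v := fun v => by
    have := congrArg (fun L : E n →L[ℝ] E n => L v) hBS
    simpa using this
  set b : E n →L[ℝ] E n →L[ℝ] ℝ := (g' z).bilinearComp S S with hb
  have hb' : ∀ v w, b v w = g' z (S v) (S w) := fun v w => rfl
  rw [disc_lin hg h1 h2 (F := nm g' z) (G := fun w => √(b w w)) (fun v => by
    rw [hb', hSB']
    rfl)]
  have h4 := lintegral_sqrt_le hn b (fun v w => by rw [hb', hb', hg'.symm]) (fun v hv => by
    rw [hb']
    refine hg'.pos z _ (fun h => hv ?_)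
    rw [← hBS' v, h, map_zero])
  have h5 : trc b = tg g g' z := by
    unfold trc tg
    have h6 : ∀ i, b (bs i) (bs i) = ((mtx S).transpose * (gram (g' z) * mtx S)) i i := by
      intro i
      rw [hb', form_eq_gram, Matrix.mul_apply]
      refine Finset.sum_congr rfl (fun k _ => ?_)
      rw [Matrix.mul_apply, Finset.mul_sum]
      refine Finset.sum_congr rfl (fun j _ => ?_)
      have h7 : ∀ k, (S (bs i)) k = mtx S k i := fun k => rfl
      rw [h7, h7, Matrix.transpose_apply]
      ring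
    simp only [h6]
    change ((mtx S).transpose * (gram (g' z) * mtx S)).trace = _
    rw [Matrix.trace_mul_comm, Matrix.mul_assoc, Matrix.trace_mul_comm]
    congr 2
    rw [h3, Matrix.mul_inv_rev, hS, mtx_ofm, Matrix.transpose_nonsing_inv]
  rw [h5] at h4
  calc ENNReal.ofReal √(gram (g z)).det * ∫⁻ w in pball n, ENNReal.ofReal √(b w w)
      ≤ ENNReal.ofReal √(gram (g z)).det * (ENNReal.ofReal √(tg g g' z / n) * cc n) := by
        gcongr
    _ = _ := by
        rw [← mul_assoc, ← ENNReal.ofReal_mul (Real.sqrt_nonneg _), mul_comm √(gram (g z)).det]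

end Pool.Agent.V5helper78.BR
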