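import Pool.Agent.V5helper78.BR.Trc

/-!
# The volume is determined by the distances of the boundary points
-/

set_option autoImplicit false
set_option maxSynthPendingDepth 3

namespace Pool.Agent.V5helper78.BR

open Set Metric Filter Topology MeasureTheory
open scoped ContDiff InnerProductSpace BigOperators ENNReal
open Pool.Agent.Q176.BR

variable {n : ℕ} {g g' : Fld n}

/-- The tangential parts agree at the boundary. -/
theorem tang (hg : IsSimple g) (hg' : IsSimple g')
    (hd : ∀ x ∈ bdM n, ∀ y ∈ bdM n, rdist g x y = rdist g' x y) {x w : E n} (hx : x ∈ bdM n)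
    (hw : ⟪x, w⟫_ℝ = 0) : g x w w = g' x w w := by
  have hx1 : ‖x‖ = 1 := mem_sphere_zero_iff_norm.1 hx
  have hxM := bd_sub hx
  have hne : ∀ s : ℝ, x + s • w ≠ 0 := by
    intro s h
    have h1 := congrArg (fun z => ⟪x, z⟫_ℝ) h
    simp only [inner_add_right, inner_smul_right, hw, real_inner_self_eq_norm_sq, hx1,
      inner_zero_right] at h1
    norm_num at h1
  have key : ∀ G : Fld n, IsSimple G → Tendsto (fun s : ℝ => (s⁻¹ * s⁻¹) *
      G x (lg G x (rad (x + s • w))) (lg G x (rad (x + s • w)))) (𝓝[≠] 0) (𝓝 (G x w w)) := by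
    intro G hG
    have h1 := lgrad_curve hG hxM hx1 w
    rw [hw, zero_smul, sub_zero, dlg_self hG hxM] at h1
    have h2 := h1.tendsto_slope_zero
    simp only [zero_add, zero_smul, add_zero, rad_eq hx1, hG.lg_self hxM, sub_zero,
      ContinuousLinearMap.id_apply] at h2
    have h3 := (((G x).continuous.clm_apply continuous_id).tendsto w).comp h2
    refine h3.congr (fun s => ?_)
    simp only [Function.comp_apply, id_eq, map_smul, smul_apply, smul_eq_mul]
    ring
  refine tendsto_nhds_unique (key g hg) ((key g' hg').congr (fun s => ?_))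
  have hb := rad_mem (hne s)
  have h4 := hd _ hx _ hb
  rw [hg.rdist_eq hxM (bd_sub hb), hg'.rdist_eq hxM (bd_sub hb)] at h4
  rw [(Real.sqrt_inj (hg.toIsMetric.nonneg _ _) (hg'.toIsMetric.nonneg _ _)).1 h4]

/-- The linear isometry which compares the two metrics at a boundary point. -/
theorem exists_iso (hg : IsSimple g) (hg' : IsSimple g')
    (hd : ∀ x ∈ bdM n, ∀ y ∈ bdM n, rdist g x y = rdist g' x y) {x : E n} (hx : x ∈ bdM n) :
    ∃ L : E n →L[ℝ] E n, 0 < L.det ∧ (∀ v, ⟪x, L v⟫_ℝ = L.det * ⟪x, v⟫_ℝ) ∧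
      (∀ v w, g' x (L v) (L w) = g x v w) ∧ (∀ q ∈ bdM n, lg g' x q = L (lg g x q)) ∧
      ∀ v, ⟪x, v⟫_ℝ = 0 → L v = v := by
  have hx1 : ‖x‖ = 1 := mem_sphere_zero_iff_norm.1 hx
  have hxM := bd_sub hx
  have hm := hg.toIsMetric
  have hm' := hg'.toIsMetric
  obtain ⟨N, hN⟩ := hm.exists_riesz x (innerSL ℝ x)
  obtain ⟨N', hN'⟩ := hm'.exists_riesz x (innerSL ℝ x)
  simp only [innerSL_apply_apply] at hN hN'
  have hxx : ⟪x, x⟫_ℝ = 1 := by rw [real_inner_self_eq_norm_sq, hx1, one_pow]
  have hN0 : N ≠ 0 := by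
    rintro rfl
    have := hN x
    rw [map_zero, zero_apply, hxx] at this
    norm_num at this
  have hN0' : N' ≠ 0 := by
    rintro rfl
    have := hN' x
    rw [map_zero, zero_apply, hxx] at this
    norm_num at this
  set κ := nm g x N with hκ
  set κ' := nm g' x N' with hκ'
  have hκ0 : 0 < κ := nm_pos hm hN0
  have hκ0' : 0 < κ' := nm_pos hm' hN0'
  have hκ2 : g x N N = κ ^ 2 := (nm_sq hm x N).symm
  have hκ2' : g' x N' N' = κ' ^ 2 := (nm_sq hm' x N').symm
  have hxN : ⟪x, N⟫_ℝ = κ ^ 2 := by rw [← hN, hκ2]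
  have hxN' : ⟪x, N'⟫_ℝ = κ' ^ 2 := by rw [← hN', hκ2']
  set w : E n := (1 / κ) • ((1 / κ') • N' - (1 / κ) • N) with hw
  have hxw : ⟪x, w⟫_ℝ = κ' / κ - 1 := by
    rw [hw, inner_smul_right, inner_sub_right, inner_smul_right, inner_smul_right, hxN, hxN']
    field_simp
  set L : E n →L[ℝ] E n := ContinuousLinearMap.id ℝ (E n) + (innerSL ℝ x).smulRight w with hL
  have hLv : ∀ v, L v = v + ⟪x, v⟫_ℝ • w := fun v => by simp [hL]
  have hdet : L.det = κ' / κ := by
    rw [det_trans L (innerSL ℝ x) w hLv, innerSL_apply_apply, hxw]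
    ring
  have hLx : ∀ v, ⟪x, L v⟫_ℝ = L.det * ⟪x, v⟫_ℝ := by
    intro v
    rw [hLv, inner_add_right, inner_smul_right, hxw, hdet]
    ring
  have htang : ∀ t, ⟪x, t⟫_ℝ = 0 → g x t t = g' x t t := fun t ht => tang hg hg' hd hx ht
  have hform : ∀ v, g' x (L v) (L v) = g x v v := by
    intro v
    set c := ⟪x, v⟫_ℝ / κ with hc
    set t := v - (c / κ) • N with ht
    have hxt : ⟪x, t⟫_ℝ = 0 := by
      rw [ht, inner_sub_right, inner_smul_right, hxN, hc]
      field_simp
      ring
    have hv : v = t + (c / κ) • N := by rw [ht]; abel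
    have hLv' : L v = t + (c / κ') • N' := by
      rw [hLv, hw, ht]
      have hc' : ⟪x, v⟫_ℝ = c * κ := by rw [hc]; field_simp
      rw [hc']
      have h1 : (c * κ) • (1 / κ) • ((1 / κ') • N' - (1 / κ) • N) =
          (c / κ') • N' - (c / κ) • N := by
        rw [smul_smul, smul_sub, smul_smul, smul_smul]
        congr 2
        · field_simp
        · field_simp
      rw [h1]
      abel
    rw [hLv', hv]
    simp only [map_add, map_smul, add_apply, smul_apply, smul_eq_mul]
    rw [hN, hN', hxt, hm.symm x t N, hm'.symm x t N', hN, hN', hxt, hκ2, hκ2', htang t hxt]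
    field_simp
    ring
  have hpolar : ∀ v u, g' x (L v) (L u) = g x v u := by
    intro v u
    have h1 := hform (v + u)
    simp only [map_add, add_apply] at h1
    rw [hm.symm x u v, hm'.symm x (L u) (L v), hform v, hform u] at h1
    linarith
  refine ⟨L, by rw [hdet]; positivity, hLx, hpolar, fun q hq => ?_, fun v hv => by
    rw [hLv, hv, zero_smul, add_zero]⟩
  rcases eq_or_ne q x with rfl | hqx
  · rw [hg.lg_self hxM, hg'.lg_self hxM, map_zero]
  have hqM := bd_sub hq
  set a := lg g x q with ha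
  set a' := lg g' x q with ha'
  have h1 : ∀ t, ⟪x, t⟫_ℝ = 0 → g' x a' t = g x a t := by
    intro t ht
    have h2 := first_var_bd hg hg' hqM hx (S := univ) univ_mem
      (fun y _ hy => hd q hq y hy) ht
    rw [ha, ha', hg.lg_symm hqM hxM, hg'.lg_symm hqM hxM]
    simp only [map_neg, neg_apply]
    rw [h2]
  have h2 : g' x a' a' = g x a a := by
    have h4 := hd x hx q hq
    rw [hg.rdist_eq hxM hqM, hg'.rdist_eq hxM hqM] at h4
    exact ((Real.sqrt_inj (hm.nonneg _ _) (hm'.nonneg _ _)).1 h4).symm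
  -- the difference is orthogonal to the tangential vectors
  set d := a' - L a with hd'
  have h3 : ∀ t, ⟪x, t⟫_ℝ = 0 → g' x d t = 0 := by
    intro t ht
    have hLt : L t = t := by rw [hLv, ht, zero_smul, add_zero]
    have h4 := hpolar a t
    rw [hLt] at h4
    rw [hd', map_sub, sub_apply, h1 t ht, h4, sub_self]
  have h4 : d = (g' x d N' / κ' ^ 2) • N' := by
    refine hm'.ext (x := x) (fun z => ?_)
    have h5 := h3 (z - (⟪x, z⟫_ℝ / κ' ^ 2) • N') (by
      rw [inner_sub_right, inner_smul_right, hxN']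
      field_simp
      ring)
    rw [map_sub, map_smul, smul_eq_mul, sub_eq_zero] at h5
    rw [h5, map_smul, smul_apply, smul_eq_mul, hN']
    ring
  set c := g' x d N' / κ' ^ 2 with hc
  have h5 : a' = L a + c • N' := by rw [← h4, hd']; abel
  have h6 : ⟪x, L a⟫_ℝ < 0 := by
    rw [hLx]
    have := inner_lg_neg hg hx hqM hqx.symm
    have h7 : 0 < L.det := by rw [hdet]; positivity
    exact mul_neg_of_pos_of_neg h7 this
  have h7 : ⟪x, a'⟫_ℝ < 0 := inner_lg_neg hg' hx hqM hqx.symm
  have h8 : c * (2 * ⟪x, L a⟫_ℝ + c * κ' ^ 2) = 0 := by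
    rw [h5] at h2
    simp only [map_add, map_smul, add_apply, smul_apply, smul_eq_mul] at h2
    rw [hform a, hm'.symm x (L a) N', hN', hκ2'] at h2
    linarith
  have h9 : c = 0 := by
    by_contra hc0
    have h10 := (mul_eq_zero.1 h8).resolve_left hc0
    rw [h5, inner_add_right, inner_smul_right, hxN'] at h7
    linarith
  rw [h5, h9, zero_smul, add_zero]

/-- The density on the space of geodesics is determined by the distances of boundary points. -/
theorem cx_eq (hg : IsSimple g) (hg' : IsSimple g')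
    (hd : ∀ x ∈ bdM n, ∀ y ∈ bdM n, rdist g x y = rdist g' x y) {x q : E n} (hx : x ∈ bdM n)
    (hq : q ∈ bdM n) : cx g' x q = cx g x q := by
  have hq1 : ‖q‖ = 1 := mem_sphere_zero_iff_norm.1 hq
  have hxM := bd_sub hx
  have hqM := bd_sub hq
  have hm := hg.toIsMetric
  obtain ⟨L, hL0, hLx, hform, hlg, -⟩ := exists_iso hg hg' hd hx
  have h1 : fderiv ℝ (pol g' x) q = L.comp (fderiv ℝ (pol g x) q) := by
    have hd1 := (contDiffAt_pol hg hxM (bd_ne hq1)).differentiableAt (by simp)
    have h2 : pol g' x =ᶠ[𝓝 q] fun X => L (pol g x X) := by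
      filter_upwards [isOpen_compl_singleton.mem_nhds (bd_ne hq1)] with X hX
      unfold pol
      rw [hlg _ (rad_mem hX), map_smul]
    rw [h2.fderiv_eq]
    exact (L.hasFDerivAt.comp q hd1.hasFDerivAt).fderiv
  have h2 : (dlg g' x q).det * ⟪q, tv g' x q⟫_ℝ =
      L.det * ((dlg g x q).det * ⟪q, tv g x q⟫_ℝ) := by
    rw [← det_fderiv_pol_unit hg' hxM hq1, ← det_fderiv_pol_unit hg hxM hq1, h1, det_comp']
  have h3 : nm g' x (lg g' x q) = nm g x (lg g x q) := by
    unfold nm
    rw [hlg q hq, hform]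
  have h4 : (gram (g x)).det = L.det ^ 2 * (gram (g' x)).det := by
    have e1 := gram_comp ((g' x).bilinearComp (ContinuousLinearMap.id ℝ (E n)) L)
      (g x) L (fun v w => (hform v w).symm)
    have e2 := gram_comp (g' x).flip (((g' x).bilinearComp (ContinuousLinearMap.id ℝ (E n)) L).flip)
      L (fun v w => rfl)
    have e3 : gram (((g' x).bilinearComp (ContinuousLinearMap.id ℝ (E n)) L).flip) =
        (gram ((g' x).bilinearComp (ContinuousLinearMap.id ℝ (E n)) L)).transpose := rfl
    have e4 : gram (g' x).flip = (gram (g' x)).transpose := rfl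
    rw [e3, e4] at e2
    have e5 := congrArg Matrix.det e1
    have e6 := congrArg Matrix.det e2
    simp only [Matrix.det_mul, Matrix.det_transpose, det_mtx] at e5 e6
    rw [e5, e6]
    ring
  unfold cx
  rw [h2, h3, hlg q hq, hLx, abs_mul L.det, abs_mul L.det, abs_of_pos hL0, h4]
  ring

theorem ag_self (hg : IsSimple g) {q : E n} (hq : q ∈ bdM n) :
    ag g g q = ∫⁻ θ : sphere (0 : E n) 1, ENNReal.ofReal (cx g q θ)
      ∂(volume : Measure (E n)).toSphere := by
  unfold ag
  refine lintegral_congr (fun θ => ?_)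
  rcases eq_or_ne q (θ : E n) with h | h
  · rw [← h, cx_self hg (bd_sub hq)]
    simp
  · rw [ratio_self hg hq θ.2 h, ENNReal.ofReal_one, mul_one]

theorem dl_self_eq (hn : 2 ≤ n) (hg : IsSimple g) (hg' : IsSimple g')
    (hd : ∀ x ∈ bdM n, ∀ y ∈ bdM n, rdist g x y = rdist g' x y) : dl g' g' = dl g g := by
  rw [santalo hn hg hg.toIsMetric, santalo hn hg' hg'.toIsMetric]
  congr 1
  refine lintegral_congr (fun q => ?_)
  rw [ag_self hg q.2, ag_self hg' q.2]
  exact lintegral_congr (fun θ => by rw [cx_eq hg hg' hd q.2 θ.2])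

/-- **The volume is determined by the distances of the boundary points.** -/
theorem vl_eq (hn : 2 ≤ n) (hg : IsSimple g) (hg' : IsSimple g')
    (hd : ∀ x ∈ bdM n, ∀ y ∈ bdM n, rdist g x y = rdist g' x y) : vl g' = vl g := by
  have h1 := dl_self_eq hn hg hg' hd
  rw [dl_self hg.toIsMetric, dl_self hg'.toIsMetric] at h1
  exact (ENNReal.mul_left_inj (cc_ne_zero hn) cc_ne_top).1 h1

end Pool.Agent.V5helper78.BR
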