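import Pool.Agent.V5helper78.BR.Base

/-!
# The derivatives of the inverse exponential maps at `x` and `z` are adjoint
-/

set_option autoImplicit false
set_option maxSynthPendingDepth 3

namespace Pool.Agent.V5helper78.BR

open Set Metric Filter Topology
open scoped ContDiff InnerProductSpace
open Pool.Agent.Q176.BR

variable {n : ℕ} {g : Fld n}

theorem M_nhds {y : E n} (hy : y ∈ ball (0 : E n) 1) : M n ∈ 𝓝 y :=
  mem_of_superset (isOpen_ball.mem_nhds hy) ball_subset_closedBall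

theorem contDiffOn_dlg (hg : IsSimple g) {x : E n} (hx : x ∈ M n) :
    ContDiffOn ℝ ∞ (dlg g x) (M n) :=
  (hg.contDiffOn_lg hx).fderivWithin uniqueDiff (by simp)

theorem contDiffOn_ilg (hg : IsSimple g) {x : E n} (hx : x ∈ M n) :
    ContDiffOn ℝ ∞ (ilg g x) (M n) := by
  intro y hy
  obtain ⟨e, he⟩ := hg.exists_equiv hx hy
  have h1 : ContDiffAt ℝ ∞ (ContinuousLinearMap.inverse : (E n →L[ℝ] E n) → (E n →L[ℝ] E n))
      (dlg g x y) := by
    rw [← he]
    exact contDiffAt_map_inverse (n := ∞) e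
  exact h1.comp_contDiffWithinAt y (contDiffOn_dlg hg hx y hy)

theorem contDiffOn_tv (hg : IsSimple g) {x : E n} (hx : x ∈ M n) :
    ContDiffOn ℝ ∞ (tv g x) (M n) :=
  (contDiffOn_ilg hg hx).clm_apply (hg.contDiffOn_lg hx)

/-- The differential of the energy function. -/
noncomputable def mom (g : Fld n) (x y : E n) : E n →L[ℝ] ℝ := g y (tv g x y)

theorem contDiffOn_mom (hg : IsSimple g) {x : E n} (hx : x ∈ M n) :
    ContDiffOn ℝ ∞ (mom g x) (M n) :=
  hg.smooth.contDiffOn.clm_apply (contDiffOn_tv hg hx)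

theorem tv_at (hg : IsSimple g) {x y : E n} (hx : x ∈ M n) (hy : y ∈ ball (0 : E n) 1) :
    ContDiffAt ℝ ∞ (tv g x) y := (contDiffOn_tv hg hx).contDiffAt (M_nhds hy)

theorem mom_at (hg : IsSimple g) {x y : E n} (hx : x ∈ M n) (hy : y ∈ ball (0 : E n) 1) :
    ContDiffAt ℝ ∞ (mom g x) y := (contDiffOn_mom hg hx).contDiffAt (M_nhds hy)

theorem hasFDerivAt_of_inf {F G : Type*} [NormedAddCommGroup F] [NormedSpace ℝ F]
    [NormedAddCommGroup G] [NormedSpace ℝ G] {f : F → G} {y : F} (h : ContDiffAt ℝ ∞ f y) :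
    HasFDerivAt f (fderiv ℝ f y) y := (h.differentiableAt (by simp)).hasFDerivAt

theorem hasFDerivAt_fderiv {F G : Type*} [NormedAddCommGroup F] [NormedSpace ℝ F]
    [NormedAddCommGroup G] [NormedSpace ℝ G] {f : F → G} {y : F} (h : ContDiffAt ℝ ∞ f y) :
    HasFDerivAt (fderiv ℝ f) (fderiv ℝ (fderiv ℝ f) y) y :=
  hasFDerivAt_of_inf (h.fderiv_right (m := ∞) (by simp))

theorem symm2 {F G : Type*} [NormedAddCommGroup F] [NormedSpace ℝ F]
    [NormedAddCommGroup G] [NormedSpace ℝ G] {f : F → G} {y : F} (h : ContDiffAt ℝ ∞ f y)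
    (a b : F) : fderiv ℝ (fderiv ℝ f) y a b = fderiv ℝ (fderiv ℝ f) y b a :=
  h.isSymmSndFDerivAt (by
      rw [minSmoothness_of_isRCLikeNormedField]
      exact WithTop.coe_le_coe.2 le_top) a b

theorem mom_fderiv (hg : IsSimple g) {x y : E n} (hx : x ∈ M n) (hy : y ∈ ball (0 : E n) 1)
    (c b : E n) : fderiv ℝ (mom g x) y c b =
      fderiv ℝ g y c (tv g x y) b + g y (fderiv ℝ (tv g x) y c) b := by
  have h1 := (hg.toIsMetric.hasFDerivAt y).clm_apply (hasFDerivAt_of_inf (tv_at hg hx hy))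
  have h2 : HasFDerivAt (mom g x) _ y := h1
  rw [h2.fderiv]
  simp [add_comm]

/-- The energy function. -/
noncomputable def en (g : Fld n) (x y : E n) : ℝ := 1 / 2 * g x (lg g x y) (lg g x y)

theorem hasFDerivAt_en (hg : IsSimple g) {x y : E n} (hx : x ∈ M n)
    (hy : y ∈ ball (0 : E n) 1) : HasFDerivAt (en g x) (mom g x y) y := by
  have hyM : y ∈ M n := ball_subset_closedBall hy
  have h1 : HasFDerivAt (lg g x) (dlg g x y) y :=
    (hg.hasFDeriv hx hyM).hasFDerivAt (M_nhds hy)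
  have h2 : HasFDerivAt (fun y => g x (lg g x y)) ((g x).comp (dlg g x y)) y :=
    (g x).hasFDerivAt.comp y h1
  have h3 := (h2.clm_apply h1).const_mul (1 / 2 : ℝ)
  refine h3.congr_fderiv ?_
  ext ξ
  simp only [smul_apply, add_apply, ContinuousLinearMap.comp_apply,
    ContinuousLinearMap.flip_apply, smul_eq_mul, mom]
  rw [hg.gauss hx hyM, hg.symm x (dlg g x y ξ)]
  ring

theorem contDiffAt_en (hg : IsSimple g) {x y : E n} (hx : x ∈ M n)
    (hy : y ∈ ball (0 : E n) 1) : ContDiffAt ℝ ∞ (en g x) y := by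
  have h1 := hg.lg_at hx hy
  have h2 : ContDiffAt ℝ ∞ (fun y => g x (lg g x y)) y :=
    (g x).contDiff.contDiffAt.comp y h1
  exact contDiffAt_const.mul (h2.clm_apply h1)

theorem mom_symm (hg : IsSimple g) {x y : E n} (hx : x ∈ M n) (hy : y ∈ ball (0 : E n) 1)
    (c b : E n) : fderiv ℝ (mom g x) y c b = fderiv ℝ (mom g x) y b c := by
  have h1 := symm2 (contDiffAt_en hg hx hy) c b
  have h2 : fderiv ℝ (en g x) =ᶠ[𝓝 y] mom g x := by
    filter_upwards [isOpen_ball.mem_nhds hy] with z hz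
    exact (hasFDerivAt_en hg hx hz).fderiv
  rwa [h2.fderiv_eq] at h1

theorem en_eq (hg : IsSimple g) {x y : E n} (hx : x ∈ M n) (hy : y ∈ M n) :
    en g x y = 1 / 2 * g y (tv g x y) (tv g x y) := by
  unfold en
  rw [hg.norm_tv hx hy]

/-- The eikonal equation, differentiated once. -/
theorem eik1 (hg : IsSimple g) {x y : E n} (hx : x ∈ M n) (hy : y ∈ ball (0 : E n) 1)
    (b : E n) : fderiv ℝ (mom g x) y (tv g x y) b =
      mom g x y b + 1 / 2 * fderiv ℝ g y b (tv g x y) (tv g x y) := by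
  have hX := hasFDerivAt_of_inf (tv_at hg hx hy)
  have h1 := (((hg.toIsMetric.hasFDerivAt y).clm_apply hX).clm_apply hX).const_mul (1 / 2 : ℝ)
  have h2 : en g x =ᶠ[𝓝 y] fun y => 1 / 2 * g y (tv g x y) (tv g x y) := by
    filter_upwards [isOpen_ball.mem_nhds hy] with z hz
    exact en_eq hg hx (ball_subset_closedBall hz)
  have h3 := (hasFDerivAt_en hg hx hy).unique (h1.congr_of_eventuallyEq h2)
  have h4 := congrArg (fun L : E n →L[ℝ] ℝ => L b) h3
  simp only [smul_apply, add_apply, ContinuousLinearMap.comp_apply,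
    ContinuousLinearMap.flip_apply, smul_eq_mul] at h4
  rw [mom_symm hg hx hy, mom_fderiv hg hx hy, h4]
  rw [hg.symm y (fderiv ℝ (tv g x) y b) (tv g x y)]
  ring

/-- The eikonal equation, differentiated twice. -/
theorem eik2 (hg : IsSimple g) {x y : E n} (hx : x ∈ M n) (hy : y ∈ ball (0 : E n) 1)
    (c b : E n) : fderiv ℝ (fderiv ℝ (mom g x)) y c (tv g x y) b +
        fderiv ℝ (mom g x) y (fderiv ℝ (tv g x) y c) b =
      fderiv ℝ (mom g x) y c b + 1 / 2 * (fderiv ℝ (fderiv ℝ g) y c b (tv g x y) (tv g x y) +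
        2 * fderiv ℝ g y b (fderiv ℝ (tv g x) y c) (tv g x y)) := by
  have hX := hasFDerivAt_of_inf (tv_at hg hx hy)
  have hP := hasFDerivAt_of_inf (mom_at hg hx hy)
  have hP2 := hasFDerivAt_fderiv (mom_at hg hx hy)
  have hG := hasFDerivAt_fderiv (hg.smooth.contDiffAt (x := y))
  have h1 := (hP2.clm_apply hX).clm_apply (hasFDerivAt_const b y)
  have h2 := (hP.clm_apply (hasFDerivAt_const b y)).add
    ((((hG.clm_apply (hasFDerivAt_const b y)).clm_apply hX).clm_apply hX).const_mul (1 / 2 : ℝ))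
  have h3 : (fun y => fderiv ℝ (mom g x) y (tv g x y) b) =ᶠ[𝓝 y]
      fun y => mom g x y b + 1 / 2 * fderiv ℝ g y b (tv g x y) (tv g x y) := by
    filter_upwards [isOpen_ball.mem_nhds hy] with z hz
    exact eik1 hg hx hz b
  have h4 := h1.unique (h2.congr_of_eventuallyEq h3)
  have h5 := congrArg (fun L : E n →L[ℝ] ℝ => L c) h4
  simp only [smul_apply, add_apply, ContinuousLinearMap.comp_apply,
    ContinuousLinearMap.flip_apply, smul_eq_mul, zero_apply, map_zero, zero_add] at h5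
  rw [hg.toIsMetric.fderiv_symm y b (tv g x y) (fderiv ℝ (tv g x) y c)] at h5
  linarith

/-- The derivative of `t ↦ (D exp_x)(t v) w`. -/
theorem hasDerivAt_ilg (hg : IsSimple g) {x : E n} (hx : x ∈ M n) {γ u : ℝ → E n}
    (hγ : IsGeod g γ u) (h0 : γ 0 = x) (hu : u 0 ≠ 0) {t : ℝ} (ht : t ∈ Ioo (0 : ℝ) 1)
    (w : E n) : HasDerivAt (fun t => ilg g x (γ t) w)
      (t⁻¹ • (fderiv ℝ (tv g x) (γ t) (ilg g x (γ t) w) - ilg g x (γ t) w)) t := by
  have hin : ∀ t ∈ Ioo (0 : ℝ) 1, γ t ∈ ball (0 : E n) 1 := fun t ht =>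
    mem_ball_zero_iff.2 (hγ.inner_mem hg hu ht)
  have hlg : ∀ t ∈ Ioo (0 : ℝ) 1, lg g x (γ t) = t • u 0 := by
    intro t ht
    have h2 := hγ.lg_eq hg ⟨ht.1.le, ht.2.le⟩
    rwa [h0] at h2
  have hopen := hg.isOpen_lg hx
  have hmem : t • u 0 ∈ lg g x '' ball 0 1 := ⟨γ t, hin t ht, hlg t ht⟩
  have hex : ContDiffAt ℝ ∞ (ex g x) (t • u 0) := hg.contDiffAt_ex hx hmem
  have hilg : ∀ ξ ∈ lg g x '' ball (0 : E n) 1, fderiv ℝ (ex g x) ξ = ilg g x (ex g x ξ) := by
    rintro _ ⟨y, hy, rfl⟩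
    rw [hg.ex_lg hx (ball_subset_closedBall hy)]
    exact (hg.hasFDerivAt_ex hx hy).fderiv
  -- the derivative of `t ↦ D exp_x (t v) w`
  have h2 := hasFDerivAt_fderiv hex
  have hline : HasDerivAt (fun t : ℝ => t • u 0) (u 0) t := by
    simpa using (hasDerivAt_id t).smul_const (u 0)
  have h3 : HasDerivAt (fun t : ℝ => fderiv ℝ (ex g x) (t • u 0))
      (fderiv ℝ (fderiv ℝ (ex g x)) (t • u 0) (u 0)) t :=
    HasFDerivAt.comp_hasDerivAt (f := fun t : ℝ => t • u 0) t h2 hline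
  have h4 := h3.clm_apply (hasDerivAt_const t w)
  rw [map_zero, add_zero] at h4
  have h5 : (fun t => ilg g x (γ t) w) =ᶠ[𝓝 t] fun t => fderiv ℝ (ex g x) (t • u 0) w := by
    filter_upwards [Ioo_mem_nhds ht.1 ht.2] with s hs
    rw [hilg _ ⟨γ s, hin s hs, hlg s hs⟩, ← hlg s hs,
      hg.ex_lg hx (ball_subset_closedBall (hin s hs))]
  -- the identity `tv (exp v) = D exp (v) v`
  have h6 : (fun ξ => tv g x (ex g x ξ)) =ᶠ[𝓝 (t • u 0)] fun ξ => fderiv ℝ (ex g x) ξ ξ := by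
    filter_upwards [hopen.mem_nhds hmem] with ξ hξ
    rw [hilg ξ hξ]
    obtain ⟨y, hy, rfl⟩ := hξ
    rw [hg.ex_lg hx (ball_subset_closedBall hy)]
    rfl
  have hγt : ex g x (t • u 0) = γ t := by
    rw [← hlg t ht, hg.ex_lg hx (ball_subset_closedBall (hin t ht))]
  have h7 : HasFDerivAt (tv g x) (fderiv ℝ (tv g x) (γ t)) (ex g x (t • u 0)) := by
    rw [hγt]
    exact hasFDerivAt_of_inf (tv_at hg hx (hin t ht))
  have h8 := h7.comp (t • u 0) (hasFDerivAt_of_inf hex)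
  have h9 := h2.clm_apply (hasFDerivAt_id (t • u 0))
  have h10 := h8.unique (h9.congr_of_eventuallyEq h6)
  have h11 := congrArg (fun L : E n →L[ℝ] E n => L w) h10
  simp only [add_apply, ContinuousLinearMap.comp_apply,
    ContinuousLinearMap.flip_apply, id_eq, ContinuousLinearMap.id_apply] at h11
  rw [hilg _ hmem, hγt, symm2 hex, map_smul, smul_apply] at h11
  refine (h4.congr_of_eventuallyEq h5).congr_deriv ?_
  rw [h11, add_sub_cancel_left, smul_smul, inv_mul_cancel₀ ht.1.ne', one_smul]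

end Pool.Agent.V5helper78.BR
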